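import Pool.Agent.Helper68.AV.Sound

/-!
# Project AV: certificates (small configurations and combs)
-/

set_option autoImplicit false
set_option maxRecDepth 100000

namespace Pool.Agent.Helper68.AV

def cert_two : List (List (Fin 3) × (List (Fin 3) ⊕ Fin 3)) := [
    ([0, 0, 0], .inl [1, 2]), ([0, 0, 1], .inl [1, 2]), ([0, 1, 0], .inl [2, 1]),
    ([0, 1, 2], .inl [2, 1]), ([0, 1, 1], .inr 2)]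

def cert_tri : List (List (Fin 3) × (List (Fin 3) ⊕ Fin 3)) := [
    ([0, 0, 0], .inl [1, 2, 2, 0, 1]), ([0, 0, 1], .inl [2, 1, 1, 0, 2]),
    ([0, 1, 1], .inl [1, 2, 2, 0, 0]), ([0, 1, 2], .inl [1, 2, 2, 0, 0]), ([0, 1, 0], .inr 2)]

def cert_sq : List (List (Fin 3) × (List (Fin 3) ⊕ Fin 3)) := [
    ([0, 0, 1], .inl [1, 2, 2, 1, 0]), ([0, 1, 0], .inl [2, 0, 1, 2, 1]),
    ([0, 1, 1], .inl [1, 2, 2, 0, 0]), ([0, 1, 2], .inl [1, 2, 2, 0, 0]), ([0, 0, 0], .inr 1)]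

def cert_clsq : List (List (Fin 3) × (List (Fin 3) ⊕ Fin 3)) := [
    ([0, 0, 1, 0], .inl [1, 2, 0, 2, 1, 2]), ([0, 0, 1, 1], .inl [1, 2, 0, 2, 1, 2]),
    ([0, 1, 0, 0], .inl [2, 0, 1, 1, 2, 2]), ([0, 1, 0, 1], .inl [2, 0, 1, 1, 2, 2]),
    ([0, 1, 1, 0], .inl [1, 2, 0, 2, 0, 2]), ([0, 1, 1, 1], .inl [1, 2, 0, 2, 0, 2]),
    ([0, 1, 2, 0], .inl [1, 2, 0, 2, 0, 1]), ([0, 1, 2, 1], .inl [2, 0, 1, 1, 2, 0]),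
    ([0, 1, 2, 2], .inl [1, 2, 0, 2, 0, 1]), ([0, 0, 0, 0], .inr 1), ([0, 0, 0, 1], .inr 2),
    ([0, 0, 1, 2], .inr 1), ([0, 1, 0, 2], .inr 1), ([0, 1, 1, 2], .inr 0)]

def cert_comb11 : List (List (Fin 3) × (List (Fin 3) ⊕ Fin 3)) := [
    ([0, 0, 0, 0, 1], .inl [1, 0, 2, 2, 2]), ([0, 0, 0, 1, 1], .inl [1, 0, 2, 2, 2]),
    ([0, 0, 1, 0, 0], .inl [1, 2, 2, 0, 1]), ([0, 0, 1, 0, 1], .inl [1, 0, 2, 2, 2]),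
    ([0, 0, 1, 0, 2], .inl [1, 0, 2, 2, 1]), ([0, 0, 1, 1, 0], .inl [2, 1, 1, 0, 2]),
    ([0, 0, 1, 1, 1], .inl [1, 0, 2, 2, 2]), ([0, 0, 1, 1, 2], .inl [2, 1, 1, 0, 0]),
    ([0, 0, 1, 2, 0], .inl [1, 2, 2, 0, 1]), ([0, 0, 1, 2, 1], .inl [1, 2, 2, 0, 0]),
    ([0, 0, 1, 2, 2], .inl [1, 0, 2, 2, 1]), ([0, 1, 0, 0, 1], .inl [1, 0, 2, 2, 2]),
    ([0, 1, 0, 0, 2], .inl [1, 0, 2, 2, 1]), ([0, 1, 0, 1, 1], .inl [1, 0, 2, 2, 2]),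
    ([0, 1, 0, 2, 2], .inl [1, 0, 2, 2, 1]), ([0, 1, 1, 0, 0], .inl [1, 2, 2, 0, 1]),
    ([0, 1, 1, 0, 1], .inl [1, 0, 2, 2, 2]), ([0, 1, 1, 0, 2], .inl [1, 0, 2, 2, 1]),
    ([0, 1, 1, 1, 1], .inl [1, 0, 2, 2, 2]), ([0, 1, 1, 2, 0], .inl [1, 2, 2, 0, 1]),
    ([0, 1, 1, 2, 1], .inl [1, 2, 2, 0, 0]), ([0, 1, 1, 2, 2], .inl [1, 0, 2, 2, 1]),
    ([0, 1, 2, 0, 0], .inl [1, 2, 2, 0, 1]), ([0, 1, 2, 1, 1], .inl [1, 2, 2, 0, 0]),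
    ([0, 1, 2, 2, 0], .inl [1, 2, 2, 0, 1]), ([0, 1, 2, 2, 1], .inl [1, 2, 2, 0, 0]),
    ([0, 0, 0, 0, 0], .inr 1), ([0, 0, 0, 1, 0], .inr 2), ([0, 1, 0, 0, 0], .inr 2),
    ([0, 1, 0, 1, 0], .inr 2), ([0, 1, 0, 1, 2], .inr 2), ([0, 1, 1, 1, 0], .inr 2),
    ([0, 1, 2, 1, 2], .inr 0), ([0, 0, 0, 1, 2], .inr 1), ([0, 1, 0, 2, 0], .inr 2),
    ([0, 1, 0, 2, 1], .inr 0), ([0, 1, 2, 0, 2], .inr 2), ([0, 1, 2, 1, 0], .inr 0),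
    ([0, 1, 2, 2, 2], .inr 1), ([0, 1, 1, 1, 2], .inr 0), ([0, 1, 2, 0, 1], .inr 0)]

def cert_comb10 : List (List (Fin 3) × (List (Fin 3) ⊕ Fin 3)) := [
    ([0, 0, 0, 1, 0], .inl [1, 0, 2, 2, 2]), ([0, 0, 0, 1, 1], .inl [1, 0, 2, 2, 2]),
    ([0, 0, 1, 0, 0], .inl [1, 2, 2, 0, 1]), ([0, 0, 1, 0, 1], .inl [2, 1, 1, 0, 2]),
    ([0, 0, 1, 0, 2], .inl [1, 2, 2, 0, 1]), ([0, 0, 1, 1, 0], .inl [1, 0, 2, 2, 2]),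
    ([0, 0, 1, 1, 1], .inl [1, 0, 2, 2, 2]), ([0, 0, 1, 1, 2], .inl [1, 2, 2, 0, 0]),
    ([0, 0, 1, 2, 0], .inl [1, 0, 2, 2, 1]), ([0, 0, 1, 2, 1], .inl [2, 1, 1, 0, 0]),
    ([0, 0, 1, 2, 2], .inl [1, 0, 2, 2, 1]), ([0, 1, 0, 1, 0], .inl [1, 0, 2, 2, 2]),
    ([0, 1, 0, 1, 1], .inl [1, 0, 2, 2, 2]), ([0, 1, 0, 2, 0], .inl [1, 0, 2, 2, 1]),
    ([0, 1, 0, 2, 2], .inl [1, 0, 2, 2, 1]), ([0, 1, 1, 0, 0], .inl [1, 2, 2, 0, 1]),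
    ([0, 1, 1, 0, 2], .inl [1, 2, 2, 0, 1]), ([0, 1, 1, 1, 0], .inl [1, 0, 2, 2, 2]),
    ([0, 1, 1, 1, 1], .inl [1, 0, 2, 2, 2]), ([0, 1, 1, 1, 2], .inl [1, 2, 2, 0, 0]),
    ([0, 1, 1, 2, 0], .inl [1, 0, 2, 2, 1]), ([0, 1, 1, 2, 2], .inl [1, 0, 2, 2, 1]),
    ([0, 1, 2, 0, 0], .inl [1, 2, 2, 0, 1]), ([0, 1, 2, 0, 2], .inl [1, 2, 2, 0, 1]),
    ([0, 1, 2, 1, 1], .inl [1, 2, 2, 0, 0]), ([0, 1, 2, 1, 2], .inl [1, 2, 2, 0, 0]),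
    ([0, 0, 0, 0, 0], .inr 1), ([0, 0, 0, 0, 1], .inr 2), ([0, 1, 0, 0, 0], .inr 2),
    ([0, 1, 0, 0, 1], .inr 2), ([0, 1, 0, 2, 1], .inr 2), ([0, 1, 1, 0, 1], .inr 2),
    ([0, 1, 1, 2, 1], .inr 0), ([0, 1, 2, 2, 1], .inr 0), ([0, 1, 2, 2, 2], .inr 0),
    ([0, 0, 0, 1, 2], .inr 1), ([0, 1, 0, 0, 2], .inr 2), ([0, 1, 0, 1, 2], .inr 0),
    ([0, 1, 2, 0, 1], .inr 0), ([0, 1, 2, 2, 0], .inr 2), ([0, 1, 2, 1, 0], .inr 0)]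

def cert_comb01 : List (List (Fin 3) × (List (Fin 3) ⊕ Fin 3)) := [
    ([0, 0, 0, 0, 1], .inl [1, 0, 2, 2, 2]), ([0, 0, 0, 1, 1], .inl [1, 0, 2, 2, 2]),
    ([0, 0, 1, 0, 0], .inl [1, 2, 2, 0, 1]), ([0, 0, 1, 0, 1], .inl [1, 0, 2, 2, 2]),
    ([0, 0, 1, 0, 2], .inl [1, 0, 2, 2, 1]), ([0, 0, 1, 1, 0], .inl [2, 1, 1, 0, 2]),
    ([0, 0, 1, 1, 1], .inl [1, 0, 2, 2, 2]), ([0, 0, 1, 1, 2], .inl [2, 1, 1, 0, 0]),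
    ([0, 0, 1, 2, 0], .inl [1, 2, 2, 0, 1]), ([0, 0, 1, 2, 1], .inl [1, 2, 2, 0, 0]),
    ([0, 0, 1, 2, 2], .inl [1, 0, 2, 2, 1]), ([0, 1, 0, 0, 0], .inl [0, 1, 2, 2, 2]),
    ([0, 1, 0, 1, 0], .inl [0, 1, 2, 2, 2]), ([0, 1, 0, 1, 1], .inl [0, 2, 2, 1, 0]),
    ([0, 1, 0, 1, 2], .inl [0, 1, 2, 2, 0]), ([0, 1, 0, 2, 0], .inl [0, 2, 2, 1, 1]),
    ([0, 1, 0, 2, 1], .inl [0, 2, 2, 1, 0]), ([0, 1, 0, 2, 2], .inl [0, 1, 2, 2, 0]),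
    ([0, 1, 1, 0, 0], .inl [0, 1, 2, 2, 2]), ([0, 1, 1, 1, 0], .inl [0, 1, 2, 2, 2]),
    ([0, 1, 1, 1, 2], .inl [0, 1, 2, 2, 0]), ([0, 1, 1, 2, 2], .inl [0, 1, 2, 2, 0]),
    ([0, 1, 2, 0, 0], .inl [0, 2, 2, 1, 1]), ([0, 1, 2, 1, 1], .inl [0, 2, 2, 1, 0]),
    ([0, 1, 2, 2, 0], .inl [0, 2, 2, 1, 1]), ([0, 1, 2, 2, 1], .inl [0, 2, 2, 1, 0]),
    ([0, 0, 0, 0, 0], .inr 1), ([0, 0, 0, 1, 0], .inr 2), ([0, 0, 0, 1, 2], .inr 2),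
    ([0, 1, 0, 0, 1], .inr 2), ([0, 1, 0, 0, 2], .inr 2), ([0, 1, 1, 0, 1], .inr 2),
    ([0, 1, 1, 0, 2], .inr 2), ([0, 1, 1, 1, 1], .inr 2), ([0, 1, 2, 0, 2], .inr 1),
    ([0, 1, 1, 2, 0], .inr 1), ([0, 1, 1, 2, 1], .inr 2), ([0, 1, 2, 0, 1], .inr 0),
    ([0, 1, 2, 1, 2], .inr 2), ([0, 1, 2, 2, 2], .inr 1), ([0, 1, 2, 1, 0], .inr 0)]

def cert_comb00 : List (List (Fin 3) × (List (Fin 3) ⊕ Fin 3)) := [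
    ([0, 0, 0, 1, 0], .inl [1, 0, 2, 2, 2]), ([0, 0, 0, 1, 1], .inl [1, 0, 2, 2, 2]),
    ([0, 0, 1, 0, 0], .inl [1, 2, 2, 0, 1]), ([0, 0, 1, 0, 1], .inl [2, 1, 1, 0, 2]),
    ([0, 0, 1, 0, 2], .inl [1, 2, 2, 0, 1]), ([0, 0, 1, 1, 0], .inl [1, 0, 2, 2, 2]),
    ([0, 0, 1, 1, 1], .inl [1, 0, 2, 2, 2]), ([0, 0, 1, 1, 2], .inl [1, 2, 2, 0, 0]),
    ([0, 0, 1, 2, 0], .inl [1, 0, 2, 2, 1]), ([0, 0, 1, 2, 1], .inl [2, 1, 1, 0, 0]),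
    ([0, 0, 1, 2, 2], .inl [1, 0, 2, 2, 1]), ([0, 1, 0, 0, 0], .inl [0, 1, 2, 2, 2]),
    ([0, 1, 0, 0, 1], .inl [0, 1, 2, 2, 2]), ([0, 1, 0, 0, 2], .inl [0, 2, 2, 1, 1]),
    ([0, 1, 0, 1, 1], .inl [0, 2, 2, 1, 0]), ([0, 1, 0, 1, 2], .inl [0, 2, 2, 1, 0]),
    ([0, 1, 0, 2, 1], .inl [0, 1, 2, 2, 0]), ([0, 1, 0, 2, 2], .inl [0, 1, 2, 2, 0]),
    ([0, 1, 1, 0, 0], .inl [0, 1, 2, 2, 2]), ([0, 1, 1, 0, 1], .inl [0, 1, 2, 2, 2]),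
    ([0, 1, 1, 2, 1], .inl [0, 1, 2, 2, 0]), ([0, 1, 1, 2, 2], .inl [0, 1, 2, 2, 0]),
    ([0, 1, 2, 0, 0], .inl [0, 2, 2, 1, 1]), ([0, 1, 2, 0, 2], .inl [0, 2, 2, 1, 1]),
    ([0, 1, 2, 1, 1], .inl [0, 2, 2, 1, 0]), ([0, 1, 2, 1, 2], .inl [0, 2, 2, 1, 0]),
    ([0, 0, 0, 0, 0], .inr 1), ([0, 0, 0, 0, 1], .inr 2), ([0, 0, 0, 1, 2], .inr 1),
    ([0, 1, 0, 1, 0], .inr 2), ([0, 1, 0, 2, 0], .inr 1), ([0, 1, 1, 1, 0], .inr 2),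
    ([0, 1, 1, 1, 1], .inr 2), ([0, 1, 1, 2, 0], .inr 2), ([0, 1, 2, 2, 0], .inr 1),
    ([0, 1, 2, 2, 2], .inr 1), ([0, 1, 1, 0, 2], .inr 1), ([0, 1, 1, 1, 2], .inr 2),
    ([0, 1, 2, 1, 0], .inr 0), ([0, 1, 2, 2, 1], .inr 2), ([0, 1, 2, 0, 1], .inr 0)]

theorem kill_two : Kill twoC False := by
  have h := kill_of (C := twoC) (pl := false) (cert := cert_two) (by decide +kernel)
  simpa using h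

theorem kill_tri : Kill triC False := by
  have h := kill_of (C := triC) (pl := false) (cert := cert_tri) (by decide +kernel)
  simpa using h

theorem kill_sq : Kill sqC False := by
  have h := kill_of (C := sqC) (pl := false) (cert := cert_sq) (by decide +kernel)
  simpa using h

theorem kill_clsq : Kill clsqC False := by
  have h := kill_of (C := clsqC) (pl := false) (cert := cert_clsq) (by decide +kernel)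
  simpa using h

theorem kill_comb (a b : Bool) : Kill (combC a b) True := by
  have h : Kill (combC a b) (true = true) := by
    cases a <;> cases b
    · exact kill_of (cert := cert_comb00) (by decide +kernel)
    · exact kill_of (cert := cert_comb01) (by decide +kernel)
    · exact kill_of (cert := cert_comb10) (by decide +kernel)
    · exact kill_of (cert := cert_comb11) (by decide +kernel)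
  simpa using h

end Pool.Agent.Helper68.AV
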