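import Pool.Agent.Helper68.AV.Sound

/-!
# Project AV: certificates (claws)
-/

set_option autoImplicit false
set_option maxRecDepth 100000

namespace Pool.Agent.Helper68.AV

def cert_claw000 : List (List (Fin 3) × (List (Fin 3) ⊕ Fin 3)) := [
    ([0, 0, 0, 0, 1, 0], .inl [1, 2, 0, 2, 1, 2]), ([0, 0, 0, 0, 1, 1], .inl [1, 2, 0, 2, 1, 2]),
    ([0, 0, 0, 1, 1, 0], .inl [2, 1, 0, 1, 2, 2]), ([0, 0, 0, 1, 1, 1], .inl [2, 1, 0, 1, 2, 2]),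
    ([0, 0, 0, 1, 2, 0], .inl [2, 1, 0, 1, 2, 1]), ([0, 0, 0, 1, 2, 2], .inl [2, 1, 0, 1, 2, 1]),
    ([0, 0, 1, 0, 0, 0], .inl [1, 0, 2, 2, 2, 1]), ([0, 0, 1, 0, 0, 1], .inl [2, 0, 1, 1, 2, 2]),
    ([0, 0, 1, 0, 0, 2], .inl [1, 0, 2, 2, 2, 1]), ([0, 0, 1, 0, 1, 1], .inl [1, 0, 2, 2, 2, 0]),
    ([0, 0, 1, 0, 1, 2], .inl [1, 0, 2, 2, 2, 0]), ([0, 0, 1, 0, 2, 1], .inl [2, 0, 1, 1, 2, 0]),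
    ([0, 0, 1, 0, 2, 2], .inl [2, 0, 1, 1, 2, 0]), ([0, 0, 1, 1, 0, 0], .inl [1, 0, 2, 2, 2, 1]),
    ([0, 0, 1, 1, 0, 1], .inl [2, 0, 1, 1, 2, 2]), ([0, 0, 1, 1, 0, 2], .inl [1, 0, 2, 2, 2, 1]),
    ([0, 0, 1, 1, 1, 0], .inl [1, 2, 0, 2, 0, 2]), ([0, 0, 1, 1, 1, 1], .inl [1, 0, 2, 2, 2, 0]),
    ([0, 0, 1, 1, 1, 2], .inl [1, 0, 2, 2, 2, 0]), ([0, 0, 1, 1, 2, 0], .inl [1, 2, 0, 2, 0, 1]),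
    ([0, 0, 1, 1, 2, 1], .inl [2, 0, 1, 1, 2, 0]), ([0, 0, 1, 1, 2, 2], .inl [1, 2, 0, 2, 0, 1]),
    ([0, 0, 1, 2, 1, 0], .inl [1, 2, 0, 2, 0, 2]), ([0, 0, 1, 2, 1, 1], .inl [1, 2, 0, 2, 0, 2]),
    ([0, 0, 1, 2, 2, 0], .inl [1, 2, 0, 2, 0, 1]), ([0, 0, 1, 2, 2, 2], .inl [1, 2, 0, 2, 0, 1]),
    ([0, 1, 0, 0, 1, 0], .inl [1, 2, 0, 2, 1, 2]), ([0, 1, 0, 0, 1, 1], .inl [1, 2, 0, 2, 1, 2]),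
    ([0, 1, 0, 0, 2, 0], .inl [1, 2, 0, 2, 1, 1]), ([0, 1, 0, 0, 2, 2], .inl [1, 2, 0, 2, 1, 1]),
    ([0, 1, 0, 2, 1, 0], .inl [1, 2, 0, 2, 1, 2]), ([0, 1, 0, 2, 1, 1], .inl [1, 2, 0, 2, 1, 2]),
    ([0, 1, 0, 2, 2, 0], .inl [1, 2, 0, 2, 1, 1]), ([0, 1, 0, 2, 2, 2], .inl [1, 2, 0, 2, 1, 1]),
    ([0, 1, 1, 0, 0, 0], .inl [1, 0, 2, 2, 2, 1]), ([0, 1, 1, 0, 0, 2], .inl [1, 0, 2, 2, 2, 1]),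
    ([0, 1, 1, 0, 1, 1], .inl [1, 0, 2, 2, 2, 0]), ([0, 1, 1, 0, 1, 2], .inl [1, 0, 2, 2, 2, 0]),
    ([0, 1, 1, 1, 0, 0], .inl [1, 0, 2, 2, 2, 1]), ([0, 1, 1, 1, 0, 2], .inl [1, 0, 2, 2, 2, 1]),
    ([0, 1, 1, 1, 1, 0], .inl [1, 2, 0, 2, 0, 2]), ([0, 1, 1, 1, 1, 1], .inl [1, 0, 2, 2, 2, 0]),
    ([0, 1, 1, 1, 1, 2], .inl [1, 0, 2, 2, 2, 0]), ([0, 1, 1, 1, 2, 0], .inl [1, 2, 0, 2, 0, 1]),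
    ([0, 1, 1, 1, 2, 2], .inl [1, 2, 0, 2, 0, 1]), ([0, 1, 1, 2, 1, 0], .inl [1, 2, 0, 2, 0, 2]),
    ([0, 1, 1, 2, 1, 1], .inl [1, 2, 0, 2, 0, 2]), ([0, 1, 1, 2, 2, 0], .inl [1, 2, 0, 2, 0, 1]),
    ([0, 1, 1, 2, 2, 2], .inl [1, 2, 0, 2, 0, 1]), ([0, 1, 2, 0, 0, 0], .inl [1, 0, 2, 2, 1, 1]),
    ([0, 1, 2, 0, 0, 2], .inl [1, 0, 2, 2, 1, 1]), ([0, 1, 2, 0, 1, 1], .inl [1, 0, 2, 2, 1, 0]),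
    ([0, 1, 2, 0, 1, 2], .inl [1, 0, 2, 2, 1, 0]), ([0, 1, 2, 2, 0, 0], .inl [1, 0, 2, 2, 1, 1]),
    ([0, 1, 2, 2, 0, 2], .inl [1, 0, 2, 2, 1, 1]), ([0, 1, 2, 2, 1, 1], .inl [1, 0, 2, 2, 1, 0]),
    ([0, 1, 2, 2, 1, 2], .inl [1, 0, 2, 2, 1, 0]), ([0, 0, 0, 0, 0, 0], .inr 1),
    ([0, 0, 0, 0, 0, 1], .inr 2), ([0, 0, 0, 1, 0, 0], .inr 2), ([0, 0, 0, 1, 0, 1], .inr 2),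
    ([0, 0, 1, 0, 1, 0], .inr 2), ([0, 0, 1, 0, 2, 0], .inr 2), ([0, 0, 1, 2, 0, 2], .inr 1),
    ([0, 1, 0, 0, 0, 0], .inr 2), ([0, 1, 0, 0, 0, 1], .inr 2), ([0, 1, 0, 0, 2, 1], .inr 2),
    ([0, 1, 0, 1, 0, 0], .inr 2), ([0, 1, 0, 1, 1, 1], .inr 2), ([0, 1, 1, 1, 0, 1], .inr 2),
    ([0, 1, 1, 1, 2, 1], .inr 0), ([0, 1, 2, 1, 1, 1], .inr 2), ([0, 1, 2, 1, 2, 2], .inr 0),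
    ([0, 0, 0, 0, 1, 2], .inr 1), ([0, 0, 0, 1, 0, 2], .inr 1), ([0, 0, 0, 1, 1, 2], .inr 2),
    ([0, 0, 0, 1, 2, 1], .inr 2), ([0, 0, 1, 2, 0, 0], .inr 1), ([0, 0, 1, 2, 0, 1], .inr 0),
    ([0, 1, 0, 0, 0, 2], .inr 2), ([0, 1, 0, 0, 1, 2], .inr 0), ([0, 1, 0, 1, 1, 2], .inr 2),
    ([0, 1, 0, 2, 0, 0], .inr 1), ([0, 1, 1, 2, 0, 0], .inr 2), ([0, 1, 1, 2, 0, 1], .inr 2),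
    ([0, 1, 2, 0, 2, 0], .inr 1), ([0, 1, 2, 0, 2, 2], .inr 2), ([0, 1, 2, 1, 0, 0], .inr 2),
    ([0, 1, 2, 2, 2, 0], .inr 1), ([0, 1, 2, 2, 2, 1], .inr 0), ([0, 1, 2, 2, 2, 2], .inr 0),
    ([0, 0, 1, 2, 2, 1], .inr 1), ([0, 1, 0, 1, 0, 2], .inr 2), ([0, 1, 0, 1, 2, 1], .inr 0),
    ([0, 1, 0, 2, 0, 1], .inr 2), ([0, 1, 0, 2, 0, 2], .inr 1), ([0, 1, 0, 2, 1, 2], .inr 1),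
    ([0, 1, 1, 0, 2, 0], .inr 1), ([0, 1, 1, 0, 2, 1], .inr 0), ([0, 1, 1, 0, 2, 2], .inr 0),
    ([0, 1, 1, 2, 2, 1], .inr 2), ([0, 1, 2, 0, 1, 0], .inr 1), ([0, 1, 2, 0, 2, 1], .inr 0),
    ([0, 1, 2, 1, 0, 1], .inr 0), ([0, 1, 2, 1, 0, 2], .inr 2), ([0, 1, 2, 1, 1, 0], .inr 0),
    ([0, 1, 2, 1, 1, 2], .inr 2), ([0, 1, 2, 1, 2, 1], .inr 2), ([0, 1, 2, 2, 1, 0], .inr 1),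
    ([0, 0, 1, 2, 1, 2], .inr 0), ([0, 1, 0, 1, 0, 1], .inr 0), ([0, 1, 0, 1, 1, 0], .inr 1),
    ([0, 1, 0, 1, 2, 0], .inr 1), ([0, 1, 0, 1, 2, 2], .inr 2), ([0, 1, 0, 2, 2, 1], .inr 2),
    ([0, 1, 1, 0, 0, 1], .inr 1), ([0, 1, 1, 0, 1, 0], .inr 0), ([0, 1, 1, 2, 0, 2], .inr 1),
    ([0, 1, 1, 2, 1, 2], .inr 2), ([0, 1, 2, 0, 0, 1], .inr 2), ([0, 1, 2, 1, 2, 0], .inr 0),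
    ([0, 1, 2, 2, 0, 1], .inr 2)]

theorem chk_claw000 : chk (clawC false false false) true cert_claw000 = true := by decide +kernel

def cert_claw001 : List (List (Fin 3) × (List (Fin 3) ⊕ Fin 3)) := [
    ([0, 0, 0, 0, 0, 1], .inl [1, 2, 0, 2, 1, 2]), ([0, 0, 0, 0, 1, 1], .inl [1, 2, 0, 2, 1, 2]),
    ([0, 0, 0, 1, 0, 1], .inl [2, 1, 0, 1, 2, 2]), ([0, 0, 0, 1, 0, 2], .inl [2, 1, 0, 1, 2, 1]),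
    ([0, 0, 0, 1, 1, 1], .inl [2, 1, 0, 1, 2, 2]), ([0, 0, 0, 1, 2, 2], .inl [2, 1, 0, 1, 2, 1]),
    ([0, 0, 1, 0, 0, 0], .inl [1, 0, 2, 2, 2, 1]), ([0, 0, 1, 0, 1, 0], .inl [2, 0, 1, 1, 2, 2]),
    ([0, 0, 1, 0, 1, 1], .inl [1, 0, 2, 2, 2, 0]), ([0, 0, 1, 0, 1, 2], .inl [2, 0, 1, 1, 2, 0]),
    ([0, 0, 1, 0, 2, 0], .inl [1, 0, 2, 2, 2, 1]), ([0, 0, 1, 0, 2, 1], .inl [1, 0, 2, 2, 2, 0]),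
    ([0, 0, 1, 0, 2, 2], .inl [2, 0, 1, 1, 2, 0]), ([0, 0, 1, 1, 0, 0], .inl [1, 0, 2, 2, 2, 1]),
    ([0, 0, 1, 1, 0, 1], .inl [1, 2, 0, 2, 0, 2]), ([0, 0, 1, 1, 0, 2], .inl [1, 2, 0, 2, 0, 1]),
    ([0, 0, 1, 1, 1, 0], .inl [2, 0, 1, 1, 2, 2]), ([0, 0, 1, 1, 1, 1], .inl [1, 0, 2, 2, 2, 0]),
    ([0, 0, 1, 1, 1, 2], .inl [2, 0, 1, 1, 2, 0]), ([0, 0, 1, 1, 2, 0], .inl [1, 0, 2, 2, 2, 1]),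
    ([0, 0, 1, 1, 2, 1], .inl [1, 0, 2, 2, 2, 0]), ([0, 0, 1, 1, 2, 2], .inl [1, 2, 0, 2, 0, 1]),
    ([0, 0, 1, 2, 0, 1], .inl [1, 2, 0, 2, 0, 2]), ([0, 0, 1, 2, 0, 2], .inl [1, 2, 0, 2, 0, 1]),
    ([0, 0, 1, 2, 1, 1], .inl [1, 2, 0, 2, 0, 2]), ([0, 0, 1, 2, 2, 2], .inl [1, 2, 0, 2, 0, 1]),
    ([0, 1, 0, 0, 0, 1], .inl [1, 2, 0, 2, 1, 2]), ([0, 1, 0, 0, 0, 2], .inl [1, 2, 0, 2, 1, 1]),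
    ([0, 1, 0, 0, 1, 1], .inl [1, 2, 0, 2, 1, 2]), ([0, 1, 0, 0, 2, 2], .inl [1, 2, 0, 2, 1, 1]),
    ([0, 1, 0, 2, 0, 1], .inl [1, 2, 0, 2, 1, 2]), ([0, 1, 0, 2, 0, 2], .inl [1, 2, 0, 2, 1, 1]),
    ([0, 1, 0, 2, 1, 1], .inl [1, 2, 0, 2, 1, 2]), ([0, 1, 0, 2, 2, 2], .inl [1, 2, 0, 2, 1, 1]),
    ([0, 1, 1, 0, 0, 0], .inl [1, 0, 2, 2, 2, 1]), ([0, 1, 1, 0, 1, 1], .inl [1, 0, 2, 2, 2, 0]),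
    ([0, 1, 1, 0, 2, 0], .inl [1, 0, 2, 2, 2, 1]), ([0, 1, 1, 0, 2, 1], .inl [1, 0, 2, 2, 2, 0]),
    ([0, 1, 1, 1, 0, 0], .inl [1, 0, 2, 2, 2, 1]), ([0, 1, 1, 1, 0, 1], .inl [1, 2, 0, 2, 0, 2]),
    ([0, 1, 1, 1, 0, 2], .inl [1, 2, 0, 2, 0, 1]), ([0, 1, 1, 1, 1, 1], .inl [1, 0, 2, 2, 2, 0]),
    ([0, 1, 1, 1, 2, 0], .inl [1, 0, 2, 2, 2, 1]), ([0, 1, 1, 1, 2, 1], .inl [1, 0, 2, 2, 2, 0]),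
    ([0, 1, 1, 1, 2, 2], .inl [1, 2, 0, 2, 0, 1]), ([0, 1, 1, 2, 0, 1], .inl [1, 2, 0, 2, 0, 2]),
    ([0, 1, 1, 2, 0, 2], .inl [1, 2, 0, 2, 0, 1]), ([0, 1, 1, 2, 1, 1], .inl [1, 2, 0, 2, 0, 2]),
    ([0, 1, 1, 2, 2, 2], .inl [1, 2, 0, 2, 0, 1]), ([0, 1, 2, 0, 0, 0], .inl [1, 0, 2, 2, 1, 1]),
    ([0, 1, 2, 0, 1, 1], .inl [1, 0, 2, 2, 1, 0]), ([0, 1, 2, 0, 2, 0], .inl [1, 0, 2, 2, 1, 1]),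
    ([0, 1, 2, 0, 2, 1], .inl [1, 0, 2, 2, 1, 0]), ([0, 1, 2, 2, 0, 0], .inl [1, 0, 2, 2, 1, 1]),
    ([0, 1, 2, 2, 1, 1], .inl [1, 0, 2, 2, 1, 0]), ([0, 1, 2, 2, 2, 0], .inl [1, 0, 2, 2, 1, 1]),
    ([0, 1, 2, 2, 2, 1], .inl [1, 0, 2, 2, 1, 0]), ([0, 0, 0, 0, 0, 0], .inr 1),
    ([0, 0, 0, 0, 1, 0], .inr 2), ([0, 0, 0, 1, 0, 0], .inr 2), ([0, 0, 0, 1, 1, 0], .inr 2),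
    ([0, 0, 1, 0, 0, 1], .inr 2), ([0, 0, 1, 0, 0, 2], .inr 1), ([0, 0, 1, 2, 0, 0], .inr 1),
    ([0, 0, 1, 2, 2, 0], .inr 1), ([0, 1, 0, 0, 0, 0], .inr 2), ([0, 1, 0, 0, 1, 0], .inr 2),
    ([0, 1, 0, 0, 1, 2], .inr 2), ([0, 1, 0, 1, 0, 0], .inr 2), ([0, 1, 0, 1, 1, 1], .inr 2),
    ([0, 1, 1, 1, 1, 0], .inr 2), ([0, 1, 2, 1, 0, 0], .inr 2), ([0, 1, 2, 1, 1, 1], .inr 2),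
    ([0, 0, 0, 1, 2, 1], .inr 2), ([0, 0, 1, 2, 1, 0], .inr 0), ([0, 1, 0, 0, 2, 0], .inr 2),
    ([0, 1, 0, 0, 2, 1], .inr 0), ([0, 1, 0, 1, 2, 1], .inr 2), ([0, 1, 0, 2, 1, 0], .inr 2),
    ([0, 1, 0, 2, 2, 0], .inr 1), ([0, 1, 1, 2, 0, 0], .inr 0), ([0, 1, 1, 2, 1, 0], .inr 2),
    ([0, 1, 2, 0, 0, 2], .inr 1), ([0, 1, 2, 2, 1, 2], .inr 0), ([0, 1, 2, 2, 2, 2], .inr 1),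
    ([0, 0, 0, 0, 1, 2], .inr 1), ([0, 0, 0, 1, 1, 2], .inr 0), ([0, 0, 0, 1, 2, 0], .inr 1),
    ([0, 0, 1, 2, 1, 2], .inr 1), ([0, 1, 0, 1, 1, 2], .inr 0), ([0, 1, 0, 1, 2, 0], .inr 2),
    ([0, 1, 0, 2, 0, 0], .inr 2), ([0, 1, 0, 2, 2, 1], .inr 1), ([0, 1, 1, 0, 0, 2], .inr 1),
    ([0, 1, 1, 0, 2, 2], .inr 1), ([0, 1, 1, 1, 1, 2], .inr 0), ([0, 1, 1, 2, 1, 2], .inr 2),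
    ([0, 1, 1, 2, 2, 0], .inr 1), ([0, 1, 2, 0, 0, 1], .inr 1), ([0, 1, 2, 0, 1, 0], .inr 1),
    ([0, 1, 2, 0, 2, 2], .inr 1), ([0, 1, 2, 1, 1, 0], .inr 0), ([0, 1, 2, 1, 1, 2], .inr 2),
    ([0, 1, 2, 1, 2, 0], .inr 2), ([0, 1, 2, 1, 2, 1], .inr 2), ([0, 1, 2, 1, 2, 2], .inr 0),
    ([0, 1, 2, 2, 0, 1], .inr 1), ([0, 1, 2, 2, 0, 2], .inr 2), ([0, 0, 1, 2, 2, 1], .inr 0),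
    ([0, 1, 0, 1, 0, 2], .inr 1), ([0, 1, 0, 1, 1, 0], .inr 0), ([0, 1, 0, 1, 2, 2], .inr 2),
    ([0, 1, 0, 2, 1, 2], .inr 2), ([0, 1, 1, 0, 0, 1], .inr 0), ([0, 1, 1, 0, 1, 0], .inr 0),
    ([0, 1, 1, 0, 1, 2], .inr 0), ([0, 1, 1, 2, 2, 1], .inr 2), ([0, 1, 2, 0, 1, 2], .inr 0),
    ([0, 1, 2, 1, 0, 1], .inr 0), ([0, 1, 2, 1, 0, 2], .inr 0), ([0, 1, 2, 2, 1, 0], .inr 0),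
    ([0, 1, 0, 1, 0, 1], .inr 0)]

theorem chk_claw001 : chk (clawC false false true) true cert_claw001 = true := by decide +kernel

def cert_claw010 : List (List (Fin 3) × (List (Fin 3) ⊕ Fin 3)) := [
    ([0, 0, 0, 0, 1, 0], .inl [1, 2, 0, 2, 1, 2]), ([0, 0, 0, 0, 1, 1], .inl [1, 2, 0, 2, 1, 2]),
    ([0, 0, 0, 1, 0, 0], .inl [1, 0, 2, 2, 2, 1]), ([0, 0, 0, 1, 0, 1], .inl [2, 0, 1, 1, 2, 2]),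
    ([0, 0, 0, 1, 0, 2], .inl [1, 0, 2, 2, 2, 1]), ([0, 0, 0, 1, 1, 1], .inl [1, 0, 2, 2, 2, 0]),
    ([0, 0, 0, 1, 1, 2], .inl [1, 0, 2, 2, 2, 0]), ([0, 0, 0, 1, 2, 1], .inl [2, 0, 1, 1, 2, 0]),
    ([0, 0, 0, 1, 2, 2], .inl [2, 0, 1, 1, 2, 0]), ([0, 0, 1, 0, 1, 0], .inl [2, 1, 0, 1, 2, 2]),
    ([0, 0, 1, 0, 1, 1], .inl [2, 1, 0, 1, 2, 2]), ([0, 0, 1, 0, 2, 0], .inl [2, 1, 0, 1, 2, 1]),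
    ([0, 0, 1, 0, 2, 2], .inl [2, 1, 0, 1, 2, 1]), ([0, 0, 1, 1, 0, 0], .inl [1, 0, 2, 2, 2, 1]),
    ([0, 0, 1, 1, 0, 1], .inl [2, 0, 1, 1, 2, 2]), ([0, 0, 1, 1, 0, 2], .inl [1, 0, 2, 2, 2, 1]),
    ([0, 0, 1, 1, 1, 0], .inl [1, 2, 0, 2, 0, 2]), ([0, 0, 1, 1, 1, 1], .inl [1, 0, 2, 2, 2, 0]),
    ([0, 0, 1, 1, 1, 2], .inl [1, 0, 2, 2, 2, 0]), ([0, 0, 1, 1, 2, 0], .inl [1, 2, 0, 2, 0, 1]),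
    ([0, 0, 1, 1, 2, 1], .inl [2, 0, 1, 1, 2, 0]), ([0, 0, 1, 1, 2, 2], .inl [1, 2, 0, 2, 0, 1]),
    ([0, 0, 1, 2, 1, 0], .inl [2, 1, 0, 1, 0, 2]), ([0, 0, 1, 2, 1, 1], .inl [2, 1, 0, 1, 0, 2]),
    ([0, 0, 1, 2, 2, 0], .inl [2, 1, 0, 1, 0, 1]), ([0, 0, 1, 2, 2, 2], .inl [2, 1, 0, 1, 0, 1]),
    ([0, 1, 0, 0, 1, 0], .inl [1, 2, 0, 2, 1, 2]), ([0, 1, 0, 0, 1, 1], .inl [1, 2, 0, 2, 1, 2]),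
    ([0, 1, 0, 0, 2, 0], .inl [1, 2, 0, 2, 1, 1]), ([0, 1, 0, 0, 2, 2], .inl [1, 2, 0, 2, 1, 1]),
    ([0, 1, 0, 1, 0, 0], .inl [1, 0, 2, 2, 2, 1]), ([0, 1, 0, 1, 0, 2], .inl [1, 0, 2, 2, 2, 1]),
    ([0, 1, 0, 1, 1, 1], .inl [1, 0, 2, 2, 2, 0]), ([0, 1, 0, 1, 1, 2], .inl [1, 0, 2, 2, 2, 0]),
    ([0, 1, 0, 2, 0, 0], .inl [1, 0, 2, 2, 1, 1]), ([0, 1, 0, 2, 0, 2], .inl [1, 0, 2, 2, 1, 1]),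
    ([0, 1, 0, 2, 1, 1], .inl [1, 0, 2, 2, 1, 0]), ([0, 1, 0, 2, 1, 2], .inl [1, 0, 2, 2, 1, 0]),
    ([0, 1, 1, 1, 0, 0], .inl [1, 0, 2, 2, 2, 1]), ([0, 1, 1, 1, 0, 2], .inl [1, 0, 2, 2, 2, 1]),
    ([0, 1, 1, 1, 1, 0], .inl [1, 2, 0, 2, 0, 2]), ([0, 1, 1, 1, 1, 1], .inl [1, 0, 2, 2, 2, 0]),
    ([0, 1, 1, 1, 1, 2], .inl [1, 0, 2, 2, 2, 0]), ([0, 1, 1, 1, 2, 0], .inl [1, 2, 0, 2, 0, 1]),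
    ([0, 1, 1, 1, 2, 2], .inl [1, 2, 0, 2, 0, 1]), ([0, 1, 2, 0, 1, 0], .inl [1, 2, 0, 2, 1, 2]),
    ([0, 1, 2, 0, 1, 1], .inl [1, 2, 0, 2, 1, 2]), ([0, 1, 2, 0, 2, 0], .inl [1, 2, 0, 2, 1, 1]),
    ([0, 1, 2, 0, 2, 2], .inl [1, 2, 0, 2, 1, 1]), ([0, 1, 2, 1, 1, 0], .inl [1, 2, 0, 2, 0, 2]),
    ([0, 1, 2, 1, 1, 1], .inl [1, 2, 0, 2, 0, 2]), ([0, 1, 2, 1, 2, 0], .inl [1, 2, 0, 2, 0, 1]),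
    ([0, 1, 2, 1, 2, 2], .inl [1, 2, 0, 2, 0, 1]), ([0, 1, 2, 2, 0, 0], .inl [1, 0, 2, 2, 1, 1]),
    ([0, 1, 2, 2, 0, 2], .inl [1, 0, 2, 2, 1, 1]), ([0, 1, 2, 2, 1, 1], .inl [1, 0, 2, 2, 1, 0]),
    ([0, 1, 2, 2, 1, 2], .inl [1, 0, 2, 2, 1, 0]), ([0, 0, 0, 0, 0, 0], .inr 1),
    ([0, 0, 0, 0, 0, 1], .inr 2), ([0, 0, 0, 1, 1, 0], .inr 2), ([0, 0, 1, 0, 0, 0], .inr 2),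
    ([0, 0, 1, 0, 0, 1], .inr 2), ([0, 0, 1, 2, 0, 1], .inr 2), ([0, 1, 0, 0, 0, 0], .inr 2),
    ([0, 1, 0, 0, 0, 1], .inr 2), ([0, 1, 1, 0, 0, 0], .inr 2), ([0, 1, 1, 0, 1, 1], .inr 2),
    ([0, 1, 1, 1, 0, 1], .inr 2), ([0, 1, 1, 1, 2, 1], .inr 0), ([0, 1, 1, 2, 1, 1], .inr 2),
    ([0, 1, 1, 2, 2, 2], .inr 0), ([0, 1, 2, 2, 2, 1], .inr 0), ([0, 1, 2, 2, 2, 2], .inr 0),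
    ([0, 0, 0, 0, 1, 2], .inr 2), ([0, 0, 1, 0, 0, 2], .inr 1), ([0, 0, 1, 0, 2, 1], .inr 2),
    ([0, 0, 1, 2, 0, 2], .inr 0), ([0, 1, 0, 2, 2, 0], .inr 1), ([0, 1, 0, 2, 2, 2], .inr 2),
    ([0, 1, 1, 0, 0, 2], .inr 2), ([0, 1, 1, 0, 1, 2], .inr 2), ([0, 1, 2, 0, 0, 2], .inr 1),
    ([0, 1, 2, 1, 0, 0], .inr 2), ([0, 1, 2, 1, 0, 1], .inr 2), ([0, 1, 2, 2, 2, 0], .inr 2),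
    ([0, 0, 0, 1, 2, 0], .inr 2), ([0, 0, 1, 0, 1, 2], .inr 0), ([0, 0, 1, 2, 0, 0], .inr 1),
    ([0, 0, 1, 2, 1, 2], .inr 2), ([0, 1, 0, 0, 0, 2], .inr 1), ([0, 1, 0, 0, 1, 2], .inr 2),
    ([0, 1, 0, 0, 2, 1], .inr 2), ([0, 1, 0, 1, 2, 0], .inr 1), ([0, 1, 0, 1, 2, 1], .inr 0),
    ([0, 1, 0, 1, 2, 2], .inr 0), ([0, 1, 0, 2, 2, 1], .inr 0), ([0, 1, 1, 0, 2, 1], .inr 0),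
    ([0, 1, 1, 2, 0, 0], .inr 0), ([0, 1, 1, 2, 0, 1], .inr 0), ([0, 1, 1, 2, 0, 2], .inr 2),
    ([0, 1, 1, 2, 1, 0], .inr 0), ([0, 1, 1, 2, 1, 2], .inr 2), ([0, 1, 1, 2, 2, 0], .inr 0),
    ([0, 1, 1, 2, 2, 1], .inr 2), ([0, 1, 2, 0, 0, 0], .inr 1), ([0, 1, 2, 0, 0, 1], .inr 2),
    ([0, 1, 2, 1, 1, 2], .inr 2), ([0, 1, 2, 2, 1, 0], .inr 0), ([0, 0, 1, 2, 2, 1], .inr 0),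
    ([0, 1, 0, 1, 1, 0], .inr 1), ([0, 1, 0, 2, 0, 1], .inr 2), ([0, 1, 0, 2, 1, 0], .inr 2),
    ([0, 1, 1, 0, 0, 1], .inr 0), ([0, 1, 1, 0, 1, 0], .inr 1), ([0, 1, 1, 0, 2, 0], .inr 1),
    ([0, 1, 1, 0, 2, 2], .inr 1), ([0, 1, 2, 0, 1, 2], .inr 1), ([0, 1, 2, 0, 2, 1], .inr 2),
    ([0, 1, 2, 1, 0, 2], .inr 1), ([0, 1, 2, 1, 2, 1], .inr 2), ([0, 1, 2, 2, 0, 1], .inr 2),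
    ([0, 1, 0, 1, 0, 1], .inr 0)]

theorem chk_claw010 : chk (clawC false true false) true cert_claw010 = true := by decide +kernel

def cert_claw011 : List (List (Fin 3) × (List (Fin 3) ⊕ Fin 3)) := [
    ([0, 0, 0, 0, 0, 1], .inl [1, 2, 0, 2, 1, 2]), ([0, 0, 0, 0, 1, 1], .inl [1, 2, 0, 2, 1, 2]),
    ([0, 0, 0, 1, 0, 0], .inl [1, 0, 2, 2, 2, 1]), ([0, 0, 0, 1, 1, 0], .inl [2, 0, 1, 1, 2, 2]),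
    ([0, 0, 0, 1, 1, 1], .inl [1, 0, 2, 2, 2, 0]), ([0, 0, 0, 1, 1, 2], .inl [2, 0, 1, 1, 2, 0]),
    ([0, 0, 0, 1, 2, 0], .inl [1, 0, 2, 2, 2, 1]), ([0, 0, 0, 1, 2, 1], .inl [1, 0, 2, 2, 2, 0]),
    ([0, 0, 0, 1, 2, 2], .inl [2, 0, 1, 1, 2, 0]), ([0, 0, 1, 0, 0, 1], .inl [2, 1, 0, 1, 2, 2]),
    ([0, 0, 1, 0, 0, 2], .inl [2, 1, 0, 1, 2, 1]), ([0, 0, 1, 0, 1, 1], .inl [2, 1, 0, 1, 2, 2]),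
    ([0, 0, 1, 0, 2, 2], .inl [2, 1, 0, 1, 2, 1]), ([0, 0, 1, 1, 0, 0], .inl [1, 0, 2, 2, 2, 1]),
    ([0, 0, 1, 1, 0, 1], .inl [1, 2, 0, 2, 0, 2]), ([0, 0, 1, 1, 0, 2], .inl [1, 2, 0, 2, 0, 1]),
    ([0, 0, 1, 1, 1, 0], .inl [2, 0, 1, 1, 2, 2]), ([0, 0, 1, 1, 1, 1], .inl [1, 0, 2, 2, 2, 0]),
    ([0, 0, 1, 1, 1, 2], .inl [2, 0, 1, 1, 2, 0]), ([0, 0, 1, 1, 2, 0], .inl [1, 0, 2, 2, 2, 1]),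
    ([0, 0, 1, 1, 2, 1], .inl [1, 0, 2, 2, 2, 0]), ([0, 0, 1, 1, 2, 2], .inl [1, 2, 0, 2, 0, 1]),
    ([0, 0, 1, 2, 0, 1], .inl [2, 1, 0, 1, 0, 2]), ([0, 0, 1, 2, 0, 2], .inl [2, 1, 0, 1, 0, 1]),
    ([0, 0, 1, 2, 1, 1], .inl [2, 1, 0, 1, 0, 2]), ([0, 0, 1, 2, 2, 2], .inl [2, 1, 0, 1, 0, 1]),
    ([0, 1, 0, 0, 0, 1], .inl [1, 2, 0, 2, 1, 2]), ([0, 1, 0, 0, 0, 2], .inl [1, 2, 0, 2, 1, 1]),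
    ([0, 1, 0, 0, 1, 1], .inl [1, 2, 0, 2, 1, 2]), ([0, 1, 0, 0, 2, 2], .inl [1, 2, 0, 2, 1, 1]),
    ([0, 1, 0, 1, 0, 0], .inl [1, 0, 2, 2, 2, 1]), ([0, 1, 0, 1, 1, 1], .inl [1, 0, 2, 2, 2, 0]),
    ([0, 1, 0, 1, 2, 0], .inl [1, 0, 2, 2, 2, 1]), ([0, 1, 0, 1, 2, 1], .inl [1, 0, 2, 2, 2, 0]),
    ([0, 1, 0, 2, 0, 0], .inl [1, 0, 2, 2, 1, 1]), ([0, 1, 0, 2, 1, 1], .inl [1, 0, 2, 2, 1, 0]),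
    ([0, 1, 0, 2, 2, 0], .inl [1, 0, 2, 2, 1, 1]), ([0, 1, 0, 2, 2, 1], .inl [1, 0, 2, 2, 1, 0]),
    ([0, 1, 1, 1, 0, 0], .inl [1, 0, 2, 2, 2, 1]), ([0, 1, 1, 1, 0, 1], .inl [1, 2, 0, 2, 0, 2]),
    ([0, 1, 1, 1, 0, 2], .inl [1, 2, 0, 2, 0, 1]), ([0, 1, 1, 1, 1, 1], .inl [1, 0, 2, 2, 2, 0]),
    ([0, 1, 1, 1, 2, 0], .inl [1, 0, 2, 2, 2, 1]), ([0, 1, 1, 1, 2, 1], .inl [1, 0, 2, 2, 2, 0]),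
    ([0, 1, 1, 1, 2, 2], .inl [1, 2, 0, 2, 0, 1]), ([0, 1, 2, 0, 0, 1], .inl [1, 2, 0, 2, 1, 2]),
    ([0, 1, 2, 0, 0, 2], .inl [1, 2, 0, 2, 1, 1]), ([0, 1, 2, 0, 1, 1], .inl [1, 2, 0, 2, 1, 2]),
    ([0, 1, 2, 0, 2, 2], .inl [1, 2, 0, 2, 1, 1]), ([0, 1, 2, 1, 0, 1], .inl [1, 2, 0, 2, 0, 2]),
    ([0, 1, 2, 1, 0, 2], .inl [1, 2, 0, 2, 0, 1]), ([0, 1, 2, 1, 1, 1], .inl [1, 2, 0, 2, 0, 2]),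
    ([0, 1, 2, 1, 2, 2], .inl [1, 2, 0, 2, 0, 1]), ([0, 1, 2, 2, 0, 0], .inl [1, 0, 2, 2, 1, 1]),
    ([0, 1, 2, 2, 1, 1], .inl [1, 0, 2, 2, 1, 0]), ([0, 1, 2, 2, 2, 0], .inl [1, 0, 2, 2, 1, 1]),
    ([0, 1, 2, 2, 2, 1], .inl [1, 0, 2, 2, 1, 0]), ([0, 0, 0, 0, 0, 0], .inr 1),
    ([0, 0, 0, 0, 1, 0], .inr 2), ([0, 0, 0, 1, 0, 1], .inr 2), ([0, 0, 0, 1, 0, 2], .inr 1),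
    ([0, 0, 1, 0, 0, 0], .inr 2), ([0, 0, 1, 0, 1, 0], .inr 2), ([0, 0, 1, 2, 0, 0], .inr 2),
    ([0, 0, 1, 2, 1, 0], .inr 2), ([0, 1, 0, 0, 0, 0], .inr 2), ([0, 1, 0, 0, 1, 0], .inr 2),
    ([0, 1, 1, 0, 0, 0], .inr 2), ([0, 1, 1, 0, 1, 1], .inr 2), ([0, 1, 1, 1, 1, 0], .inr 2),
    ([0, 1, 1, 2, 0, 0], .inr 2), ([0, 1, 1, 2, 1, 1], .inr 2), ([0, 1, 2, 2, 1, 2], .inr 0),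
    ([0, 0, 0, 0, 1, 2], .inr 1), ([0, 0, 1, 2, 2, 0], .inr 0), ([0, 1, 0, 0, 1, 2], .inr 2),
    ([0, 1, 0, 0, 2, 0], .inr 1), ([0, 1, 0, 2, 0, 2], .inr 1), ([0, 1, 0, 2, 2, 2], .inr 1),
    ([0, 1, 1, 0, 2, 0], .inr 2), ([0, 1, 1, 0, 2, 1], .inr 2), ([0, 1, 2, 0, 1, 0], .inr 2),
    ([0, 1, 2, 1, 0, 0], .inr 0), ([0, 1, 2, 1, 1, 0], .inr 2), ([0, 1, 2, 2, 0, 2], .inr 2),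
    ([0, 0, 1, 0, 1, 2], .inr 2), ([0, 0, 1, 0, 2, 0], .inr 1), ([0, 0, 1, 0, 2, 1], .inr 2),
    ([0, 0, 1, 2, 2, 1], .inr 2), ([0, 1, 0, 0, 2, 1], .inr 0), ([0, 1, 0, 1, 0, 2], .inr 1),
    ([0, 1, 0, 1, 1, 2], .inr 0), ([0, 1, 0, 1, 2, 2], .inr 1), ([0, 1, 0, 2, 1, 0], .inr 1),
    ([0, 1, 1, 0, 1, 2], .inr 0), ([0, 1, 1, 1, 1, 2], .inr 2), ([0, 1, 1, 2, 0, 1], .inr 0),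
    ([0, 1, 1, 2, 0, 2], .inr 0), ([0, 1, 1, 2, 1, 0], .inr 0), ([0, 1, 1, 2, 1, 2], .inr 2),
    ([0, 1, 1, 2, 2, 0], .inr 2), ([0, 1, 1, 2, 2, 1], .inr 2), ([0, 1, 1, 2, 2, 2], .inr 2),
    ([0, 1, 2, 0, 0, 0], .inr 2), ([0, 1, 2, 0, 2, 0], .inr 1), ([0, 1, 2, 1, 2, 0], .inr 1),
    ([0, 1, 2, 2, 0, 1], .inr 0), ([0, 1, 2, 2, 2, 2], .inr 1), ([0, 0, 1, 2, 1, 2], .inr 0),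
    ([0, 1, 0, 1, 1, 0], .inr 0), ([0, 1, 0, 2, 0, 1], .inr 2), ([0, 1, 0, 2, 1, 2], .inr 0),
    ([0, 1, 1, 0, 0, 1], .inr 1), ([0, 1, 1, 0, 0, 2], .inr 1), ([0, 1, 1, 0, 1, 0], .inr 0),
    ([0, 1, 1, 0, 2, 2], .inr 1), ([0, 1, 2, 0, 1, 2], .inr 2), ([0, 1, 2, 0, 2, 1], .inr 1),
    ([0, 1, 2, 1, 1, 2], .inr 2), ([0, 1, 2, 1, 2, 1], .inr 2), ([0, 1, 2, 2, 1, 0], .inr 0),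
    ([0, 1, 0, 1, 0, 1], .inr 0)]

theorem chk_claw011 : chk (clawC false true true) true cert_claw011 = true := by decide +kernel

def cert_claw100 : List (List (Fin 3) × (List (Fin 3) ⊕ Fin 3)) := [
    ([0, 0, 0, 0, 1, 0], .inl [1, 2, 0, 2, 1, 2]), ([0, 0, 0, 0, 1, 1], .inl [1, 2, 0, 2, 1, 2]),
    ([0, 0, 0, 1, 1, 0], .inl [2, 1, 0, 1, 2, 2]), ([0, 0, 0, 1, 1, 1], .inl [2, 1, 0, 1, 2, 2]),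
    ([0, 0, 0, 1, 2, 0], .inl [2, 1, 0, 1, 2, 1]), ([0, 0, 0, 1, 2, 2], .inl [2, 1, 0, 1, 2, 1]),
    ([0, 0, 1, 0, 0, 0], .inl [1, 0, 2, 2, 2, 1]), ([0, 0, 1, 0, 0, 1], .inl [2, 0, 1, 1, 2, 2]),
    ([0, 0, 1, 0, 0, 2], .inl [1, 0, 2, 2, 2, 1]), ([0, 0, 1, 0, 1, 1], .inl [1, 0, 2, 2, 2, 0]),
    ([0, 0, 1, 0, 1, 2], .inl [1, 0, 2, 2, 2, 0]), ([0, 0, 1, 0, 2, 1], .inl [2, 0, 1, 1, 2, 0]),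
    ([0, 0, 1, 0, 2, 2], .inl [2, 0, 1, 1, 2, 0]), ([0, 0, 1, 1, 0, 0], .inl [1, 0, 2, 2, 2, 1]),
    ([0, 0, 1, 1, 0, 1], .inl [2, 0, 1, 1, 2, 2]), ([0, 0, 1, 1, 0, 2], .inl [1, 0, 2, 2, 2, 1]),
    ([0, 0, 1, 1, 1, 0], .inl [1, 2, 0, 2, 0, 2]), ([0, 0, 1, 1, 1, 1], .inl [1, 0, 2, 2, 2, 0]),
    ([0, 0, 1, 1, 1, 2], .inl [1, 0, 2, 2, 2, 0]), ([0, 0, 1, 1, 2, 0], .inl [1, 2, 0, 2, 0, 1]),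
    ([0, 0, 1, 1, 2, 1], .inl [2, 0, 1, 1, 2, 0]), ([0, 0, 1, 1, 2, 2], .inl [1, 2, 0, 2, 0, 1]),
    ([0, 0, 1, 2, 1, 0], .inl [1, 2, 0, 2, 0, 2]), ([0, 0, 1, 2, 1, 1], .inl [1, 2, 0, 2, 0, 2]),
    ([0, 0, 1, 2, 2, 0], .inl [1, 2, 0, 2, 0, 1]), ([0, 0, 1, 2, 2, 2], .inl [1, 2, 0, 2, 0, 1]),
    ([0, 1, 0, 0, 0, 0], .inl [0, 1, 2, 2, 2, 1]), ([0, 1, 0, 0, 0, 1], .inl [0, 2, 1, 2, 1, 2]),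
    ([0, 1, 0, 0, 0, 2], .inl [0, 1, 2, 2, 2, 1]), ([0, 1, 0, 0, 1, 1], .inl [0, 1, 2, 2, 2, 0]),
    ([0, 1, 0, 0, 1, 2], .inl [0, 1, 2, 2, 2, 0]), ([0, 1, 0, 0, 2, 1], .inl [0, 2, 1, 2, 1, 0]),
    ([0, 1, 0, 0, 2, 2], .inl [0, 2, 1, 2, 1, 0]), ([0, 1, 0, 1, 0, 0], .inl [0, 1, 2, 2, 2, 1]),
    ([0, 1, 0, 1, 0, 2], .inl [0, 1, 2, 2, 2, 1]), ([0, 1, 0, 1, 1, 1], .inl [0, 1, 2, 2, 2, 0]),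
    ([0, 1, 0, 1, 1, 2], .inl [0, 1, 2, 2, 2, 0]), ([0, 1, 0, 2, 0, 0], .inl [0, 2, 1, 2, 1, 2]),
    ([0, 1, 0, 2, 0, 1], .inl [0, 2, 1, 2, 1, 2]), ([0, 1, 0, 2, 2, 1], .inl [0, 2, 1, 2, 1, 0]),
    ([0, 1, 0, 2, 2, 2], .inl [0, 2, 1, 2, 1, 0]), ([0, 1, 1, 1, 0, 0], .inl [0, 2, 1, 2, 0, 2]),
    ([0, 1, 1, 1, 0, 1], .inl [0, 2, 1, 2, 0, 2]), ([0, 1, 1, 1, 2, 1], .inl [0, 2, 1, 2, 0, 0]),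
    ([0, 1, 1, 1, 2, 2], .inl [0, 2, 1, 2, 0, 0]), ([0, 1, 1, 2, 0, 0], .inl [0, 2, 1, 2, 0, 2]),
    ([0, 1, 1, 2, 0, 1], .inl [0, 2, 1, 2, 0, 2]), ([0, 1, 1, 2, 2, 1], .inl [0, 2, 1, 2, 0, 0]),
    ([0, 1, 1, 2, 2, 2], .inl [0, 2, 1, 2, 0, 0]), ([0, 1, 2, 1, 0, 0], .inl [0, 1, 2, 2, 0, 1]),
    ([0, 1, 2, 1, 0, 2], .inl [0, 1, 2, 2, 0, 1]), ([0, 1, 2, 1, 1, 1], .inl [0, 1, 2, 2, 0, 0]),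
    ([0, 1, 2, 1, 1, 2], .inl [0, 1, 2, 2, 0, 0]), ([0, 1, 2, 2, 0, 0], .inl [0, 1, 2, 2, 0, 1]),
    ([0, 1, 2, 2, 0, 2], .inl [0, 1, 2, 2, 0, 1]), ([0, 1, 2, 2, 1, 1], .inl [0, 1, 2, 2, 0, 0]),
    ([0, 1, 2, 2, 1, 2], .inl [0, 1, 2, 2, 0, 0]), ([0, 0, 0, 0, 0, 0], .inr 1),
    ([0, 0, 0, 0, 0, 1], .inr 2), ([0, 0, 0, 0, 1, 2], .inr 1), ([0, 0, 0, 1, 0, 0], .inr 2),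
    ([0, 0, 0, 1, 0, 1], .inr 2), ([0, 0, 0, 1, 2, 1], .inr 2), ([0, 0, 1, 0, 1, 0], .inr 2),
    ([0, 0, 1, 0, 2, 0], .inr 2), ([0, 1, 0, 0, 1, 0], .inr 2), ([0, 1, 0, 0, 2, 0], .inr 2),
    ([0, 1, 1, 0, 0, 0], .inr 2), ([0, 1, 1, 0, 1, 1], .inr 2), ([0, 1, 1, 1, 1, 0], .inr 2),
    ([0, 1, 1, 1, 1, 1], .inr 2), ([0, 1, 1, 1, 2, 0], .inr 2), ([0, 1, 2, 0, 2, 2], .inr 1),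
    ([0, 0, 0, 1, 1, 2], .inr 0), ([0, 0, 1, 2, 0, 0], .inr 2), ([0, 1, 0, 2, 1, 0], .inr 2),
    ([0, 1, 1, 0, 0, 2], .inr 2), ([0, 1, 1, 0, 1, 2], .inr 2), ([0, 1, 1, 1, 0, 2], .inr 1),
    ([0, 1, 1, 2, 1, 0], .inr 2), ([0, 1, 1, 2, 1, 1], .inr 0), ([0, 1, 2, 0, 1, 1], .inr 2),
    ([0, 1, 2, 1, 2, 1], .inr 0), ([0, 1, 2, 1, 2, 2], .inr 2), ([0, 1, 2, 2, 2, 1], .inr 0),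
    ([0, 0, 0, 1, 0, 2], .inr 1), ([0, 0, 1, 2, 0, 1], .inr 2), ([0, 0, 1, 2, 0, 2], .inr 1),
    ([0, 0, 1, 2, 2, 1], .inr 2), ([0, 1, 0, 1, 2, 0], .inr 1), ([0, 1, 0, 1, 2, 2], .inr 1),
    ([0, 1, 0, 2, 1, 1], .inr 1), ([0, 1, 0, 2, 2, 0], .inr 2), ([0, 1, 1, 0, 2, 0], .inr 1),
    ([0, 1, 1, 0, 2, 1], .inr 0), ([0, 1, 1, 1, 1, 2], .inr 2), ([0, 1, 1, 2, 0, 2], .inr 0),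
    ([0, 1, 1, 2, 1, 2], .inr 0), ([0, 1, 1, 2, 2, 0], .inr 2), ([0, 1, 2, 0, 0, 0], .inr 2),
    ([0, 1, 2, 0, 0, 1], .inr 1), ([0, 1, 2, 0, 1, 0], .inr 1), ([0, 1, 2, 0, 2, 0], .inr 2),
    ([0, 1, 2, 1, 0, 1], .inr 0), ([0, 1, 2, 1, 2, 0], .inr 1), ([0, 1, 2, 2, 0, 1], .inr 0),
    ([0, 1, 2, 2, 2, 0], .inr 2), ([0, 1, 2, 2, 2, 2], .inr 0), ([0, 0, 1, 2, 1, 2], .inr 0),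
    ([0, 1, 0, 1, 1, 0], .inr 0), ([0, 1, 0, 1, 2, 1], .inr 2), ([0, 1, 0, 2, 0, 2], .inr 1),
    ([0, 1, 0, 2, 1, 2], .inr 0), ([0, 1, 1, 0, 0, 1], .inr 1), ([0, 1, 1, 0, 1, 0], .inr 0),
    ([0, 1, 1, 0, 2, 2], .inr 1), ([0, 1, 2, 0, 0, 2], .inr 2), ([0, 1, 2, 0, 1, 2], .inr 2),
    ([0, 1, 2, 0, 2, 1], .inr 1), ([0, 1, 2, 1, 1, 0], .inr 0), ([0, 1, 2, 2, 1, 0], .inr 0),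
    ([0, 1, 0, 1, 0, 1], .inr 0)]

theorem chk_claw100 : chk (clawC true false false) true cert_claw100 = true := by decide +kernel

def cert_claw101 : List (List (Fin 3) × (List (Fin 3) ⊕ Fin 3)) := [
    ([0, 0, 0, 0, 0, 1], .inl [1, 2, 0, 2, 1, 2]), ([0, 0, 0, 0, 1, 1], .inl [1, 2, 0, 2, 1, 2]),
    ([0, 0, 0, 1, 0, 1], .inl [2, 1, 0, 1, 2, 2]), ([0, 0, 0, 1, 0, 2], .inl [2, 1, 0, 1, 2, 1]),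
    ([0, 0, 0, 1, 1, 1], .inl [2, 1, 0, 1, 2, 2]), ([0, 0, 0, 1, 2, 2], .inl [2, 1, 0, 1, 2, 1]),
    ([0, 0, 1, 0, 0, 0], .inl [1, 0, 2, 2, 2, 1]), ([0, 0, 1, 0, 1, 0], .inl [2, 0, 1, 1, 2, 2]),
    ([0, 0, 1, 0, 1, 1], .inl [1, 0, 2, 2, 2, 0]), ([0, 0, 1, 0, 1, 2], .inl [2, 0, 1, 1, 2, 0]),
    ([0, 0, 1, 0, 2, 0], .inl [1, 0, 2, 2, 2, 1]), ([0, 0, 1, 0, 2, 1], .inl [1, 0, 2, 2, 2, 0]),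
    ([0, 0, 1, 0, 2, 2], .inl [2, 0, 1, 1, 2, 0]), ([0, 0, 1, 1, 0, 0], .inl [1, 0, 2, 2, 2, 1]),
    ([0, 0, 1, 1, 0, 1], .inl [1, 2, 0, 2, 0, 2]), ([0, 0, 1, 1, 0, 2], .inl [1, 2, 0, 2, 0, 1]),
    ([0, 0, 1, 1, 1, 0], .inl [2, 0, 1, 1, 2, 2]), ([0, 0, 1, 1, 1, 1], .inl [1, 0, 2, 2, 2, 0]),
    ([0, 0, 1, 1, 1, 2], .inl [2, 0, 1, 1, 2, 0]), ([0, 0, 1, 1, 2, 0], .inl [1, 0, 2, 2, 2, 1]),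
    ([0, 0, 1, 1, 2, 1], .inl [1, 0, 2, 2, 2, 0]), ([0, 0, 1, 1, 2, 2], .inl [1, 2, 0, 2, 0, 1]),
    ([0, 0, 1, 2, 0, 1], .inl [1, 2, 0, 2, 0, 2]), ([0, 0, 1, 2, 0, 2], .inl [1, 2, 0, 2, 0, 1]),
    ([0, 0, 1, 2, 1, 1], .inl [1, 2, 0, 2, 0, 2]), ([0, 0, 1, 2, 2, 2], .inl [1, 2, 0, 2, 0, 1]),
    ([0, 1, 0, 0, 0, 0], .inl [0, 1, 2, 2, 2, 1]), ([0, 1, 0, 0, 1, 0], .inl [0, 2, 1, 2, 1, 2]),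
    ([0, 1, 0, 0, 1, 1], .inl [0, 1, 2, 2, 2, 0]), ([0, 1, 0, 0, 1, 2], .inl [0, 2, 1, 2, 1, 0]),
    ([0, 1, 0, 0, 2, 0], .inl [0, 1, 2, 2, 2, 1]), ([0, 1, 0, 0, 2, 1], .inl [0, 1, 2, 2, 2, 0]),
    ([0, 1, 0, 0, 2, 2], .inl [0, 2, 1, 2, 1, 0]), ([0, 1, 0, 1, 0, 0], .inl [0, 1, 2, 2, 2, 1]),
    ([0, 1, 0, 1, 1, 1], .inl [0, 1, 2, 2, 2, 0]), ([0, 1, 0, 1, 2, 0], .inl [0, 1, 2, 2, 2, 1]),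
    ([0, 1, 0, 1, 2, 1], .inl [0, 1, 2, 2, 2, 0]), ([0, 1, 0, 2, 0, 0], .inl [0, 2, 1, 2, 1, 2]),
    ([0, 1, 0, 2, 1, 0], .inl [0, 2, 1, 2, 1, 2]), ([0, 1, 0, 2, 1, 2], .inl [0, 2, 1, 2, 1, 0]),
    ([0, 1, 0, 2, 2, 2], .inl [0, 2, 1, 2, 1, 0]), ([0, 1, 1, 1, 0, 0], .inl [0, 2, 1, 2, 0, 2]),
    ([0, 1, 1, 1, 1, 0], .inl [0, 2, 1, 2, 0, 2]), ([0, 1, 1, 1, 1, 2], .inl [0, 2, 1, 2, 0, 0]),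
    ([0, 1, 1, 1, 2, 2], .inl [0, 2, 1, 2, 0, 0]), ([0, 1, 1, 2, 0, 0], .inl [0, 2, 1, 2, 0, 2]),
    ([0, 1, 1, 2, 1, 0], .inl [0, 2, 1, 2, 0, 2]), ([0, 1, 1, 2, 1, 2], .inl [0, 2, 1, 2, 0, 0]),
    ([0, 1, 1, 2, 2, 2], .inl [0, 2, 1, 2, 0, 0]), ([0, 1, 2, 1, 0, 0], .inl [0, 1, 2, 2, 0, 1]),
    ([0, 1, 2, 1, 1, 1], .inl [0, 1, 2, 2, 0, 0]), ([0, 1, 2, 1, 2, 0], .inl [0, 1, 2, 2, 0, 1]),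
    ([0, 1, 2, 1, 2, 1], .inl [0, 1, 2, 2, 0, 0]), ([0, 1, 2, 2, 0, 0], .inl [0, 1, 2, 2, 0, 1]),
    ([0, 1, 2, 2, 1, 1], .inl [0, 1, 2, 2, 0, 0]), ([0, 1, 2, 2, 2, 0], .inl [0, 1, 2, 2, 0, 1]),
    ([0, 1, 2, 2, 2, 1], .inl [0, 1, 2, 2, 0, 0]), ([0, 0, 0, 0, 0, 0], .inr 1),
    ([0, 0, 0, 0, 1, 0], .inr 2), ([0, 0, 0, 0, 1, 2], .inr 2), ([0, 0, 0, 1, 0, 0], .inr 2),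
    ([0, 0, 0, 1, 1, 0], .inr 2), ([0, 0, 0, 1, 1, 2], .inr 2), ([0, 0, 1, 0, 0, 1], .inr 2),
    ([0, 0, 1, 0, 0, 2], .inr 1), ([0, 1, 0, 0, 0, 1], .inr 2), ([0, 1, 0, 0, 0, 2], .inr 2),
    ([0, 1, 1, 0, 0, 0], .inr 2), ([0, 1, 1, 0, 1, 1], .inr 2), ([0, 1, 1, 1, 0, 1], .inr 2),
    ([0, 1, 1, 1, 0, 2], .inr 2), ([0, 1, 1, 1, 1, 1], .inr 2), ([0, 1, 2, 0, 1, 1], .inr 2),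
    ([0, 0, 0, 1, 2, 1], .inr 0), ([0, 0, 1, 2, 1, 0], .inr 2), ([0, 1, 0, 2, 0, 1], .inr 2),
    ([0, 1, 0, 2, 1, 1], .inr 1), ([0, 1, 1, 0, 2, 0], .inr 2), ([0, 1, 1, 0, 2, 1], .inr 2),
    ([0, 1, 1, 1, 2, 0], .inr 1), ([0, 1, 1, 2, 1, 1], .inr 2), ([0, 1, 1, 2, 2, 1], .inr 0),
    ([0, 1, 2, 0, 2, 2], .inr 1), ([0, 1, 2, 1, 1, 2], .inr 0), ([0, 1, 2, 2, 2, 2], .inr 0),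
    ([0, 0, 0, 1, 2, 0], .inr 2), ([0, 0, 1, 2, 0, 0], .inr 2), ([0, 0, 1, 2, 1, 2], .inr 2),
    ([0, 0, 1, 2, 2, 0], .inr 0), ([0, 1, 0, 1, 1, 2], .inr 0), ([0, 1, 0, 1, 2, 2], .inr 0),
    ([0, 1, 0, 2, 0, 2], .inr 2), ([0, 1, 0, 2, 2, 1], .inr 0), ([0, 1, 1, 0, 0, 2], .inr 1),
    ([0, 1, 1, 0, 1, 2], .inr 0), ([0, 1, 1, 1, 2, 1], .inr 2), ([0, 1, 1, 2, 0, 1], .inr 2),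
    ([0, 1, 1, 2, 0, 2], .inr 2), ([0, 1, 1, 2, 2, 0], .inr 0), ([0, 1, 2, 0, 0, 0], .inr 1),
    ([0, 1, 2, 0, 0, 1], .inr 1), ([0, 1, 2, 0, 0, 2], .inr 2), ([0, 1, 2, 0, 2, 0], .inr 2),
    ([0, 1, 2, 1, 1, 0], .inr 0), ([0, 1, 2, 1, 2, 2], .inr 2), ([0, 1, 2, 2, 0, 2], .inr 1),
    ([0, 1, 2, 2, 1, 0], .inr 0), ([0, 1, 2, 2, 1, 2], .inr 0), ([0, 0, 1, 2, 2, 1], .inr 0),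
    ([0, 1, 0, 1, 0, 2], .inr 1), ([0, 1, 0, 1, 1, 0], .inr 1), ([0, 1, 0, 2, 2, 0], .inr 1),
    ([0, 1, 1, 0, 0, 1], .inr 0), ([0, 1, 1, 0, 1, 0], .inr 1), ([0, 1, 1, 0, 2, 2], .inr 1),
    ([0, 1, 2, 0, 1, 0], .inr 1), ([0, 1, 2, 0, 1, 2], .inr 1), ([0, 1, 2, 0, 2, 1], .inr 2),
    ([0, 1, 2, 1, 0, 1], .inr 0), ([0, 1, 2, 1, 0, 2], .inr 1), ([0, 1, 2, 2, 0, 1], .inr 2),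
    ([0, 1, 0, 1, 0, 1], .inr 0)]

theorem chk_claw101 : chk (clawC true false true) true cert_claw101 = true := by decide +kernel

def cert_claw110 : List (List (Fin 3) × (List (Fin 3) ⊕ Fin 3)) := [
    ([0, 0, 0, 0, 1, 0], .inl [1, 2, 0, 2, 1, 2]), ([0, 0, 0, 0, 1, 1], .inl [1, 2, 0, 2, 1, 2]),
    ([0, 0, 0, 1, 0, 0], .inl [1, 0, 2, 2, 2, 1]), ([0, 0, 0, 1, 0, 1], .inl [2, 0, 1, 1, 2, 2]),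
    ([0, 0, 0, 1, 0, 2], .inl [1, 0, 2, 2, 2, 1]), ([0, 0, 0, 1, 1, 1], .inl [1, 0, 2, 2, 2, 0]),
    ([0, 0, 0, 1, 1, 2], .inl [1, 0, 2, 2, 2, 0]), ([0, 0, 0, 1, 2, 1], .inl [2, 0, 1, 1, 2, 0]),
    ([0, 0, 0, 1, 2, 2], .inl [2, 0, 1, 1, 2, 0]), ([0, 0, 1, 0, 1, 0], .inl [2, 1, 0, 1, 2, 2]),
    ([0, 0, 1, 0, 1, 1], .inl [2, 1, 0, 1, 2, 2]), ([0, 0, 1, 0, 2, 0], .inl [2, 1, 0, 1, 2, 1]),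
    ([0, 0, 1, 0, 2, 2], .inl [2, 1, 0, 1, 2, 1]), ([0, 0, 1, 1, 0, 0], .inl [1, 0, 2, 2, 2, 1]),
    ([0, 0, 1, 1, 0, 1], .inl [2, 0, 1, 1, 2, 2]), ([0, 0, 1, 1, 0, 2], .inl [1, 0, 2, 2, 2, 1]),
    ([0, 0, 1, 1, 1, 0], .inl [1, 2, 0, 2, 0, 2]), ([0, 0, 1, 1, 1, 1], .inl [1, 0, 2, 2, 2, 0]),
    ([0, 0, 1, 1, 1, 2], .inl [1, 0, 2, 2, 2, 0]), ([0, 0, 1, 1, 2, 0], .inl [1, 2, 0, 2, 0, 1]),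
    ([0, 0, 1, 1, 2, 1], .inl [2, 0, 1, 1, 2, 0]), ([0, 0, 1, 1, 2, 2], .inl [1, 2, 0, 2, 0, 1]),
    ([0, 0, 1, 2, 1, 0], .inl [2, 1, 0, 1, 0, 2]), ([0, 0, 1, 2, 1, 1], .inl [2, 1, 0, 1, 0, 2]),
    ([0, 0, 1, 2, 2, 0], .inl [2, 1, 0, 1, 0, 1]), ([0, 0, 1, 2, 2, 2], .inl [2, 1, 0, 1, 0, 1]),
    ([0, 1, 0, 0, 0, 0], .inl [0, 1, 2, 2, 2, 1]), ([0, 1, 0, 0, 0, 1], .inl [0, 2, 1, 2, 1, 2]),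
    ([0, 1, 0, 0, 0, 2], .inl [0, 1, 2, 2, 2, 1]), ([0, 1, 0, 0, 1, 1], .inl [0, 1, 2, 2, 2, 0]),
    ([0, 1, 0, 0, 1, 2], .inl [0, 1, 2, 2, 2, 0]), ([0, 1, 0, 0, 2, 1], .inl [0, 2, 1, 2, 1, 0]),
    ([0, 1, 0, 0, 2, 2], .inl [0, 2, 1, 2, 1, 0]), ([0, 1, 1, 0, 0, 0], .inl [0, 1, 2, 2, 2, 1]),
    ([0, 1, 1, 0, 0, 2], .inl [0, 1, 2, 2, 2, 1]), ([0, 1, 1, 0, 1, 1], .inl [0, 1, 2, 2, 2, 0]),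
    ([0, 1, 1, 0, 1, 2], .inl [0, 1, 2, 2, 2, 0]), ([0, 1, 1, 1, 0, 0], .inl [0, 2, 1, 2, 0, 2]),
    ([0, 1, 1, 1, 0, 1], .inl [0, 2, 1, 2, 0, 2]), ([0, 1, 1, 1, 2, 1], .inl [0, 2, 1, 2, 0, 0]),
    ([0, 1, 1, 1, 2, 2], .inl [0, 2, 1, 2, 0, 0]), ([0, 1, 1, 2, 0, 0], .inl [0, 1, 2, 2, 0, 1]),
    ([0, 1, 1, 2, 0, 2], .inl [0, 1, 2, 2, 0, 1]), ([0, 1, 1, 2, 1, 1], .inl [0, 1, 2, 2, 0, 0]),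
    ([0, 1, 1, 2, 1, 2], .inl [0, 1, 2, 2, 0, 0]), ([0, 1, 2, 0, 0, 0], .inl [0, 2, 1, 2, 1, 2]),
    ([0, 1, 2, 0, 0, 1], .inl [0, 2, 1, 2, 1, 2]), ([0, 1, 2, 0, 2, 1], .inl [0, 2, 1, 2, 1, 0]),
    ([0, 1, 2, 0, 2, 2], .inl [0, 2, 1, 2, 1, 0]), ([0, 1, 2, 1, 0, 0], .inl [0, 2, 1, 2, 0, 2]),
    ([0, 1, 2, 1, 0, 1], .inl [0, 2, 1, 2, 0, 2]), ([0, 1, 2, 1, 2, 1], .inl [0, 2, 1, 2, 0, 0]),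
    ([0, 1, 2, 1, 2, 2], .inl [0, 2, 1, 2, 0, 0]), ([0, 1, 2, 2, 0, 0], .inl [0, 1, 2, 2, 0, 1]),
    ([0, 1, 2, 2, 0, 2], .inl [0, 1, 2, 2, 0, 1]), ([0, 1, 2, 2, 1, 1], .inl [0, 1, 2, 2, 0, 0]),
    ([0, 1, 2, 2, 1, 2], .inl [0, 1, 2, 2, 0, 0]), ([0, 0, 0, 0, 0, 0], .inr 1),
    ([0, 0, 0, 0, 0, 1], .inr 2), ([0, 0, 0, 1, 1, 0], .inr 2), ([0, 0, 1, 0, 0, 0], .inr 2),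
    ([0, 0, 1, 0, 0, 1], .inr 2), ([0, 0, 1, 0, 2, 1], .inr 2), ([0, 1, 0, 0, 1, 0], .inr 2),
    ([0, 1, 0, 0, 2, 0], .inr 2), ([0, 1, 0, 1, 0, 0], .inr 2), ([0, 1, 0, 1, 1, 1], .inr 2),
    ([0, 1, 0, 2, 0, 0], .inr 1), ([0, 1, 0, 2, 2, 2], .inr 1), ([0, 1, 1, 1, 1, 0], .inr 2),
    ([0, 1, 1, 1, 1, 1], .inr 2), ([0, 1, 2, 2, 2, 0], .inr 1), ([0, 1, 2, 2, 2, 2], .inr 1),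
    ([0, 0, 1, 0, 0, 2], .inr 2), ([0, 0, 1, 0, 1, 2], .inr 0), ([0, 0, 1, 2, 0, 0], .inr 1),
    ([0, 0, 1, 2, 0, 1], .inr 2), ([0, 1, 0, 1, 0, 2], .inr 2), ([0, 1, 1, 1, 0, 2], .inr 2),
    ([0, 1, 1, 2, 2, 1], .inr 0), ([0, 1, 1, 2, 2, 2], .inr 2), ([0, 1, 2, 0, 1, 0], .inr 2),
    ([0, 1, 2, 1, 1, 0], .inr 2), ([0, 1, 2, 1, 1, 2], .inr 0), ([0, 1, 2, 2, 2, 1], .inr 2),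
    ([0, 0, 0, 0, 1, 2], .inr 2), ([0, 0, 0, 1, 2, 0], .inr 1), ([0, 0, 1, 2, 0, 2], .inr 0),
    ([0, 0, 1, 2, 1, 2], .inr 1), ([0, 1, 0, 1, 1, 2], .inr 2), ([0, 1, 0, 1, 2, 0], .inr 1),
    ([0, 1, 0, 2, 0, 1], .inr 1), ([0, 1, 0, 2, 1, 0], .inr 1), ([0, 1, 0, 2, 1, 1], .inr 2),
    ([0, 1, 0, 2, 2, 0], .inr 2), ([0, 1, 0, 2, 2, 1], .inr 1), ([0, 1, 1, 0, 2, 0], .inr 1),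
    ([0, 1, 1, 0, 2, 2], .inr 1), ([0, 1, 1, 1, 1, 2], .inr 0), ([0, 1, 1, 1, 2, 0], .inr 1),
    ([0, 1, 1, 2, 0, 1], .inr 0), ([0, 1, 1, 2, 2, 0], .inr 1), ([0, 1, 2, 0, 0, 2], .inr 2),
    ([0, 1, 2, 0, 1, 1], .inr 2), ([0, 1, 2, 0, 2, 0], .inr 2), ([0, 1, 2, 1, 1, 1], .inr 0),
    ([0, 1, 2, 1, 2, 0], .inr 2), ([0, 1, 2, 2, 0, 1], .inr 1), ([0, 0, 1, 2, 2, 1], .inr 0),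
    ([0, 1, 0, 1, 1, 0], .inr 0), ([0, 1, 0, 1, 2, 1], .inr 2), ([0, 1, 0, 1, 2, 2], .inr 2),
    ([0, 1, 0, 2, 0, 2], .inr 2), ([0, 1, 0, 2, 1, 2], .inr 2), ([0, 1, 1, 0, 0, 1], .inr 0),
    ([0, 1, 1, 0, 1, 0], .inr 0), ([0, 1, 1, 0, 2, 1], .inr 2), ([0, 1, 1, 2, 1, 0], .inr 0),
    ([0, 1, 2, 0, 1, 2], .inr 0), ([0, 1, 2, 1, 0, 2], .inr 0), ([0, 1, 2, 2, 1, 0], .inr 0),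
    ([0, 1, 0, 1, 0, 1], .inr 0)]

theorem chk_claw110 : chk (clawC true true false) true cert_claw110 = true := by decide +kernel

def cert_claw111 : List (List (Fin 3) × (List (Fin 3) ⊕ Fin 3)) := [
    ([0, 0, 0, 0, 0, 1], .inl [1, 2, 0, 2, 1, 2]), ([0, 0, 0, 0, 1, 1], .inl [1, 2, 0, 2, 1, 2]),
    ([0, 0, 0, 1, 0, 0], .inl [1, 0, 2, 2, 2, 1]), ([0, 0, 0, 1, 1, 0], .inl [2, 0, 1, 1, 2, 2]),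
    ([0, 0, 0, 1, 1, 1], .inl [1, 0, 2, 2, 2, 0]), ([0, 0, 0, 1, 1, 2], .inl [2, 0, 1, 1, 2, 0]),
    ([0, 0, 0, 1, 2, 0], .inl [1, 0, 2, 2, 2, 1]), ([0, 0, 0, 1, 2, 1], .inl [1, 0, 2, 2, 2, 0]),
    ([0, 0, 0, 1, 2, 2], .inl [2, 0, 1, 1, 2, 0]), ([0, 0, 1, 0, 0, 1], .inl [2, 1, 0, 1, 2, 2]),
    ([0, 0, 1, 0, 0, 2], .inl [2, 1, 0, 1, 2, 1]), ([0, 0, 1, 0, 1, 1], .inl [2, 1, 0, 1, 2, 2]),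
    ([0, 0, 1, 0, 2, 2], .inl [2, 1, 0, 1, 2, 1]), ([0, 0, 1, 1, 0, 0], .inl [1, 0, 2, 2, 2, 1]),
    ([0, 0, 1, 1, 0, 1], .inl [1, 2, 0, 2, 0, 2]), ([0, 0, 1, 1, 0, 2], .inl [1, 2, 0, 2, 0, 1]),
    ([0, 0, 1, 1, 1, 0], .inl [2, 0, 1, 1, 2, 2]), ([0, 0, 1, 1, 1, 1], .inl [1, 0, 2, 2, 2, 0]),
    ([0, 0, 1, 1, 1, 2], .inl [2, 0, 1, 1, 2, 0]), ([0, 0, 1, 1, 2, 0], .inl [1, 0, 2, 2, 2, 1]),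
    ([0, 0, 1, 1, 2, 1], .inl [1, 0, 2, 2, 2, 0]), ([0, 0, 1, 1, 2, 2], .inl [1, 2, 0, 2, 0, 1]),
    ([0, 0, 1, 2, 0, 1], .inl [2, 1, 0, 1, 0, 2]), ([0, 0, 1, 2, 0, 2], .inl [2, 1, 0, 1, 0, 1]),
    ([0, 0, 1, 2, 1, 1], .inl [2, 1, 0, 1, 0, 2]), ([0, 0, 1, 2, 2, 2], .inl [2, 1, 0, 1, 0, 1]),
    ([0, 1, 0, 0, 0, 0], .inl [0, 1, 2, 2, 2, 1]), ([0, 1, 0, 0, 1, 0], .inl [0, 2, 1, 2, 1, 2]),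
    ([0, 1, 0, 0, 1, 1], .inl [0, 1, 2, 2, 2, 0]), ([0, 1, 0, 0, 1, 2], .inl [0, 2, 1, 2, 1, 0]),
    ([0, 1, 0, 0, 2, 0], .inl [0, 1, 2, 2, 2, 1]), ([0, 1, 0, 0, 2, 1], .inl [0, 1, 2, 2, 2, 0]),
    ([0, 1, 0, 0, 2, 2], .inl [0, 2, 1, 2, 1, 0]), ([0, 1, 1, 0, 0, 0], .inl [0, 1, 2, 2, 2, 1]),
    ([0, 1, 1, 0, 1, 1], .inl [0, 1, 2, 2, 2, 0]), ([0, 1, 1, 0, 2, 0], .inl [0, 1, 2, 2, 2, 1]),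
    ([0, 1, 1, 0, 2, 1], .inl [0, 1, 2, 2, 2, 0]), ([0, 1, 1, 1, 0, 0], .inl [0, 2, 1, 2, 0, 2]),
    ([0, 1, 1, 1, 1, 0], .inl [0, 2, 1, 2, 0, 2]), ([0, 1, 1, 1, 1, 2], .inl [0, 2, 1, 2, 0, 0]),
    ([0, 1, 1, 1, 2, 2], .inl [0, 2, 1, 2, 0, 0]), ([0, 1, 1, 2, 0, 0], .inl [0, 1, 2, 2, 0, 1]),
    ([0, 1, 1, 2, 1, 1], .inl [0, 1, 2, 2, 0, 0]), ([0, 1, 1, 2, 2, 0], .inl [0, 1, 2, 2, 0, 1]),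
    ([0, 1, 1, 2, 2, 1], .inl [0, 1, 2, 2, 0, 0]), ([0, 1, 2, 0, 0, 0], .inl [0, 2, 1, 2, 1, 2]),
    ([0, 1, 2, 0, 1, 0], .inl [0, 2, 1, 2, 1, 2]), ([0, 1, 2, 0, 1, 2], .inl [0, 2, 1, 2, 1, 0]),
    ([0, 1, 2, 0, 2, 2], .inl [0, 2, 1, 2, 1, 0]), ([0, 1, 2, 1, 0, 0], .inl [0, 2, 1, 2, 0, 2]),
    ([0, 1, 2, 1, 1, 0], .inl [0, 2, 1, 2, 0, 2]), ([0, 1, 2, 1, 1, 2], .inl [0, 2, 1, 2, 0, 0]),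
    ([0, 1, 2, 1, 2, 2], .inl [0, 2, 1, 2, 0, 0]), ([0, 1, 2, 2, 0, 0], .inl [0, 1, 2, 2, 0, 1]),
    ([0, 1, 2, 2, 1, 1], .inl [0, 1, 2, 2, 0, 0]), ([0, 1, 2, 2, 2, 0], .inl [0, 1, 2, 2, 0, 1]),
    ([0, 1, 2, 2, 2, 1], .inl [0, 1, 2, 2, 0, 0]), ([0, 0, 0, 0, 0, 0], .inr 1),
    ([0, 0, 0, 0, 1, 0], .inr 2), ([0, 0, 0, 1, 0, 1], .inr 2), ([0, 0, 0, 1, 0, 2], .inr 1),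
    ([0, 0, 1, 0, 0, 0], .inr 2), ([0, 0, 1, 0, 1, 0], .inr 2), ([0, 0, 1, 0, 1, 2], .inr 2),
    ([0, 1, 0, 0, 0, 1], .inr 2), ([0, 1, 0, 0, 0, 2], .inr 2), ([0, 1, 0, 1, 0, 0], .inr 2),
    ([0, 1, 0, 1, 1, 1], .inr 2), ([0, 1, 0, 2, 0, 0], .inr 1), ([0, 1, 0, 2, 1, 1], .inr 2),
    ([0, 1, 1, 1, 0, 1], .inr 2), ([0, 1, 1, 1, 1, 1], .inr 2), ([0, 1, 2, 2, 0, 2], .inr 1),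
    ([0, 0, 0, 0, 1, 2], .inr 2), ([0, 0, 1, 0, 2, 0], .inr 2), ([0, 0, 1, 0, 2, 1], .inr 0),
    ([0, 0, 1, 2, 0, 0], .inr 2), ([0, 0, 1, 2, 1, 0], .inr 2), ([0, 0, 1, 2, 2, 0], .inr 1),
    ([0, 1, 0, 1, 2, 0], .inr 2), ([0, 1, 0, 2, 2, 2], .inr 1), ([0, 1, 1, 1, 0, 2], .inr 2),
    ([0, 1, 1, 1, 2, 0], .inr 2), ([0, 1, 1, 1, 2, 1], .inr 0), ([0, 1, 1, 2, 1, 2], .inr 0),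
    ([0, 1, 1, 2, 2, 2], .inr 0), ([0, 1, 2, 0, 0, 1], .inr 2), ([0, 1, 2, 0, 1, 1], .inr 1),
    ([0, 1, 2, 1, 1, 1], .inr 2), ([0, 1, 2, 2, 1, 2], .inr 2), ([0, 1, 2, 2, 2, 2], .inr 1),
    ([0, 0, 1, 2, 2, 1], .inr 1), ([0, 1, 0, 1, 0, 2], .inr 1), ([0, 1, 0, 1, 2, 1], .inr 2),
    ([0, 1, 0, 2, 0, 1], .inr 1), ([0, 1, 0, 2, 0, 2], .inr 2), ([0, 1, 0, 2, 1, 0], .inr 1),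
    ([0, 1, 0, 2, 1, 2], .inr 1), ([0, 1, 0, 2, 2, 0], .inr 2), ([0, 1, 1, 0, 0, 2], .inr 1),
    ([0, 1, 1, 0, 1, 2], .inr 0), ([0, 1, 1, 0, 2, 2], .inr 0), ([0, 1, 1, 2, 1, 0], .inr 0),
    ([0, 1, 2, 0, 0, 2], .inr 2), ([0, 1, 2, 0, 2, 1], .inr 0), ([0, 1, 2, 1, 0, 1], .inr 2),
    ([0, 1, 2, 1, 0, 2], .inr 2), ([0, 1, 2, 1, 2, 1], .inr 0), ([0, 1, 2, 2, 1, 0], .inr 1),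
    ([0, 0, 1, 2, 1, 2], .inr 0), ([0, 1, 0, 1, 0, 1], .inr 0), ([0, 1, 0, 1, 1, 0], .inr 0),
    ([0, 1, 0, 1, 1, 2], .inr 2), ([0, 1, 0, 1, 2, 2], .inr 2), ([0, 1, 0, 2, 2, 1], .inr 2),
    ([0, 1, 1, 0, 0, 1], .inr 0), ([0, 1, 1, 0, 1, 0], .inr 1), ([0, 1, 1, 2, 0, 1], .inr 0),
    ([0, 1, 1, 2, 0, 2], .inr 1), ([0, 1, 2, 0, 2, 0], .inr 1), ([0, 1, 2, 1, 2, 0], .inr 0),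
    ([0, 1, 2, 2, 0, 1], .inr 2)]

theorem chk_claw111 : chk (clawC true true true) true cert_claw111 = true := by decide +kernel

theorem kill_claw (a b c : Bool) : Kill (clawC a b c) True := by
  have h : Kill (clawC a b c) (true = true) := by
    cases a <;> cases b <;> cases c
    · exact kill_of chk_claw000
    · exact kill_of chk_claw001
    · exact kill_of chk_claw010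
    · exact kill_of chk_claw011
    · exact kill_of chk_claw100
    · exact kill_of chk_claw101
    · exact kill_of chk_claw110
    · exact kill_of chk_claw111
  simpa using h

end Pool.Agent.Helper68.AV
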