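import Pool.Agent.Helper68.AV.Defs

/-!
# Project AV: the check of a configuration

A certificate is a list of states up to permutations of the colours, each with a colouring of the edges of the
configuration which fits it, or with a colour `i` such that every system of Kempe chains of the colours other
than `i` leads from it to an earlier state of the list.
-/

set_option autoImplicit false

namespace Pool.Agent.Helper68.AV

/-- the normal form up to permutations of the colours -/
def cn (l : List (Fin 3)) : List (Fin 3) :=
  match l with
  | [] => []
  | a :: t =>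
    let l1 := (a :: t).map (fun x => x - a)
    if l1.find? (fun x => x != 0) == some 2 then l1.map (fun x => -x) else l1

/-- exchange the colours other than `i` at the positions in `b` (the first position is `k`) -/
def fl (i : Fin 3) (b : List ℕ) : ℕ → List (Fin 3) → List (Fin 3)
  | _, [] => []
  | k, x :: t => (if b.contains k then swp i x else x) :: fl i b (k + 1) t

/-- do the pairs `tu` and `ab` cross? -/
def crs (t u : ℕ) (ab : ℕ × ℕ) : Bool :=
  (decide (ab.1 < t) && decide (t < ab.2)) != (decide (ab.1 < u) && decide (u < ab.2))

/-- the positions `pos` are undecided, `rc` are the states already reached -/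
def go (dead : List (Fin 3) → Bool) (i : Fin 3) (pl : Bool) :
    ℕ → List ℕ → List (List (Fin 3)) → List (ℕ × ℕ) → Bool
  | 0, _, _, _ => false
  | _ + 1, [], _, _ => false
  | n + 1, t :: rest, rc, prs =>
    ((rc.map (fl i [t] 0)).any dead ||
      go dead i pl n rest (rc ++ rc.map (fl i [t] 0)) prs) &&
    rest.all fun u => (pl && prs.any (crs t u)) ||
      (rc.map (fl i [t, u] 0)).any dead ||
      go dead i pl n (rest.erase u) (rc ++ rc.map (fl i [t, u] 0)) ((t, u) :: prs)

/-- the positions whose colour is not `i` -/
def act (i : Fin 3) : ℕ → List (Fin 3) → List ℕ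
  | _, [] => []
  | k, x :: t => if x == i then act i (k + 1) t else k :: act i (k + 1) t

def share {n : ℕ} (a b : Fin n × Fin n) : Bool :=
  a.1 == b.1 || a.1 == b.2 || a.2 == b.1 || a.2 == b.2

def pw {n : ℕ} : List ((Fin n × Fin n) × Fin 3) → Bool
  | [] => true
  | a :: t => t.all (fun b => !share a.1 b.1 || a.2 != b.2) && pw t

/-- the colouring `e` fits the state `l` -/
def gd (C : Cfg) (l : List (Fin 3)) (e : List (Fin 3)) : Bool :=
  e.length == C.E.length && pw (C.E.zip e) &&
  (C.E.zip e).all fun a => (List.finRange C.r).all fun t =>
    !(C.P t == a.1.1 || C.P t == a.1.2) || !(l[t.1]? == some a.2)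

/-- all lists of length `n` -/
def allL : ℕ → List (List (Fin 3))
  | 0 => [[]]
  | n + 1 => (allL n).flatMap fun l => [0 :: l, 1 :: l, 2 :: l]

/-- run through the certificate -/
def run (C : Cfg) (pl : Bool) : List (List (Fin 3) × (List (Fin 3) ⊕ Fin 3)) → List (List (Fin 3)) →
    Option (List (List (Fin 3)))
  | [], D => some D
  | (l, Sum.inl e) :: t, D =>
    if l.length == C.r && gd C l e then run C pl t (l :: D) else none
  | (l, Sum.inr i) :: t, D =>
    if l.length == C.r &&
      go (fun x => D.contains (cn x)) i pl (C.r + 1) (act i 0 l) [l] [] then run C pl t (l :: D) else none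

/-- the check -/
def chk (C : Cfg) (pl : Bool) (cert : List (List (Fin 3) × (List (Fin 3) ⊕ Fin 3))) : Bool :=
  match run C pl cert [] with
  | some D => (allL C.r).all fun l => D.contains (cn l)
  | none => false

end Pool.Agent.Helper68.AV
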