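import Pool.Agent.Helper68.AV.Kempe

/-!
# Project AV (MP_028d9b_co): Kempe chains in plane graphs do not cross

The edges of a Kempe chain between two names of the ring, closed up by a path through the edges which are
not in `H`, form an element of the cycle space; its potential on the faces separates the other names.
-/

set_option autoImplicit false

namespace Pool.Agent.Helper68.AV

open Pool.Agent.Helper52.AH Pool.Agent.Helper31.AH

/-- a walk in `T` from `x` to `y` gives a symmetric function on the edges of `T` with the boundary `x + y` -/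
theorem exists_chi {V : Type} [Fintype V] [DecidableEq V] (T : SimpleGraph V) {x y : V}
    (h : T.Reachable x y) :
    ∃ χ : V → V → ZMod 2, (∀ v w, χ v w = χ w v) ∧ (∀ v w, ¬ T.Adj v w → χ v w = 0) ∧
      ∀ v, ∑ w, χ v w = (if v = x then 1 else 0) + (if v = y then 1 else 0) := by
  obtain ⟨q⟩ := h
  induction q with
  | @nil u =>
    refine ⟨fun _ _ => 0, fun _ _ => rfl, fun _ _ _ => rfl, fun v => ?_⟩
    rw [Finset.sum_const_zero]
    have : ∀ z : ZMod 2, 0 = z + z := by decide
    exact this _
  | @cons x x1 y hadj q ih =>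
    obtain ⟨χ, h1, h2, h3⟩ := ih
    refine ⟨fun v w => χ v w + ((if v = x ∧ w = x1 then 1 else 0) +
      (if v = x1 ∧ w = x then 1 else 0)), ?_, ?_, ?_⟩
    · intro v w
      show χ v w + _ = χ w v + _
      rw [h1 v w]
      congr 1
      rw [add_comm]
      congr 1
      · simp only [and_comm]
      · simp only [and_comm]
    · intro v w hvw
      have e1 : ¬ (v = x ∧ w = x1) := by
        rintro ⟨rfl, rfl⟩
        exact hvw hadj
      have e2 : ¬ (v = x1 ∧ w = x) := by
        rintro ⟨rfl, rfl⟩
        exact hvw hadj.symm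
      show χ v w + _ = 0
      rw [h2 v w hvw, if_neg e1, if_neg e2]
      rfl
    · intro v
      show ∑ w, (χ v w + _) = _
      rw [Finset.sum_add_distrib, h3, Finset.sum_add_distrib]
      have e : ∀ s t : V, ∑ w, (if v = s ∧ w = t then (1 : ZMod 2) else 0) =
          if v = s then 1 else 0 := by
        intro s t
        by_cases hv : v = s
        · simp [hv]
        · simp [hv]
      rw [e, e]
      have h4 : ∀ α β γ : ZMod 2, α + β + (γ + α) = γ + β := by decide
      exact h4 _ _ _

/-- the sum over the darts at a vertex -/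
theorem sum_darts {V : Type} [Fintype V] [DecidableEq V] {G : SimpleGraph V} [DecidableRel G.Adj]
    (F : V → V → ZMod 2) (hF : ∀ v w, ¬ G.Adj v w → F v w = 0) (v : V) :
    ∑ d : G.Dart with d.fst = v, F d.fst d.snd = ∑ w, F v w := by
  have h1 : ∑ d : G.Dart with d.fst = v, F d.fst d.snd = ∑ w ∈ G.neighborFinset v, F v w := by
    refine Finset.sum_bij (fun d _ => d.snd) ?_ ?_ ?_ ?_
    · intro d hd
      rw [Finset.mem_filter] at hd
      rw [SimpleGraph.mem_neighborFinset, ← hd.2]
      exact d.adj
    · intro d hd d' hd' h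
      rw [Finset.mem_filter] at hd hd'
      apply SimpleGraph.Dart.ext
      exact Prod.ext (hd.2.trans hd'.2.symm) h
    · intro w hw
      rw [SimpleGraph.mem_neighborFinset] at hw
      exact ⟨⟨(v, w), hw⟩, by simp, rfl⟩
    · intro d hd
      rw [Finset.mem_filter] at hd
      rw [hd.2]
  rw [h1]
  apply Finset.sum_subset (Finset.subset_univ _)
  intro w _ hw
  rw [SimpleGraph.mem_neighborFinset] at hw
  exact hF v w hw

theorem nc_of {V : Type} [Fintype V] [DecidableEq V] {G : SimpleGraph V} [DecidableRel G.Adj]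
    (R : Rot G) (hG : G.Connected) (hP : R.Planar) {H : SimpleGraph V} (hH : H ≤ G) {r : ℕ}
    [NeZero r] {p o : Fin r → V} (hR : Rng H p o)
    (hT : ∀ a b : Fin r, (G \ H).Reachable (p a) (p b))
    (hT2 : ∀ z w, (G \ H).Adj z w → (∃ t, z = p t) ∨ ∀ w', ¬ H.Adj z w')
    (hord : ∀ ψ : G.Dart → ZMod 2, FF R ψ → ∀ (t : Fin r) (d d' : G.Dart),
      d.toProd = (p t, o t) → d'.toProd = (p (t + 1), o (t + 1)) → ψ d.symm = ψ d')
    {c : V → V → Fin 3} (hc : PC H c) (i : Fin 3) (a b a' b' : Fin r) (h1 : a < b) (h2 : b < a')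
    (h3 : a' < b') (hr1 : (kg H c hc i).Reachable (p a) (p a'))
    (hr2 : (kg H c hc i).Reachable (p b) (p b')) : (kg H c hc i).Reachable (p a) (p b) := by
  classical
  by_contra hnot
  set K := kg H c hc i with hKdef
  have hKH : ∀ v w, K.Adj v w → H.Adj v w := fun v w h => h.1
  have hKG : ∀ v w, K.Adj v w → G.Adj v w := fun v w h => hH h.1
  have hd2 : ∀ v, dg K v ≤ 2 := kg_dg hc i
  have hd1 : ∀ t, dg K (p t) ≤ 1 := by
    intro t
    rw [dg, Finset.card_le_one]
    intro x hx y hy
    rw [mem_nb] at hx hy
    rw [hR.one t x hx.1, hR.one t y hy.1]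
  have haa' : a ≠ a' := ne_of_lt (h1.trans h2)
  have hpaa' : p a ≠ p a' := fun e => haa' (hR.inj e)
  have hKa : K.Adj (p a) (o a) := by
    obtain ⟨w, hw⟩ := adj_of_reach hr1 hpaa'
    rw [← hR.one a w hw.1]
    exact hw
  have hKa' : K.Adj (p a') (o a') := by
    obtain ⟨w, hw⟩ := adj_of_reach hr1.symm hpaa'.symm
    rw [← hR.one a' w hw.1]
    exact hw
  obtain ⟨χ, hχ1, hχ2, hχ3⟩ := exists_chi (G \ H) (hT a a')
  have hχH : ∀ v w, H.Adj v w → χ v w = 0 := by
    intro v w h
    apply hχ2
    intro h'
    exact ((SimpleGraph.sdiff_adj _ _ _ _).1 h').2 h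
  set X : V → Prop := fun v => K.Reachable (p a) v with hX
  have hXadj : ∀ v w, K.Adj v w → (X v ↔ X w) := by
    intro v w h
    exact ⟨fun hv => hv.trans h.reachable, fun hw => hw.trans h.symm.reachable⟩
  set F : V → V → ZMod 2 := fun v w => χ v w + if K.Adj v w ∧ X v then 1 else 0 with hF
  have hFs : ∀ v w, F v w = F w v := by
    intro v w
    show χ v w + _ = χ w v + _
    rw [hχ1 v w]
    congr 1
    have : (K.Adj v w ∧ X v) ↔ (K.Adj w v ∧ X w) :=
      ⟨fun h => ⟨h.1.symm, (hXadj v w h.1).1 h.2⟩, fun h => ⟨h.1.symm, (hXadj w v h.1).1 h.2⟩⟩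
    simp only [this]
  have hF0 : ∀ v w, ¬ G.Adj v w → F v w = 0 := by
    intro v w h
    show χ v w + _ = 0
    have e1 : ¬ (G \ H).Adj v w := fun h' => h ((SimpleGraph.sdiff_adj _ _ _ _).1 h').1
    have e2 : ¬ (K.Adj v w ∧ X v) := fun h' => h (hKG v w h'.1)
    rw [hχ2 v w e1, if_neg e2, add_zero]
  set f : G.edgeSet → ZMod 2 := fun e => Sym2.lift ⟨F, hFs⟩ e.1 with hf
  have hfd : ∀ d : G.Dart, f (de d) = F d.fst d.snd := fun d => rfl
  have hsum : ∀ v, ∑ d : G.Dart with d.fst = v, f (de d) = 0 := by
    intro v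
    have e1 : ∑ d : G.Dart with d.fst = v, f (de d) = ∑ w, F v w := by
      rw [← sum_darts F hF0 v]
      exact Finset.sum_congr rfl fun d _ => hfd d
    rw [e1]
    show ∑ w, (χ v w + if K.Adj v w ∧ X v then 1 else 0) = 0
    rw [Finset.sum_add_distrib, hχ3]
    have e2 : ∑ w, (if K.Adj v w ∧ X v then (1 : ZMod 2) else 0) =
        if X v then ((dg K v : ℕ) : ZMod 2) else 0 := by
      by_cases hv : X v
      · simp only [hv, and_true, if_true]
        rw [Finset.sum_boole, dg]
        congr 1
      · simp [hv]
    rw [e2]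
    by_cases hv : X v
    · rw [if_pos hv]
      by_cases hva : v = p a
      · have e3 : dg K v = 1 := by
          have e4 := hd1 a
          rw [← hva] at e4
          have e5 : 0 < dg K v := by
            rw [dg, Finset.card_pos]
            exact ⟨o a, mem_nb.2 (by rw [hva]; exact hKa)⟩
          omega
        rw [e3, if_pos hva, if_neg (fun e => hpaa' (hva.symm.trans e))]
        decide
      · by_cases hva' : v = p a'
        · have e3 : dg K v = 1 := by
            have e4 := hd1 a'
            rw [← hva'] at e4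
            have e5 : 0 < dg K v := by
              rw [dg, Finset.card_pos]
              exact ⟨o a', mem_nb.2 (by rw [hva']; exact hKa')⟩
            omega
          rw [e3, if_neg hva, if_pos hva']
          decide
        · have e3 : dg K v = 2 := leaf2 K hd2 hpaa' hr1 hv hva hva' (hd1 a) (hd1 a')
          rw [e3, if_neg hva, if_neg hva']
          decide
    · have hva : v ≠ p a := by
        rintro rfl
        exact hv (SimpleGraph.Reachable.refl _)
      have hva' : v ≠ p a' := by
        rintro rfl
        exact hv hr1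
      rw [if_neg hv, if_neg hva, if_neg hva']
      rfl
  obtain ⟨ψ, hψ1, hψ2⟩ := exists_pot R hG hP f hsum
  have hFF : FF R ψ := hψ1
  have hz2 : ∀ x y : ZMod 2, 0 = x + y → x = y := by decide
  -- the darts of the ring
  set D : Fin r → G.Dart := fun t => ⟨(p t, o t), hH (hR.adj t)⟩ with hD
  have hXb : ∀ z, K.Reachable (p b) z → ¬ X z := by
    intro z hz hx
    exact hnot (hx.trans hz.symm)
  -- (i)
  have hi : ∀ z, K.Reachable (p b) z → ∀ d : G.Dart, d.fst = z → H.Adj d.fst d.snd →
      ψ d = ψ (D b) := by
    intro z hz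
    rw [SimpleGraph.reachable_iff_reflTransGen] at hz
    induction hz with
    | refl =>
      intro d hd hH'
      have e : d = D b := by
        apply SimpleGraph.Dart.ext
        refine Prod.ext hd ?_
        rw [hd] at hH'
        exact hR.one b _ hH'
      rw [e]
    | @tail z z' hz hzz' ih =>
      have hzr : K.Reachable (p b) z := (SimpleGraph.reachable_iff_reflTransGen _ _).2 hz
      have hzr' : K.Reachable (p b) z' := hzr.trans hzz'.reachable
      have hHzz' : H.Adj z z' := hKH _ _ hzz'
      set d0 : G.Dart := ⟨(z, z'), hH hHzz'⟩ with hd0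
      have e1 : ψ d0 = ψ (D b) := ih d0 rfl hHzz'
      have e2 : f (de d0) = 0 := by
        rw [hfd]
        show χ z z' + (if K.Adj z z' ∧ X z then 1 else 0) = 0
        rw [hχH z z' hHzz', if_neg (fun h => hXb z hzr h.2), add_zero]
      have e3 : ψ d0.symm = ψ (D b) := by
        have e4 := hψ2 d0
        rw [e2] at e4
        rw [← hz2 _ _ e4, e1]
      have hfst : d0.symm.fst = z' := rfl
      intro d hd hH'
      by_cases hex : ∃ w, (G \ H).Adj z' w
      · obtain ⟨w, hw⟩ := hex
        rcases hT2 z' w hw with ⟨t, ht⟩ | hno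
        · have e5 : z = o t := hR.one t z (by rw [← ht]; exact hHzz'.symm)
          have e6 : d.snd = o t := hR.one t _ (by rw [← ht, ← hd]; exact hH')
          have e7 : d = d0.symm := by
            apply SimpleGraph.Dart.ext
            exact Prod.ext hd (e6.trans e5.symm)
          rw [e7, e3]
        · exact absurd hHzz'.symm (hno z)
      · have hloc : ∀ d : G.Dart, d.fst = z' → ψ (R.σ d) = ψ d := by
          intro d hd
          have e5 : f (de d) = 0 := by
            rw [hfd, hd]
            show χ z' d.snd + (if K.Adj z' d.snd ∧ X z' then 1 else 0) = 0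
            rw [hχ2 z' d.snd (fun h => hex ⟨_, h⟩), if_neg (fun h => hXb z' hzr' h.2), add_zero]
          have e6 := hψ2 d
          rw [e5] at e6
          rw [← hψ1 d]
          exact (hz2 _ _ e6).symm
        obtain ⟨j, hj⟩ := (R.cyc d0.symm d (hfst.trans hd.symm)).exists_nat_pow_eq
        have hpow : ∀ j : ℕ, ((R.σ ^ j) d0.symm).fst = z' ∧ ψ ((R.σ ^ j) d0.symm) = ψ d0.symm := by
          intro j
          induction j with
          | zero => exact ⟨rfl, rfl⟩
          | succ j ihj =>
            rw [pow_succ', Equiv.Perm.mul_apply]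
            exact ⟨(R.fst_eq _).trans ihj.1, (hloc _ ihj.1).trans ihj.2⟩
        rw [← hj, (hpow j).2, e3]
  -- (ii)
  set A : Fin r → ZMod 2 := fun t => ψ (D t) with hA
  have hstep : ∀ t, A (t + 1) = A t + if t = a ∨ t = a' then 1 else 0 := by
    intro t
    have e1 : ψ (D t).symm = A (t + 1) := hord ψ hFF t (D t) (D (t + 1)) rfl rfl
    have e2 := hψ2 (D t)
    rw [hfd, e1] at e2
    have e3 : F (D t).fst (D t).snd = if t = a ∨ t = a' then 1 else 0 := by
      show χ (p t) (o t) + (if K.Adj (p t) (o t) ∧ X (p t) then 1 else 0) = _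
      rw [hχH _ _ (hR.adj t), zero_add]
      by_cases hta : t = a
      · subst hta
        rw [if_pos ⟨hKa, SimpleGraph.Reachable.refl _⟩, if_pos (Or.inl rfl)]
      · by_cases hta' : t = a'
        · subst hta'
          rw [if_pos ⟨hKa', hr1⟩, if_pos (Or.inr rfl)]
        · rw [if_neg, if_neg]
          · rintro (h | h)
            · exact hta h
            · exact hta' h
          · rintro ⟨_, hx⟩
            exact leaf K hd2 hpaa' (fun e => hta (hR.inj e).symm) (fun e => hta' (hR.inj e).symm)
              hr1 hx (hd1 a) (hd1 a') (hd1 t)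
    rw [e3] at e2
    have e4 : ∀ x y z : ZMod 2, x = y + z → z = y + x := by decide
    exact e4 _ _ _ e2
  have hadd : ∀ (n : ℕ) (hn : n + 1 < r), (⟨n, by omega⟩ : Fin r) + 1 = ⟨n + 1, hn⟩ := by
    intro n hn
    apply Fin.ext
    rw [Fin.val_add, Fin.val_one']
    show (n + 1 % r) % r = n + 1
    rw [Nat.mod_eq_of_lt (show 1 < r by omega), Nat.mod_eq_of_lt hn]
  have hrun : ∀ n : ℕ, b.val ≤ n → ∀ hn : n < r,
      A ⟨n, hn⟩ = A b + if a'.val < n then 1 else 0 := by
    intro n hbn
    induction n, hbn using Nat.le_induction with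
    | base =>
      intro hn
      have : ¬ a'.val < b.val := by
        have := h2
        rw [Fin.lt_def] at this
        omega
      rw [if_neg this, add_zero]
    | succ n hbn ih =>
      intro hn
      have e1 := hstep ⟨n, by omega⟩
      rw [hadd n hn, ih (by omega)] at e1
      rw [e1]
      have e2 : (⟨n, by omega⟩ : Fin r) ≠ a := by
        intro e
        have e' := congrArg Fin.val e
        simp only at e'
        rw [Fin.lt_def] at h1
        omega
      by_cases hna : n = a'.val
      · have e3 : (⟨n, by omega⟩ : Fin r) = a' := Fin.ext hna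
        rw [if_neg (show ¬ a'.val < n by omega), if_pos (Or.inr e3),
          if_pos (show a'.val < n + 1 by omega), add_zero]
      · have e3 : ¬ ((⟨n, by omega⟩ : Fin r) = a ∨ (⟨n, by omega⟩ : Fin r) = a') := by
          rintro (h | h)
          · exact e2 h
          · exact hna (congrArg Fin.val h)
        rw [if_neg e3, add_zero]
        by_cases hlt : a'.val < n
        · rw [if_pos hlt, if_pos (show a'.val < n + 1 by omega)]
        · rw [if_neg hlt, if_neg (show ¬ a'.val < n + 1 by omega)]
  have hend := hrun b'.val (by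
    have e1 := h2.trans h3
    rw [Fin.lt_def] at e1
    omega) b'.isLt
  rw [if_pos (show a'.val < b'.val by rw [Fin.lt_def] at h3; exact h3)] at hend
  have hend2 : A b' = A b := hi (p b') hr2 (D b') rfl (hR.adj b')
  have hend3 : A ⟨b'.val, b'.isLt⟩ = A b := hend2
  rw [hend3] at hend
  have : ∀ x : ZMod 2, x = x + 1 → False := by decide
  exact this _ hend

end Pool.Agent.Helper68.AV
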