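import Pool.Agent.Helper68.AV.Defs

/-!
# Project AV (MP_028d9b_co): rotations at vertices of degree two and three

`nx R a b` is the neighbour of `a` which comes after `b` in the rotation, `ps ψ a b` is the value of the function
`ψ` on the dart from `a` to `b`.
-/

set_option autoImplicit false

namespace Pool.Agent.Helper68.AV

open Pool.Agent.Helper52.AH Pool.Agent.Helper31.AH

variable {V : Type} [Fintype V] [DecidableEq V] {G : SimpleGraph V} [DecidableRel G.Adj]

/-- the neighbour of `a` which comes after `b` -/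
def nx (R : Rot G) (a b : V) : V := if h : G.Adj a b then (R.σ ⟨(a, b), h⟩).snd else b

omit [Fintype V] [DecidableEq V] in
theorem nx_eq (R : Rot G) {a b : V} (h : G.Adj a b) : nx R a b = (R.σ ⟨(a, b), h⟩).snd := by
  simp [nx, h]

theorem nx_adj (R : Rot G) {a b : V} (h : G.Adj a b) : G.Adj a (nx R a b) := by
  rw [nx_eq R h]
  have h1 := (R.σ ⟨(a, b), h⟩).adj
  have h2 : (R.σ ⟨(a, b), h⟩).fst = a := R.fst_eq _
  rw [h2] at h1
  exact h1

theorem sig (R : Rot G) {a b : V} (h : G.Adj a b) :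
    R.σ ⟨(a, b), h⟩ = ⟨(a, nx R a b), nx_adj R h⟩ := by
  have h2 : (R.σ ⟨(a, b), h⟩).fst = a := R.fst_eq _
  apply SimpleGraph.Dart.ext
  exact Prod.ext h2 (nx_eq R h).symm

theorem nx_inj (R : Rot G) {a b c : V} (hb : G.Adj a b) (hc : G.Adj a c)
    (h : nx R a b = nx R a c) : b = c := by
  have h1 : R.σ ⟨(a, b), hb⟩ = R.σ ⟨(a, c), hc⟩ := by
    rw [sig R hb, sig R hc]
    apply SimpleGraph.Dart.ext
    exact Prod.ext rfl h
  have h2 := R.σ.injective h1
  have h3 := congrArg (fun d : G.Dart => d.snd) h2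
  exact h3

/-- the neighbours of `a` form one cycle -/
theorem nx_closed (R : Rot G) {a : V} (S : V → Prop) (hS : ∀ b, G.Adj a b → S b → S (nx R a b))
    {b c : V} (hb : G.Adj a b) (hc : G.Adj a c) (h : S b) : S c := by
  have hsc : R.σ.SameCycle ⟨(a, b), hb⟩ ⟨(a, c), hc⟩ := R.cyc _ _ rfl
  obtain ⟨i, hi⟩ := hsc.exists_nat_pow_eq
  have key : ∀ j : ℕ, S (((R.σ ^ j) ⟨(a, b), hb⟩ : G.Dart).snd) ∧
      ((R.σ ^ j) ⟨(a, b), hb⟩ : G.Dart).fst = a := by
    intro j
    induction j with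
    | zero => exact ⟨h, rfl⟩
    | succ j ih =>
      rw [pow_succ', Equiv.Perm.mul_apply]
      generalize (R.σ ^ j) ⟨(a, b), hb⟩ = d at ih
      obtain ⟨⟨p, q⟩, hd⟩ := d
      obtain ⟨e1, e2⟩ := ih
      have e3 : p = a := e2
      subst e3
      rw [sig R hd]
      exact ⟨hS q hd e1, rfl⟩
  have h2 := (key i).1
  rw [hi] at h2
  exact h2

theorem nx_ne (R : Rot G) {a b c : V} (hb : G.Adj a b) (hc : G.Adj a c) (hbc : b ≠ c) :
    nx R a b ≠ b := by
  intro h
  exact hbc (nx_closed R (fun z => z = b) (fun z _ hz => by rw [hz, h]) hb hc rfl).symm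

theorem nx_two (R : Rot G) {a b c : V} (hb : G.Adj a b) (hc : G.Adj a c) (hbc : b ≠ c)
    (hall : ∀ z, G.Adj a z → z = b ∨ z = c) : nx R a b = c ∧ nx R a c = b := by
  constructor
  · rcases hall _ (nx_adj R hb) with h | h
    · exact absurd h (nx_ne R hb hc hbc)
    · exact h
  · rcases hall _ (nx_adj R hc) with h | h
    · exact h
    · exact absurd h (nx_ne R hc hb hbc.symm)

theorem nx_three_aux (R : Rot G) {a b c d : V} (hb : G.Adj a b) (hc : G.Adj a c) (hd : G.Adj a d)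
    (hbc : b ≠ c) (hbd : b ≠ d) (hcd : c ≠ d) (hall : ∀ z, G.Adj a z → z = b ∨ z = c ∨ z = d)
    (h : nx R a b = c) : nx R a c = d ∧ nx R a d = b := by
  have h1 : nx R a c = d := by
    rcases hall _ (nx_adj R hc) with h1 | h1 | h1
    · exfalso
      have h2 := nx_closed R (fun z => z = b ∨ z = c)
        (fun z _ hz => by rcases hz with hz | hz <;> rw [hz] <;> simp [h, h1]) hb hd (Or.inl rfl)
      rcases h2 with h2 | h2
      · exact hbd h2.symm
      · exact hcd h2.symm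
    · exact absurd h1 (nx_ne R hc hb hbc.symm)
    · exact h1
  refine ⟨h1, ?_⟩
  rcases hall _ (nx_adj R hd) with h2 | h2 | h2
  · exact h2
  · exact absurd (nx_inj R hd hb (h2.trans h.symm)) hbd.symm
  · exact absurd h2 (nx_ne R hd hb hbd.symm)

/-- the rotation at a vertex of degree three -/
theorem nx_three (R : Rot G) {a b c d : V} (hb : G.Adj a b) (hc : G.Adj a c) (hd : G.Adj a d)
    (hbc : b ≠ c) (hbd : b ≠ d) (hcd : c ≠ d) (hall : ∀ z, G.Adj a z → z = b ∨ z = c ∨ z = d) :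
    (nx R a b = c ∧ nx R a c = d ∧ nx R a d = b) ∨
      (nx R a b = d ∧ nx R a d = c ∧ nx R a c = b) := by
  rcases hall _ (nx_adj R hb) with h | h | h
  · exact absurd h (nx_ne R hb hc hbc)
  · exact Or.inl ⟨h, nx_three_aux R hb hc hd hbc hbd hcd hall h⟩
  · refine Or.inr ⟨h, nx_three_aux R hb hd hc hbd hbc hcd.symm (fun z hz => ?_) h⟩
    rcases hall z hz with h1 | h1 | h1
    · exact Or.inl h1
    · exact Or.inr (Or.inr h1)
    · exact Or.inr (Or.inl h1)

/-- the value of `ψ` on the dart from `a` to `b` -/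
def ps (ψ : G.Dart → ZMod 2) (a b : V) : ZMod 2 := if h : G.Adj a b then ψ ⟨(a, b), h⟩ else 0

omit [Fintype V] [DecidableEq V] in
theorem ps_adj (ψ : G.Dart → ZMod 2) {a b : V} (h : G.Adj a b) : ps ψ a b = ψ ⟨(a, b), h⟩ := by
  simp [ps, h]

omit [Fintype V] [DecidableEq V] in
theorem ps_dart (ψ : G.Dart → ZMod 2) (d : G.Dart) {a b : V} (h : d.toProd = (a, b)) :
    ψ d = ps ψ a b := by
  obtain ⟨⟨p, q⟩, hd⟩ := d
  have h1 : p = a := congrArg Prod.fst h
  have h2 : q = b := congrArg Prod.snd h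
  subst h1 h2
  exact (ps_adj ψ hd).symm

omit [Fintype V] [DecidableEq V] in
theorem ps_symm (ψ : G.Dart → ZMod 2) (d : G.Dart) {a b : V} (h : d.toProd = (a, b)) :
    ψ d.symm = ps ψ b a := by
  obtain ⟨⟨p, q⟩, hd⟩ := d
  have h1 : p = a := congrArg Prod.fst h
  have h2 : q = b := congrArg Prod.snd h
  subst h1 h2
  exact (ps_adj ψ hd.symm).symm

/-- the step along a face -/
theorem ff_step {R : Rot G} {ψ : G.Dart → ZMod 2} (hψ : FF R ψ) {a b : V} (h : G.Adj a b) :
    ps ψ b a = ps ψ a (nx R a b) := by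
  have h1 := hψ ⟨(a, b), h⟩
  rw [sig R h] at h1
  rw [ps_adj ψ h.symm, ps_adj ψ (nx_adj R h)]
  exact h1

/-- a leaf `l` (neighbours `v`, `x`, `l'`) with the vertex `x` of degree two (neighbours `l`, `x'`): the two ring
edges in their order on the way around -/
theorem leaf_ring (R : Rot G) {v l x x' l' : V} (hv : G.Adj l v) (hx : G.Adj l x)
    (hl : G.Adj l l') (hvx : v ≠ x) (hvl : v ≠ l') (hxl : x ≠ l')
    (hall : ∀ z, G.Adj l z → z = v ∨ z = x ∨ z = l') (hx' : G.Adj x x') (hne : x' ≠ l)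
    (hallx : ∀ z, G.Adj x z → z = l ∨ z = x') :
    ∃ a : Bool, ∀ ψ : G.Dart → ZMod 2, FF R ψ →
      ps ψ v l = ps ψ (if a then x else l) (if a then x' else l') ∧
      ps ψ (if a then x' else l') (if a then x else l) =
        ps ψ (if a then l else x) (if a then l' else x') ∧
      ps ψ (if a then l' else x') (if a then l else x) = ps ψ v (nx R v l) := by
  obtain ⟨t1, t2⟩ := nx_two R hx.symm hx' hne.symm hallx
  rcases nx_three R hv hx hl hvx hvl hxl hall with ⟨h1, h2, h3⟩ | ⟨h1, h2, h3⟩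
  · refine ⟨true, fun ψ hψ => ?_⟩
    simp only [if_true]
    refine ⟨?_, ?_, ?_⟩
    · rw [ff_step hψ hv, h1, ff_step hψ hx.symm, t1]
    · rw [ff_step hψ hx', t2, ff_step hψ hx, h2]
    · rw [ff_step hψ hl, h3, ff_step hψ hv.symm]
  · refine ⟨false, fun ψ hψ => ?_⟩
    simp only [Bool.false_eq_true, if_false]
    refine ⟨?_, ?_, ?_⟩
    · rw [ff_step hψ hv, h1]
    · rw [ff_step hψ hl, h2, ff_step hψ hx.symm, t1]
    · rw [ff_step hψ hx', t2, ff_step hψ hx, h3, ff_step hψ hv.symm]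

end Pool.Agent.Helper68.AV
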