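import Pool.Agent.Helper68.AV.Near
import Pool.Agent.Helper68.AV.Jordan
import Pool.Agent.Helper68.AV.RotL

/-!
# Project AV (MP_028d9b_co): a vertex of degree three whose neighbours all have a neighbour of degree two
-/

set_option autoImplicit false

namespace Pool.Agent.Helper68.AV

open Pool.Agent.Helper52.AH Pool.Agent.Helper31.AH

/-- the surroundings of a leaf `l`: its neighbours are `v`, `x`, `l'`, those of `x` are `l`, `x'` -/
structure LeafAt {V : Type} (G : SimpleGraph V) (v l x x' l' : V) : Prop where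
  lv : G.Adj l v
  lx : G.Adj l x
  ll : G.Adj l l'
  vx : v ≠ x
  vl : v ≠ l'
  xl : x ≠ l'
  all : ∀ z, G.Adj l z → z = v ∨ z = x ∨ z = l'
  xx : G.Adj x x'
  ne : x' ≠ l
  allx : ∀ z, G.Adj x z → z = l ∨ z = x'

theorem leafAt_of {V : Type} [Fintype V] {G : SimpleGraph V} {v l x : V} (hv : G.Adj v l)
    (dv : dg G v = 3) (dl : dg G l = 3) (hx : G.Adj l x) (dx : dg G x = 2) :
    ∃ x' l', LeafAt G v l x x' l' := by
  have hvx : v ≠ x := by
    rintro rfl
    omega
  obtain ⟨l', h1, h2, h3, h4⟩ := near_third dl hv.symm hx hvx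
  obtain ⟨x', k1, k2, k3⟩ := near_other dx hx.symm
  exact ⟨x', l', hv.symm, hx, h1, hvx, h2.symm, h3.symm, h4, k1, k2, k3⟩

/-! ## the case of a square -/

theorem clsq_mem (e : Fin 6 × Fin 6) (he : e ∈ clsqC.E) :
    e = ((0, 1) : Fin 6 × Fin 6) ∨ e = ((0, 2) : Fin 6 × Fin 6) ∨ e = ((0, 3) : Fin 6 × Fin 6) ∨
      e = ((1, 4) : Fin 6 × Fin 6) ∨ e = ((2, 4) : Fin 6 × Fin 6) ∨
      e = ((3, 5) : Fin 6 × Fin 6) := by
  have h : e ∈ ([(0, 1), (0, 2), (0, 3), (1, 4), (2, 4), (3, 5)] : List (Fin 6 × Fin 6)) := he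
  simpa using h

theorem clsq_emb {V : Type} {G : SimpleGraph V} {v u w t x z u' w' t' z' xu xw : V}
    (huw : u ≠ w) (hut : u ≠ t) (hwt : w ≠ t) (hv : ∀ a, G.Adj v a → a = u ∨ a = w ∨ a = t)
    (hxz : x ≠ z) (hux : u ≠ z) (hwz : w ≠ z) (htx : t ≠ x)
    (hu : LeafAt G v u x xu u') (hw : LeafAt G v w x xw w') (ht : LeafAt G v t z z' t') :
    Emb G clsqC (![v, u, w, t, x, z] : Fin 6 → V) (![u', w', t', z'] : Fin 4 → V) where
  inj := by
    have a1 : v ≠ u := hu.lv.ne.symm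
    have a2 : v ≠ w := hw.lv.ne.symm
    have a3 : v ≠ t := ht.lv.ne.symm
    have a4 : v ≠ x := hu.vx
    have a5 : v ≠ z := ht.vx
    have a6 : u ≠ x := hu.lx.ne
    have a7 : w ≠ x := hw.lx.ne
    have a8 : t ≠ z := ht.lx.ne
    intro (i : Fin 6) (j : Fin 6) hij
    fin_cases i <;> fin_cases j <;> first
      | rfl
      | exact absurd hij a1
      | exact absurd hij a2
      | exact absurd hij a3
      | exact absurd hij a4
      | exact absurd hij a5
      | exact absurd hij a6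
      | exact absurd hij a7
      | exact absurd hij a8
      | exact absurd hij huw
      | exact absurd hij hut
      | exact absurd hij hwt
      | exact absurd hij hxz
      | exact absurd hij hux
      | exact absurd hij hwz
      | exact absurd hij htx
      | exact absurd hij a1.symm
      | exact absurd hij a2.symm
      | exact absurd hij a3.symm
      | exact absurd hij a4.symm
      | exact absurd hij a5.symm
      | exact absurd hij a6.symm
      | exact absurd hij a7.symm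
      | exact absurd hij a8.symm
      | exact absurd hij huw.symm
      | exact absurd hij hut.symm
      | exact absurd hij hwt.symm
      | exact absurd hij hxz.symm
      | exact absurd hij hux.symm
      | exact absurd hij hwz.symm
      | exact absurd hij htx.symm
  adjE := by
    intro e he
    rcases clsq_mem e he with rfl | rfl | rfl | rfl | rfl | rfl
    · exact hu.lv.symm
    · exact hw.lv.symm
    · exact ht.lv.symm
    · exact hu.lx
    · exact hw.lx
    · exact ht.lx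
  adjR := by
    intro (k : Fin 4)
    fin_cases k
    · exact hu.ll
    · exact hw.ll
    · exact ht.ll
    · exact ht.xx
  sep := by
    intro (k : Fin 4) e he
    rcases clsq_mem e he with rfl | rfl | rfl | rfl | rfl | rfl <;> fin_cases k <;>
      refine ⟨?_, ?_⟩ <;> first
      | exact fun h => absurd h.1 (by decide)
      | exact fun h => hu.vl h.2.symm
      | exact fun h => hw.vl h.2.symm
      | exact fun h => ht.vl h.2.symm
      | exact fun h => hu.xl h.2.symm
      | exact fun h => hw.xl h.2.symm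
      | exact fun h => ht.xl h.2.symm
      | exact fun h => ht.ne h.2
  all := by
    have m1 : ((0, 1) : Fin 6 × Fin 6) ∈ clsqC.E := by
      show ((0, 1) : Fin 6 × Fin 6) ∈ ([(0, 1), (0, 2), (0, 3), (1, 4), (2, 4), (3, 5)] : List (Fin 6 × Fin 6))
      simp
    have m2 : ((0, 2) : Fin 6 × Fin 6) ∈ clsqC.E := by
      show ((0, 2) : Fin 6 × Fin 6) ∈ ([(0, 1), (0, 2), (0, 3), (1, 4), (2, 4), (3, 5)] : List (Fin 6 × Fin 6))
      simp
    have m3 : ((0, 3) : Fin 6 × Fin 6) ∈ clsqC.E := by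
      show ((0, 3) : Fin 6 × Fin 6) ∈ ([(0, 1), (0, 2), (0, 3), (1, 4), (2, 4), (3, 5)] : List (Fin 6 × Fin 6))
      simp
    have m4 : ((1, 4) : Fin 6 × Fin 6) ∈ clsqC.E := by
      show ((1, 4) : Fin 6 × Fin 6) ∈ ([(0, 1), (0, 2), (0, 3), (1, 4), (2, 4), (3, 5)] : List (Fin 6 × Fin 6))
      simp
    have m5 : ((2, 4) : Fin 6 × Fin 6) ∈ clsqC.E := by
      show ((2, 4) : Fin 6 × Fin 6) ∈ ([(0, 1), (0, 2), (0, 3), (1, 4), (2, 4), (3, 5)] : List (Fin 6 × Fin 6))
      simp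
    have m6 : ((3, 5) : Fin 6 × Fin 6) ∈ clsqC.E := by
      show ((3, 5) : Fin 6 × Fin 6) ∈ ([(0, 1), (0, 2), (0, 3), (1, 4), (2, 4), (3, 5)] : List (Fin 6 × Fin 6))
      simp
    have hxall : ∀ a, G.Adj x a → a = u ∨ a = w := by
      intro a ha
      rcases hu.allx a ha with h | h
      · exact Or.inl h
      · rcases hw.allx a ha with h' | h'
        · exact Or.inr h'
        · -- `w` is the other neighbour of `x`
          rcases hu.allx w hw.lx.symm with h1 | h1
          · exact absurd h1.symm huw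
          · exact Or.inr (h.trans h1.symm)
    intro (i : Fin 6) a ha
    fin_cases i
    · rcases hv a ha with rfl | rfl | rfl
      · exact Or.inl ⟨_, m1, Or.inl ⟨rfl, rfl⟩⟩
      · exact Or.inl ⟨_, m2, Or.inl ⟨rfl, rfl⟩⟩
      · exact Or.inl ⟨_, m3, Or.inl ⟨rfl, rfl⟩⟩
    · rcases hu.all a ha with rfl | rfl | rfl
      · exact Or.inl ⟨_, m1, Or.inr ⟨rfl, rfl⟩⟩
      · exact Or.inl ⟨_, m4, Or.inl ⟨rfl, rfl⟩⟩
      · exact Or.inr ⟨(0 : Fin 4), rfl, rfl⟩
    · rcases hw.all a ha with rfl | rfl | rfl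
      · exact Or.inl ⟨_, m2, Or.inr ⟨rfl, rfl⟩⟩
      · exact Or.inl ⟨_, m5, Or.inl ⟨rfl, rfl⟩⟩
      · exact Or.inr ⟨(1 : Fin 4), rfl, rfl⟩
    · rcases ht.all a ha with rfl | rfl | rfl
      · exact Or.inl ⟨_, m3, Or.inr ⟨rfl, rfl⟩⟩
      · exact Or.inl ⟨_, m6, Or.inl ⟨rfl, rfl⟩⟩
      · exact Or.inr ⟨(2 : Fin 4), rfl, rfl⟩
    · rcases hxall a ha with rfl | rfl
      · exact Or.inl ⟨_, m4, Or.inr ⟨rfl, rfl⟩⟩
      · exact Or.inl ⟨_, m5, Or.inr ⟨rfl, rfl⟩⟩
    · rcases ht.allx a ha with rfl | rfl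
      · exact Or.inl ⟨_, m6, Or.inr ⟨rfl, rfl⟩⟩
      · exact Or.inr ⟨(3 : Fin 4), rfl, rfl⟩

theorem claw_square {V : Type} [Fintype V] {G : SimpleGraph V} (hC : Crit G)
    (hk1 : Kill clsqC False) {v u w t x z : V} (hvu : G.Adj v u) (hvw : G.Adj v w)
    (hvt : G.Adj v t) (huw : u ≠ w) (hut : u ≠ t) (hwt : w ≠ t) (dv : dg G v = 3)
    (du : dg G u = 3) (dw : dg G w = 3) (dt : dg G t = 3) (hux : G.Adj u x) (hwx : G.Adj w x)
    (htz : G.Adj t z) (dx : dg G x = 2) (dz : dg G z = 2) : False := by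
  obtain ⟨v', e1, e2, e3, e4⟩ := near_third dv hvu hvw huw
  have hv't : v' = t := by
    rcases e4 t hvt with h | h | h
    · exact absurd h hut.symm
    · exact absurd h hwt.symm
    · exact h.symm
  subst hv't
  obtain ⟨xu, u', hu⟩ := leafAt_of hvu dv du hux dx
  obtain ⟨xw, w', hw⟩ := leafAt_of hvw dv dw hwx dx
  obtain ⟨z', t', ht⟩ := leafAt_of hvt dv dt htz dz
  have hxall : ∀ a, G.Adj x a → a = u ∨ a = w := by
    intro a ha
    rcases hu.allx a ha with h | h
    · exact Or.inl h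
    · rcases hu.allx w hw.lx.symm with h1 | h1
      · exact absurd h1.symm huw
      · exact Or.inr (h.trans h1.symm)
  have hxz : x ≠ z := by
    rintro rfl
    rcases hxall _ ht.lx.symm with h | h
    · exact hut h.symm
    · exact hwt h.symm
  have huz : u ≠ z := by
    rintro rfl
    omega
  have hwz : w ≠ z := by
    rintro rfl
    omega
  have htx : v' ≠ x := by
    rintro rfl
    omega
  have hE := clsq_emb huw hut hwt e4 hxz huz hwz htx hu hw ht
  have hP : Function.Injective (![1, 2, 3, 5] : Fin 4 → Fin 6) := by decide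
  exact red hC hE (List.cons_ne_nil _ _) (cl_of (rng_of hE hP) False fun h => h.elim) hk1

/-! ## the general case -/

theorem clawC_mem (a b c : Bool) (e : Fin 7 × Fin 7) (he : e ∈ (clawC a b c).E) :
    e = ((0, 1) : Fin 7 × Fin 7) ∨ e = ((0, 2) : Fin 7 × Fin 7) ∨ e = ((0, 3) : Fin 7 × Fin 7) ∨
      e = ((1, 4) : Fin 7 × Fin 7) ∨ e = ((2, 5) : Fin 7 × Fin 7) ∨
      e = ((3, 6) : Fin 7 × Fin 7) := by
  have h : e ∈ ([(0, 1), (0, 2), (0, 3), (1, 4), (2, 5), (3, 6)] : List (Fin 7 × Fin 7)) := he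
  simpa using h

theorem clawC_inj : ∀ a b c : Bool, Function.Injective (clawC a b c).P := by
  have h : ∀ a b c : Bool, Function.Injective (![if a then 4 else 1, if a then 1 else 4,
      if b then 5 else 2, if b then 2 else 5, if c then 6 else 3, if c then 3 else 6] :
      Fin 6 → Fin 7) := by decide
  exact h

/-- the ends of the ring edges -/
def clO {V : Type} (a b c : Bool) (u' w' t' x' y' z' : V) : Fin 6 → V :=
  ![if a then x' else u', if a then u' else x', if b then y' else w', if b then w' else y',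
    if c then z' else t', if c then t' else z']

theorem clO_ring {V : Type} (a b c : Bool) (u' w' t' x' y' z' : V) (k : Fin 6) :
    ((clawC a b c).P k = (1 : Fin 7) ∧ clO a b c u' w' t' x' y' z' k = u') ∨
      ((clawC a b c).P k = (2 : Fin 7) ∧ clO a b c u' w' t' x' y' z' k = w') ∨
      ((clawC a b c).P k = (3 : Fin 7) ∧ clO a b c u' w' t' x' y' z' k = t') ∨
      ((clawC a b c).P k = (4 : Fin 7) ∧ clO a b c u' w' t' x' y' z' k = x') ∨
      ((clawC a b c).P k = (5 : Fin 7) ∧ clO a b c u' w' t' x' y' z' k = y') ∨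
      ((clawC a b c).P k = (6 : Fin 7) ∧ clO a b c u' w' t' x' y' z' k = z') := by
  cases a <;> cases b <;> cases c <;> fin_cases k <;> first
    | exact Or.inl ⟨rfl, rfl⟩
    | exact Or.inr (Or.inl ⟨rfl, rfl⟩)
    | exact Or.inr (Or.inr (Or.inl ⟨rfl, rfl⟩))
    | exact Or.inr (Or.inr (Or.inr (Or.inl ⟨rfl, rfl⟩)))
    | exact Or.inr (Or.inr (Or.inr (Or.inr (Or.inl ⟨rfl, rfl⟩))))
    | exact Or.inr (Or.inr (Or.inr (Or.inr (Or.inr ⟨rfl, rfl⟩))))

theorem clO_at1 {V : Type} (a b c : Bool) (u' w' t' x' y' z' : V) :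
    ∃ k : Fin (clawC a b c).r, (clawC a b c).P k = (1 : Fin 7) ∧
      clO a b c u' w' t' x' y' z' k = u' :=
  ⟨(if a then 1 else 0 : Fin 6), by cases a <;> exact ⟨rfl, rfl⟩⟩

theorem clO_at2 {V : Type} (a b c : Bool) (u' w' t' x' y' z' : V) :
    ∃ k : Fin (clawC a b c).r, (clawC a b c).P k = (2 : Fin 7) ∧
      clO a b c u' w' t' x' y' z' k = w' :=
  ⟨(if b then 3 else 2 : Fin 6), by cases b <;> exact ⟨rfl, rfl⟩⟩

theorem clO_at3 {V : Type} (a b c : Bool) (u' w' t' x' y' z' : V) :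
    ∃ k : Fin (clawC a b c).r, (clawC a b c).P k = (3 : Fin 7) ∧
      clO a b c u' w' t' x' y' z' k = t' :=
  ⟨(if c then 5 else 4 : Fin 6), by cases c <;> exact ⟨rfl, rfl⟩⟩

theorem clO_at4 {V : Type} (a b c : Bool) (u' w' t' x' y' z' : V) :
    ∃ k : Fin (clawC a b c).r, (clawC a b c).P k = (4 : Fin 7) ∧
      clO a b c u' w' t' x' y' z' k = x' :=
  ⟨(if a then 0 else 1 : Fin 6), by cases a <;> exact ⟨rfl, rfl⟩⟩

theorem clO_at5 {V : Type} (a b c : Bool) (u' w' t' x' y' z' : V) :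
    ∃ k : Fin (clawC a b c).r, (clawC a b c).P k = (5 : Fin 7) ∧
      clO a b c u' w' t' x' y' z' k = y' :=
  ⟨(if b then 2 else 3 : Fin 6), by cases b <;> exact ⟨rfl, rfl⟩⟩

theorem clO_at6 {V : Type} (a b c : Bool) (u' w' t' x' y' z' : V) :
    ∃ k : Fin (clawC a b c).r, (clawC a b c).P k = (6 : Fin 7) ∧
      clO a b c u' w' t' x' y' z' k = z' :=
  ⟨(if c then 4 else 5 : Fin 6), by cases c <;> exact ⟨rfl, rfl⟩⟩

/-- the names -/
def clF {V : Type} (v u w t x y z : V) : Fin 7 → V := ![v, u, w, t, x, y, z]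

theorem claw_emb {V : Type} {G : SimpleGraph V} {v u w t x y z u' w' t' x' y' z' : V}
    (a b c : Bool) (huw : u ≠ w) (hut : u ≠ t) (hwt : w ≠ t)
    (hv : ∀ s, G.Adj v s → s = u ∨ s = w ∨ s = t) (hxy : x ≠ y) (hxz : x ≠ z) (hyz : y ≠ z)
    (huy : u ≠ y) (huz : u ≠ z) (hwx : w ≠ x) (hwz : w ≠ z) (htx : t ≠ x) (hty : t ≠ y)
    (hu : LeafAt G v u x x' u') (hw : LeafAt G v w y y' w') (ht : LeafAt G v t z z' t') :
    Emb G (clawC a b c) (clF v u w t x y z) (clO a b c u' w' t' x' y' z') where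
  inj := by
    have a1 : v ≠ u := hu.lv.ne.symm
    have a2 : v ≠ w := hw.lv.ne.symm
    have a3 : v ≠ t := ht.lv.ne.symm
    have a4 : v ≠ x := hu.vx
    have a5 : v ≠ y := hw.vx
    have a6 : v ≠ z := ht.vx
    have a7 : u ≠ x := hu.lx.ne
    have a8 : w ≠ y := hw.lx.ne
    have a9 : t ≠ z := ht.lx.ne
    intro (i : Fin 7) (j : Fin 7) hij
    fin_cases i <;> fin_cases j <;> first
      | rfl
      | exact absurd hij a1
      | exact absurd hij a2
      | exact absurd hij a3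
      | exact absurd hij a4
      | exact absurd hij a5
      | exact absurd hij a6
      | exact absurd hij a7
      | exact absurd hij a8
      | exact absurd hij a9
      | exact absurd hij huw
      | exact absurd hij hut
      | exact absurd hij hwt
      | exact absurd hij hxy
      | exact absurd hij hxz
      | exact absurd hij hyz
      | exact absurd hij huy
      | exact absurd hij huz
      | exact absurd hij hwx
      | exact absurd hij hwz
      | exact absurd hij htx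
      | exact absurd hij hty
      | exact absurd hij a1.symm
      | exact absurd hij a2.symm
      | exact absurd hij a3.symm
      | exact absurd hij a4.symm
      | exact absurd hij a5.symm
      | exact absurd hij a6.symm
      | exact absurd hij a7.symm
      | exact absurd hij a8.symm
      | exact absurd hij a9.symm
      | exact absurd hij huw.symm
      | exact absurd hij hut.symm
      | exact absurd hij hwt.symm
      | exact absurd hij hxy.symm
      | exact absurd hij hxz.symm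
      | exact absurd hij hyz.symm
      | exact absurd hij huy.symm
      | exact absurd hij huz.symm
      | exact absurd hij hwx.symm
      | exact absurd hij hwz.symm
      | exact absurd hij htx.symm
      | exact absurd hij hty.symm
  adjE := by
    intro e he
    rcases clawC_mem a b c e he with rfl | rfl | rfl | rfl | rfl | rfl
    · exact hu.lv.symm
    · exact hw.lv.symm
    · exact ht.lv.symm
    · exact hu.lx
    · exact hw.lx
    · exact ht.lx
  adjR := by
    intro (k : Fin 6)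
    rcases clO_ring a b c u' w' t' x' y' z' k with h | h | h | h | h | h <;>
      rw [h.1, h.2]
    · exact hu.ll
    · exact hw.ll
    · exact ht.ll
    · exact hu.xx
    · exact hw.xx
    · exact ht.xx
  sep := by
    intro (k : Fin 6) e he
    have key : ∀ (q : Fin 7) (p : V) (e : Fin 7 × Fin 7),
        ((q = 1 ∧ p = u') ∨ (q = 2 ∧ p = w') ∨ (q = 3 ∧ p = t') ∨ (q = 4 ∧ p = x') ∨
          (q = 5 ∧ p = y') ∨ (q = 6 ∧ p = z')) →
        (e = (0, 1) ∨ e = (0, 2) ∨ e = (0, 3) ∨ e = (1, 4) ∨ e = (2, 5) ∨ e = (3, 6)) →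
        ¬ (q = e.1 ∧ p = clF v u w t x y z e.2) ∧ ¬ (q = e.2 ∧ p = clF v u w t x y z e.1) := by
      intro q p e h h'
      rcases h with h | h | h | h | h | h <;> obtain ⟨h1, h2⟩ := h <;> subst h1 <;> subst h2 <;>
        rcases h' with rfl | rfl | rfl | rfl | rfl | rfl <;>
        refine ⟨?_, ?_⟩ <;> first
        | exact fun h => absurd h.1 (by decide)
        | exact fun h => hu.vl h.2.symm
        | exact fun h => hw.vl h.2.symm
        | exact fun h => ht.vl h.2.symm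
        | exact fun h => hu.xl h.2.symm
        | exact fun h => hw.xl h.2.symm
        | exact fun h => ht.xl h.2.symm
        | exact fun h => hu.ne h.2
        | exact fun h => hw.ne h.2
        | exact fun h => ht.ne h.2
    exact key _ _ e (clO_ring a b c u' w' t' x' y' z' k) (clawC_mem a b c e he)
  all := by
    have m1 : ((0, 1) : Fin 7 × Fin 7) ∈ (clawC a b c).E := by
      show ((0, 1) : Fin 7 × Fin 7) ∈ ([(0, 1), (0, 2), (0, 3), (1, 4), (2, 5), (3, 6)] : List (Fin 7 × Fin 7))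
      simp
    have m2 : ((0, 2) : Fin 7 × Fin 7) ∈ (clawC a b c).E := by
      show ((0, 2) : Fin 7 × Fin 7) ∈ ([(0, 1), (0, 2), (0, 3), (1, 4), (2, 5), (3, 6)] : List (Fin 7 × Fin 7))
      simp
    have m3 : ((0, 3) : Fin 7 × Fin 7) ∈ (clawC a b c).E := by
      show ((0, 3) : Fin 7 × Fin 7) ∈ ([(0, 1), (0, 2), (0, 3), (1, 4), (2, 5), (3, 6)] : List (Fin 7 × Fin 7))
      simp
    have m4 : ((1, 4) : Fin 7 × Fin 7) ∈ (clawC a b c).E := by
      show ((1, 4) : Fin 7 × Fin 7) ∈ ([(0, 1), (0, 2), (0, 3), (1, 4), (2, 5), (3, 6)] : List (Fin 7 × Fin 7))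
      simp
    have m5 : ((2, 5) : Fin 7 × Fin 7) ∈ (clawC a b c).E := by
      show ((2, 5) : Fin 7 × Fin 7) ∈ ([(0, 1), (0, 2), (0, 3), (1, 4), (2, 5), (3, 6)] : List (Fin 7 × Fin 7))
      simp
    have m6 : ((3, 6) : Fin 7 × Fin 7) ∈ (clawC a b c).E := by
      show ((3, 6) : Fin 7 × Fin 7) ∈ ([(0, 1), (0, 2), (0, 3), (1, 4), (2, 5), (3, 6)] : List (Fin 7 × Fin 7))
      simp
    intro (i : Fin 7) s hs
    fin_cases i
    · rcases hv s hs with rfl | rfl | rfl
      · exact Or.inl ⟨_, m1, Or.inl ⟨rfl, rfl⟩⟩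
      · exact Or.inl ⟨_, m2, Or.inl ⟨rfl, rfl⟩⟩
      · exact Or.inl ⟨_, m3, Or.inl ⟨rfl, rfl⟩⟩
    · rcases hu.all s hs with rfl | rfl | rfl
      · exact Or.inl ⟨_, m1, Or.inr ⟨rfl, rfl⟩⟩
      · exact Or.inl ⟨_, m4, Or.inl ⟨rfl, rfl⟩⟩
      · exact Or.inr (clO_at1 a b c _ w' t' x' y' z')
    · rcases hw.all s hs with rfl | rfl | rfl
      · exact Or.inl ⟨_, m2, Or.inr ⟨rfl, rfl⟩⟩
      · exact Or.inl ⟨_, m5, Or.inl ⟨rfl, rfl⟩⟩
      · exact Or.inr (clO_at2 a b c u' _ t' x' y' z')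
    · rcases ht.all s hs with rfl | rfl | rfl
      · exact Or.inl ⟨_, m3, Or.inr ⟨rfl, rfl⟩⟩
      · exact Or.inl ⟨_, m6, Or.inl ⟨rfl, rfl⟩⟩
      · exact Or.inr (clO_at3 a b c u' w' _ x' y' z')
    · rcases hu.allx s hs with rfl | rfl
      · exact Or.inl ⟨_, m4, Or.inr ⟨rfl, rfl⟩⟩
      · exact Or.inr (clO_at4 a b c u' w' t' _ y' z')
    · rcases hw.allx s hs with rfl | rfl
      · exact Or.inl ⟨_, m5, Or.inr ⟨rfl, rfl⟩⟩
      · exact Or.inr (clO_at5 a b c u' w' t' x' _ z')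
    · rcases ht.allx s hs with rfl | rfl
      · exact Or.inl ⟨_, m6, Or.inr ⟨rfl, rfl⟩⟩
      · exact Or.inr (clO_at6 a b c u' w' t' x' y' _)

theorem claw_gen {V : Type} [Fintype V] [DecidableEq V] {G : SimpleGraph V} [DecidableRel G.Adj]
    (R : Rot G) (hG : G.Connected) (hPl : R.Planar) (hC : Crit G)
    (hk : ∀ a b c, Kill (clawC a b c) True) {v u w t x y z u' w' t' x' y' z' : V}
    (huw : u ≠ w) (hut : u ≠ t) (hwt : w ≠ t)
    (hv : ∀ s, G.Adj v s → s = u ∨ s = w ∨ s = t) (hxy : x ≠ y) (hxz : x ≠ z) (hyz : y ≠ z)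
    (huy : u ≠ y) (huz : u ≠ z) (hwx : w ≠ x) (hwz : w ≠ z) (htx : t ≠ x) (hty : t ≠ y)
    (hu : LeafAt G v u x x' u') (hw : LeafAt G v w y y' w') (ht : LeafAt G v t z z' t')
    (r1 : nx R v u = w) (r2 : nx R v w = t) (r3 : nx R v t = u) : False := by
  obtain ⟨a, ha⟩ := leaf_ring R hu.lv hu.lx hu.ll hu.vx hu.vl hu.xl hu.all hu.xx hu.ne hu.allx
  obtain ⟨b, hb⟩ := leaf_ring R hw.lv hw.lx hw.ll hw.vx hw.vl hw.xl hw.all hw.xx hw.ne hw.allx
  obtain ⟨c, hc⟩ := leaf_ring R ht.lv ht.lx ht.ll ht.vx ht.vl ht.xl ht.all ht.xx ht.ne ht.allx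
  have hE := claw_emb a b c huw hut hwt hv hxy hxz hyz huy huz hwx hwz htx hty hu hw ht
  have hRng := rng_of hE (clawC_inj a b c)
  have hH : cut G (clawC a b c) (clF v u w t x y z) ≤ G := fun _ _ h => h.1
  have hr : ∀ i : Fin 7, (G \ cut G (clawC a b c) (clF v u w t x y z)).Reachable v
      (clF v u w t x y z i) := by
    have m1 := tadj hE ((0, 1) : Fin 7 × Fin 7) (by
      show ((0, 1) : Fin 7 × Fin 7) ∈ ([(0, 1), (0, 2), (0, 3), (1, 4), (2, 5), (3, 6)] : List (Fin 7 × Fin 7))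
      simp)
    have m2 := tadj hE ((0, 2) : Fin 7 × Fin 7) (by
      show ((0, 2) : Fin 7 × Fin 7) ∈ ([(0, 1), (0, 2), (0, 3), (1, 4), (2, 5), (3, 6)] : List (Fin 7 × Fin 7))
      simp)
    have m3 := tadj hE ((0, 3) : Fin 7 × Fin 7) (by
      show ((0, 3) : Fin 7 × Fin 7) ∈ ([(0, 1), (0, 2), (0, 3), (1, 4), (2, 5), (3, 6)] : List (Fin 7 × Fin 7))
      simp)
    have m4 := tadj hE ((1, 4) : Fin 7 × Fin 7) (by
      show ((1, 4) : Fin 7 × Fin 7) ∈ ([(0, 1), (0, 2), (0, 3), (1, 4), (2, 5), (3, 6)] : List (Fin 7 × Fin 7))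
      simp)
    have m5 := tadj hE ((2, 5) : Fin 7 × Fin 7) (by
      show ((2, 5) : Fin 7 × Fin 7) ∈ ([(0, 1), (0, 2), (0, 3), (1, 4), (2, 5), (3, 6)] : List (Fin 7 × Fin 7))
      simp)
    have m6 := tadj hE ((3, 6) : Fin 7 × Fin 7) (by
      show ((3, 6) : Fin 7 × Fin 7) ∈ ([(0, 1), (0, 2), (0, 3), (1, 4), (2, 5), (3, 6)] : List (Fin 7 × Fin 7))
      simp)
    intro i
    fin_cases i
    · exact SimpleGraph.Reachable.refl _
    · exact m1.reachable
    · exact m2.reachable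
    · exact m3.reachable
    · exact m1.reachable.trans m4.reachable
    · exact m2.reachable.trans m5.reachable
    · exact m3.reachable.trans m6.reachable
  have hT : ∀ k l : Fin 6, (G \ cut G (clawC a b c) (clF v u w t x y z)).Reachable
      (clF v u w t x y z ((clawC a b c).P k)) (clF v u w t x y z ((clawC a b c).P l)) :=
    fun k l => (hr _).symm.trans (hr _)
  have hord : ∀ ψ : G.Dart → ZMod 2, FF R ψ → ∀ (k : Fin 6) (d d' : G.Dart),
      d.toProd = (clF v u w t x y z ((clawC a b c).P k), clO a b c u' w' t' x' y' z' k) →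
      d'.toProd = (clF v u w t x y z ((clawC a b c).P (k + 1 : Fin 6)),
        clO a b c u' w' t' x' y' z' (k + 1)) → ψ d.symm = ψ d' := by
    intro ψ hψ k d d' h1 h2
    rw [ps_symm ψ d h1, ps_dart ψ d' h2]
    obtain ⟨A1, A2, A3⟩ := ha ψ hψ
    obtain ⟨B1, B2, B3⟩ := hb ψ hψ
    obtain ⟨C1, C2, C3⟩ := hc ψ hψ
    rw [r1] at A3
    rw [r2] at B3
    rw [r3] at C3
    have D1 := A3.trans B1
    have D3 := B3.trans C1
    have D5 := C3.trans A1
    clear ha hb hc hE hRng hH hr hT h1 h2 A1 B1 C1 A3 B3 C3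
    fin_cases k
    · cases a <;> exact A2
    · cases a <;> cases b <;> exact D1
    · cases b <;> exact B2
    · cases b <;> cases c <;> exact D3
    · cases c <;> exact C2
    · cases c <;> cases a <;> exact D5
  refine red hC hE (List.cons_ne_nil _ _) (cl_of hRng True ?_) (hk a b c)
  intro _ c' hc' i a1 b1 a2 b2 h1 h2 h3 h4 h5
  exact nc_of (r := 6) R hG hPl hH hRng hT (hT2_of hE) hord hc' i a1 b1 a2 b2 h1 h2 h3 h4 h5

theorem claw_of {V : Type} [Fintype V] [DecidableEq V] {G : SimpleGraph V} [DecidableRel G.Adj]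
    (R : Rot G) (hG : G.Connected) (hP : R.Planar) (hC : Crit G) (hd : ∀ v, dg G v ≤ 3)
    (h5 : ∀ u w, G.Adj u w → 5 ≤ dg G u + dg G w)
    (h2 : ∀ v x y, G.Adj v x → G.Adj v y → x ≠ y → dg G x = 2 → dg G y ≠ 2)
    (hk : ∀ a b c, Kill (clawC a b c) True) (hk1 : Kill clsqC False) :
    ∀ v u w t x y z, G.Adj v u → G.Adj v w → G.Adj v t → u ≠ w → u ≠ t → w ≠ t → dg G v = 3 →
      dg G u = 3 → dg G w = 3 → dg G t = 3 → G.Adj u x → G.Adj w y → G.Adj t z → dg G x = 2 →
      dg G y = 2 → dg G z ≠ 2 := by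
  intro v u w t x y z hvu hvw hvt huw hut hwt dv du dw dt hux hwy htz dx dy dz
  by_cases hxy : x = y
  · subst hxy
    exact claw_square hC hk1 hvu hvw hvt huw hut hwt dv du dw dt hux hwy htz dx dz
  by_cases hxz : x = z
  · subst hxz
    exact claw_square hC hk1 hvu hvt hvw hut huw hwt.symm dv du dt dw hux htz hwy dx dy
  by_cases hyz : y = z
  · subst hyz
    exact claw_square hC hk1 hvw hvt hvu hwt huw.symm hut.symm dv dw dt du hwy htz hux dy dx
  obtain ⟨v', e1, e2, e3, e4⟩ := near_third dv hvu hvw huw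
  have hv't : v' = t := by
    rcases e4 t hvt with h | h | h
    · exact absurd h hut.symm
    · exact absurd h hwt.symm
    · exact h.symm
  subst hv't
  obtain ⟨x', u', hu⟩ := leafAt_of hvu dv du hux dx
  obtain ⟨y', w', hw⟩ := leafAt_of hvw dv dw hwy dy
  obtain ⟨z', t', ht⟩ := leafAt_of hvt dv dt htz dz
  have n1 : ∀ p q, dg G p = 3 → dg G q = 2 → p ≠ q := by
    rintro p q h3 h4 rfl
    omega
  rcases nx_three R hvu hvw hvt huw hut hwt e4 with ⟨r1, r2, r3⟩ | ⟨r1, r2, r3⟩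
  · exact claw_gen R hG hP hC hk huw hut hwt e4 hxy hxz hyz (n1 _ _ du dy) (n1 _ _ du dz)
      (n1 _ _ dw dx) (n1 _ _ dw dz) (n1 _ _ dt dx) (n1 _ _ dt dy) hu hw ht r1 r2 r3
  · exact claw_gen R hG hP hC hk hut huw hwt.symm (fun s hs => (e4 s hs).imp_right Or.symm) hxz hxy
      (Ne.symm hyz) (n1 _ _ du dz) (n1 _ _ du dy) (n1 _ _ dt dx) (n1 _ _ dt dy) (n1 _ _ dw dx)
      (n1 _ _ dw dz) hu ht hw r1 r2 r3

end Pool.Agent.Helper68.AV
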