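import Pool.Agent.Helper68.AV.Defs

/-!
# Project AV (MP_028d9b_co): a configuration in a graph, reduction

`col_of_good`: the edges of the configuration get the colours `e`, the other edges keep theirs. `red`: without one
edge of the configuration the graph is colourable, so there is a state; closedness under Kempe changes leads to a
state which fits, so the graph is colourable, a contradiction.
-/

set_option autoImplicit false

namespace Pool.Agent.Helper68.AV

open Pool.Agent.Helper52.AH Pool.Agent.Helper31.AH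

theorem rng_of {V : Type} {G : SimpleGraph V} {C : Cfg} {φ : Fin C.n → V} {o : Fin C.r → V}
    (hE : Emb G C φ o) (hP : Function.Injective C.P) :
    Rng (cut G C φ) (fun t => φ (C.P t)) o where
  inj := hE.inj.comp hP
  adj t := by
    refine ⟨hE.adjR t, fun e he h => ?_⟩
    have hs := hE.sep t e he
    rcases h with ⟨h1, h2⟩ | ⟨h1, h2⟩
    · exact hs.1 ⟨(hE.inj h1).symm, h2.symm⟩
    · exact hs.2 ⟨(hE.inj h2).symm, h1.symm⟩
  one t w h := by
    rcases hE.all (C.P t) w h.1 with ⟨e, he, h1⟩ | ⟨t', h1, h2⟩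
    · exfalso
      refine h.2 e he ?_
      rcases h1 with ⟨h1, h2⟩ | ⟨h1, h2⟩
      · exact Or.inl ⟨by rw [h1], h2⟩
      · exact Or.inr ⟨h2, by rw [h1]⟩
    · rw [← h2, hP h1]

theorem tadj {V : Type} {G : SimpleGraph V} {C : Cfg} {φ : Fin C.n → V} {o : Fin C.r → V}
    (hE : Emb G C φ o) : ∀ e ∈ C.E, (G \ cut G C φ).Adj (φ e.1) (φ e.2) := by
  intro e he
  rw [SimpleGraph.sdiff_adj]
  exact ⟨hE.adjE e he, fun h => h.2 e he (Or.inl ⟨rfl, rfl⟩)⟩

/-- an edge of the configuration -/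
theorem emb_mem_of_sdiff {V : Type} {G : SimpleGraph V} {C : Cfg} {φ : Fin C.n → V} {z w : V}
    (h : (G \ cut G C φ).Adj z w) :
    ∃ e ∈ C.E, (φ e.1 = z ∧ φ e.2 = w) ∨ (φ e.1 = w ∧ φ e.2 = z) := by
  rw [SimpleGraph.sdiff_adj] at h
  by_contra hcon
  push Not at hcon
  refine h.2 ⟨h.1, fun e he h' => ?_⟩
  have h1 := hcon e he
  rcases h' with ⟨h2, h3⟩ | ⟨h2, h3⟩
  · exact h1.1 h2 h3
  · exact h1.2 h2 h3

/-- an edge of `H` at a name is a ring edge -/
theorem emb_ring_of_cut {V : Type} {G : SimpleGraph V} {C : Cfg} {φ : Fin C.n → V} {o : Fin C.r → V}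
    (hE : Emb G C φ o) {i : Fin C.n} {w : V} (h : (cut G C φ).Adj (φ i) w) :
    ∃ t, C.P t = i ∧ o t = w := by
  rcases hE.all i w h.1 with ⟨e, he, h1⟩ | h1
  · exfalso
    refine h.2 e he ?_
    rcases h1 with ⟨h1, h2⟩ | ⟨h1, h2⟩
    · exact Or.inl ⟨by rw [h1], h2⟩
    · exact Or.inr ⟨h2, by rw [h1]⟩
  · exact h1

theorem hT2_of {V : Type} {G : SimpleGraph V} {C : Cfg} {φ : Fin C.n → V} {o : Fin C.r → V}
    (hE : Emb G C φ o) : ∀ z w, (G \ cut G C φ).Adj z w →
      (∃ t, z = φ (C.P t)) ∨ ∀ w', ¬ (cut G C φ).Adj z w' := by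
  intro z w h
  by_cases hw : ∃ w', (cut G C φ).Adj z w'
  · left
    obtain ⟨w', hw'⟩ := hw
    obtain ⟨e, he, h1⟩ := emb_mem_of_sdiff h
    rcases h1 with ⟨h1, -⟩ | ⟨-, h1⟩
    · rw [← h1] at hw' ⊢
      obtain ⟨t, ht, -⟩ := emb_ring_of_cut hE hw'
      exact ⟨t, by rw [ht]⟩
    · rw [← h1] at hw' ⊢
      obtain ⟨t, ht, -⟩ := emb_ring_of_cut hE hw'
      exact ⟨t, by rw [ht]⟩
  · right
    push Not at hw
    exact hw

/-- the coloured edge `a` of the configuration is `v w` -/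
def EmbIs {V : Type} {n : ℕ} (φ : Fin n → V) (a : (Fin n × Fin n) × Fin 3) (v w : V) : Prop :=
  (φ a.1.1 = v ∧ φ a.1.2 = w) ∨ (φ a.1.1 = w ∧ φ a.1.2 = v)

open Classical in
/-- the new colouring -/
noncomputable def embCol {V : Type} {n : ℕ} (φ : Fin n → V) (L : List ((Fin n × Fin n) × Fin 3))
    (c : V → V → Fin 3) (v w : V) : Fin 3 :=
  (L.find? fun a => decide (EmbIs φ a v w)).elim (c v w) Prod.snd

theorem embCol_symm {V : Type} {n : ℕ} (φ : Fin n → V) (L : List ((Fin n × Fin n) × Fin 3))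
    {c : V → V → Fin 3} (hc : ∀ v w, c v w = c w v) (v w : V) :
    embCol φ L c v w = embCol φ L c w v := by
  classical
  unfold embCol
  have h : (fun a => decide (EmbIs φ a v w)) = fun a => decide (EmbIs φ a w v) := by
    funext a
    exact decide_eq_decide.2 or_comm
  rw [h, hc v w]

theorem embCol_spec {V : Type} {n : ℕ} (φ : Fin n → V) (L : List ((Fin n × Fin n) × Fin 3))
    (c : V → V → Fin 3) (v w : V) :
    (∃ a ∈ L, EmbIs φ a v w ∧ embCol φ L c v w = a.2) ∨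
      ((∀ a ∈ L, ¬ EmbIs φ a v w) ∧ embCol φ L c v w = c v w) := by
  classical
  unfold embCol
  cases h : L.find? fun a => decide (EmbIs φ a v w) with
  | none =>
    right
    refine ⟨fun a ha => ?_, rfl⟩
    have := List.find?_eq_none.1 h a ha
    simpa using this
  | some a =>
    left
    refine ⟨a, List.mem_of_find?_eq_some h, ?_, rfl⟩
    have := List.find?_some h
    simpa using this

theorem col_of_good {V : Type} {G : SimpleGraph V} {C : Cfg} {φ : Fin C.n → V}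
    {o : Fin C.r → V} (hE : Emb G C φ o) {s : Fin C.r → Fin 3} {e : List (Fin 3)}
    (hg : good C s e) (hs : Stt (cut G C φ) (fun t => φ (C.P t)) o s) : Col3 G := by
  obtain ⟨c, hc, hcs⟩ := hs
  obtain ⟨hlen, hpw, hring⟩ := hg
  set L := C.E.zip e with hL
  -- all edges of the configuration are coloured
  have hall : ∀ x ∈ C.E, ∃ a ∈ L, a.1 = x := by
    intro x hx
    have h1 : L.map Prod.fst = C.E := by
      rw [hL, List.map_fst_zip]
      exact hlen.ge
    rw [← h1] at hx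
    obtain ⟨a, ha, h2⟩ := List.mem_map.1 hx
    exact ⟨a, ha, h2⟩
  -- an edge without colour is in `H`
  have hcut : ∀ v w, G.Adj v w → (∀ a ∈ L, ¬ EmbIs φ a v w) → (cut G C φ).Adj v w := by
    intro v w hvw hn
    refine ⟨hvw, fun x hx h => ?_⟩
    obtain ⟨a, ha, rfl⟩ := hall x hx
    exact hn a ha h
  -- a coloured and a not coloured edge
  have hmix : ∀ v w w', G.Adj v w' → ∀ a ∈ L, EmbIs φ a v w → (∀ b ∈ L, ¬ EmbIs φ b v w') →
      a.2 ≠ c v w' := by
    intro v w w' hvw' a ha hIs hn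
    have h1 := hcut v w' hvw' hn
    rcases hIs with ⟨h2, -⟩ | ⟨-, h2⟩
    · rw [← h2] at h1 ⊢
      obtain ⟨t, ht, ho⟩ := emb_ring_of_cut hE h1
      rw [← ho, ← ht, hcs t]
      exact hring a ha t (Or.inl ht)
    · rw [← h2] at h1 ⊢
      obtain ⟨t, ht, ho⟩ := emb_ring_of_cut hE h1
      rw [← ho, ← ht, hcs t]
      exact hring a ha t (Or.inr ht)
  refine ⟨embCol φ L c, embCol_symm φ L hc.symm, ?_⟩
  intro v w w' hvw hvw' hne
  rcases embCol_spec φ L c v w with ⟨a, ha, h1, h2⟩ | ⟨h1, h2⟩ <;>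
    rcases embCol_spec φ L c v w' with ⟨b, hb, h3, h4⟩ | ⟨h3, h4⟩
  · rw [h2, h4]
    have hab : a ≠ b := by
      rintro rfl
      apply hne
      rcases h1 with ⟨x1, x2⟩ | ⟨x1, x2⟩ <;> rcases h3 with ⟨y1, y2⟩ | ⟨y1, y2⟩
      · rw [← x2, y2]
      · exact absurd hvw (by rw [← x2, y2]; exact G.loopless.irrefl v)
      · exact absurd hvw (by rw [← x1, y1]; exact G.loopless.irrefl v)
      · rw [← x1, y1]
    have hsym : Std.Symm fun a b : (Fin C.n × Fin C.n) × Fin 3 =>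
        (a.1.1 = b.1.1 ∨ a.1.1 = b.1.2 ∨ a.1.2 = b.1.1 ∨ a.1.2 = b.1.2) → a.2 ≠ b.2 := by
      refine ⟨fun a b h h' => ?_⟩
      refine (h ?_).symm
      rcases h' with h' | h' | h' | h'
      · exact Or.inl h'.symm
      · exact Or.inr (Or.inr (Or.inl h'.symm))
      · exact Or.inr (Or.inl h'.symm)
      · exact Or.inr (Or.inr (Or.inr h'.symm))
    refine hpw.forall ha hb hab ?_
    rcases h1 with ⟨x1, -⟩ | ⟨-, x1⟩ <;> rcases h3 with ⟨y1, -⟩ | ⟨-, y1⟩
    · exact Or.inl (hE.inj (by rw [x1, y1]))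
    · exact Or.inr (Or.inl (hE.inj (by rw [x1, y1])))
    · exact Or.inr (Or.inr (Or.inl (hE.inj (by rw [x1, y1]))))
    · exact Or.inr (Or.inr (Or.inr (hE.inj (by rw [x1, y1]))))
  · rw [h2, h4]
    exact hmix v w w' hvw' a ha h1 h3
  · rw [h2, h4]
    exact (hmix v w' w hvw b hb h3 h1).symm
  · rw [h2, h4]
    exact hc.prop v w w' (hcut v w hvw h1) (hcut v w' hvw' h3) hne

theorem red {V : Type} [Fintype V] {G : SimpleGraph V} (hG : Crit G) {C : Cfg}
    {φ : Fin C.n → V} {o : Fin C.r → V} (hE : Emb G C φ o) (hne : C.E ≠ []) {pl : Prop}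
    (hcl : Cl pl (Stt (cut G C φ) (fun t => φ (C.P t)) o)) (hk : Kill C pl) : False := by
  obtain ⟨e, he⟩ := List.exists_mem_of_ne_nil _ hne
  obtain ⟨c, hc⟩ := hG.yes (φ e.1) (φ e.2) (hE.adjE e he)
  have hle : ∀ v w, (cut G C φ).Adj v w → (G.deleteEdges {s(φ e.1, φ e.2)}).Adj v w := by
    intro v w h
    rw [SimpleGraph.deleteEdges_adj]
    refine ⟨h.1, fun h' => h.2 e he ?_⟩
    rw [Set.mem_singleton_iff, Sym2.eq_iff] at h'
    rcases h' with ⟨h1, h2⟩ | ⟨h1, h2⟩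
    · exact Or.inl ⟨h1.symm, h2.symm⟩
    · exact Or.inr ⟨h2.symm, h1.symm⟩
  refine hk _ hcl (fun s l hs hl => hG.no (col_of_good hE hl hs))
    (fun t => c (φ (C.P t)) (o t)) ⟨c, ⟨hc.symm, ?_⟩, fun t => rfl⟩
  intro v w w' h1 h2 h3
  exact hc.prop v w w' (hle v w h1) (hle v w' h2) h3

end Pool.Agent.Helper68.AV
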