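import Pool.Agent.Helper68.AV.Kempe
import Pool.Agent.Helper68.AV.Jordan
import Pool.Agent.Helper68.AV.Embed

/-!
# Project AV (MP_028d9b_co): three consecutive vertices of degree three, each with a neighbour of degree two
-/

set_option autoImplicit false

namespace Pool.Agent.Helper68.AV

open Pool.Agent.Helper52.AH Pool.Agent.Helper31.AH

namespace Cb

section nbs

variable {V : Type} [Fintype V] {G : SimpleGraph V}

theorem nb_sub {v : V} {S : Finset V} (h : ∀ a ∈ S, G.Adj v a) (hc : dg G v ≤ S.card) : ∀ w, G.Adj v w → w ∈ S := by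
  have h1 : S ⊆ nb G v := fun a ha => mem_nb.2 (h a ha)
  have h2 := Finset.eq_of_subset_of_card_le h1 hc
  intro w hw
  rw [h2]
  exact mem_nb.2 hw

theorem nb3 {v a b c : V} (hd : dg G v = 3) (ha : G.Adj v a) (hb : G.Adj v b) (hc : G.Adj v c) (hab : a ≠ b)
    (hac : a ≠ c) (hbc : b ≠ c) (w : V) (hw : G.Adj v w) : w = a ∨ w = b ∨ w = c := by
  classical
  have h1 : ({a, b, c} : Finset V).card = 3 := Finset.card_eq_three.2 ⟨a, b, c, hab, hac, hbc, rfl⟩
  have h2 := nb_sub (G := G) (v := v) (S := {a, b, c}) (by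
    intro z hz
    simp only [Finset.mem_insert, Finset.mem_singleton] at hz
    rcases hz with rfl | rfl | rfl <;> assumption) (by rw [hd, h1]) w hw
  simpa using h2

theorem nb2 {v a b : V} (hd : dg G v = 2) (ha : G.Adj v a) (hb : G.Adj v b) (hab : a ≠ b) (w : V) (hw : G.Adj v w) :
    w = a ∨ w = b := by
  classical
  have h1 : ({a, b} : Finset V).card = 2 := Finset.card_pair hab
  have h2 := nb_sub (G := G) (v := v) (S := {a, b}) (by
    intro z hz
    simp only [Finset.mem_insert, Finset.mem_singleton] at hz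
    rcases hz with rfl | rfl <;> assumption) (by rw [hd, h1]) w hw
  simpa using h2

theorem ex3 {v : V} (a b : V) (hd : dg G v = 3) : ∃ c, G.Adj v c ∧ c ≠ a ∧ c ≠ b := by
  classical
  by_contra hcon
  push Not at hcon
  have h1 : nb G v ⊆ {a, b} := by
    intro w hw
    rw [mem_nb] at hw
    rw [Finset.mem_insert, Finset.mem_singleton]
    by_cases h : w = a
    · exact Or.inl h
    · exact Or.inr (hcon w hw h)
  have h2 := Finset.card_le_card h1
  have h3 := Finset.card_le_two (a := a) (b := b)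
  rw [dg] at hd
  omega

theorem ex2 {v : V} (a : V) (hd : dg G v = 2) : ∃ c, G.Adj v c ∧ c ≠ a := by
  classical
  by_contra hcon
  push Not at hcon
  have h1 : nb G v ⊆ {a} := by
    intro w hw
    rw [mem_nb] at hw
    rw [Finset.mem_singleton]
    exact hcon w hw
  have h2 := Finset.card_le_card h1
  rw [Finset.card_singleton] at h2
  rw [dg] at hd
  omega

end nbs

section rot

variable {V : Type} [Fintype V] [DecidableEq V] {G : SimpleGraph V} [DecidableRel G.Adj]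

/-- the dart after `a b` is `a c` -/
def St (R : Rot G) (a b c : V) : Prop := ∃ (h : G.Adj a b) (h' : G.Adj a c), R.σ ⟨(a, b), h⟩ = ⟨(a, c), h'⟩

theorem orb {α : Type} [Finite α] {σ : Equiv.Perm α} {x y : α} (h : σ.SameCycle x y) {P : α → Prop}
    (hP : ∀ z, P z → P (σ z)) (hx : P x) : P y := by
  obtain ⟨i, -, hi⟩ := h.exists_pow_eq'
  rw [← hi]
  clear hi
  induction i with
  | zero => simpa using hx
  | succ i ih =>
    rw [pow_succ', Equiv.Perm.mul_apply]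
    exact hP _ ih

theorem st_ex (R : Rot G) {a b : V} (h : G.Adj a b) : ∃ c, G.Adj a c ∧ St R a b c := by
  have h1 := R.fst_eq ⟨(a, b), h⟩
  obtain ⟨d, hd⟩ : ∃ d, d = R.σ ⟨(a, b), h⟩ := ⟨_, rfl⟩
  rw [← hd] at h1
  obtain ⟨⟨p, q⟩, hpq⟩ := d
  change p = a at h1
  subst h1
  exact ⟨q, hpq, h, hpq, hd.symm⟩

theorem st_inj {R : Rot G} {a b b' c : V} (h : St R a b c) (h' : St R a b' c) : b = b' := by
  obtain ⟨h1, h2, h3⟩ := h
  obtain ⟨h4, h5, h6⟩ := h'
  have h7 := R.σ.injective (h3.trans h6.symm)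
  have h8 := congrArg (fun d : G.Dart => d.snd) h7
  exact h8

theorem st_ne {R : Rot G} {a b c : V} (h : St R a b b) (hc : G.Adj a c) : c = b := by
  obtain ⟨h1, h2, h3⟩ := h
  have h4 : (⟨(a, c), hc⟩ : G.Dart) = ⟨(a, b), h1⟩ := orb (R.cyc ⟨(a, b), h1⟩ ⟨(a, c), hc⟩ rfl)
    (P := fun d => d = ⟨(a, b), h1⟩) (by
      rintro z rfl
      exact h3) rfl
  exact congrArg (fun d : G.Dart => d.snd) h4

theorem st_two {R : Rot G} {a b c d : V} (h : St R a b c) (h' : St R a c b) (hd : G.Adj a d) : d = b ∨ d = c := by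
  obtain ⟨h1, h2, h3⟩ := h
  obtain ⟨h4, h5, h6⟩ := h'
  have h7 : (⟨(a, d), hd⟩ : G.Dart) = ⟨(a, b), h1⟩ ∨ (⟨(a, d), hd⟩ : G.Dart) = ⟨(a, c), h2⟩ :=
    orb (R.cyc ⟨(a, b), h1⟩ ⟨(a, d), hd⟩ rfl) (P := fun d => d = ⟨(a, b), h1⟩ ∨ d = ⟨(a, c), h2⟩) (by
      rintro z (rfl | rfl)
      · exact Or.inr h3
      · exact Or.inl h6) (Or.inl rfl)
  rcases h7 with h7 | h7
  · exact Or.inl (congrArg (fun d : G.Dart => d.snd) h7)
  · exact Or.inr (congrArg (fun d : G.Dart => d.snd) h7)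

theorem rot2 (R : Rot G) {v a b : V} (ha : G.Adj v a) (hb : G.Adj v b) (hab : a ≠ b)
    (hn : ∀ w, G.Adj v w → w = a ∨ w = b) : St R v a b ∧ St R v b a := by
  obtain ⟨p, hp, hp'⟩ := st_ex R ha
  obtain ⟨q, hq, hq'⟩ := st_ex R hb
  constructor
  · rcases hn p hp with rfl | rfl
    · exact absurd (st_ne hp' hb).symm hab
    · exact hp'
  · rcases hn q hq with rfl | rfl
    · exact hq'
    · exact absurd (st_ne hq' ha) hab

theorem rot3' {R : Rot G} {v a b c : V} (h : St R v a b) (ha : G.Adj v a) (hb : G.Adj v b) (hc : G.Adj v c) (hac : a ≠ c)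
    (hbc : b ≠ c) (hn : ∀ w, G.Adj v w → w = a ∨ w = b ∨ w = c) : St R v b c ∧ St R v c a := by
  obtain ⟨p, hp, hp'⟩ := st_ex R hb
  obtain ⟨q, hq, hq'⟩ := st_ex R hc
  constructor
  · rcases hn p hp with rfl | rfl | rfl
    · rcases st_two h hp' hc with h1 | h1
      · exact absurd h1.symm hac
      · exact absurd h1.symm hbc
    · exact absurd (st_ne hp' hc).symm hbc
    · exact hp'
  · rcases hn q hq with rfl | rfl | rfl
    · exact hq'
    · exact absurd (st_inj h hq') hac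
    · exact absurd (st_ne hq' ha) hac

theorem rot3 (R : Rot G) {v a b c : V} (ha : G.Adj v a) (hb : G.Adj v b) (hc : G.Adj v c) (hab : a ≠ b) (hac : a ≠ c)
    (hbc : b ≠ c) (hn : ∀ w, G.Adj v w → w = a ∨ w = b ∨ w = c) :
    (St R v a b ∧ St R v b c ∧ St R v c a) ∨ (St R v a c ∧ St R v c b ∧ St R v b a) := by
  obtain ⟨p, hp, hp'⟩ := st_ex R ha
  rcases hn p hp with rfl | rfl | rfl
  · exact absurd (st_ne hp' hb).symm hab
  · exact Or.inl ⟨hp', rot3' hp' ha hb hc hac hbc hn⟩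
  · refine Or.inr ⟨hp', rot3' hp' ha hc hb hab hbc.symm fun w hw => ?_⟩
    rcases hn w hw with h | h | h
    · exact Or.inl h
    · exact Or.inr (Or.inr h)
    · exact Or.inr (Or.inl h)

/-- the value at the dart `a b` -/
def Fv (ψ : G.Dart → ZMod 2) (a b : V) : ZMod 2 := if h : G.Adj a b then ψ ⟨(a, b), h⟩ else 0

theorem ff_st {R : Rot G} {ψ : G.Dart → ZMod 2} (h : FF R ψ) {a b c : V} (hs : St R a b c) : Fv ψ b a = Fv ψ a c := by
  obtain ⟨h1, h2, h3⟩ := hs
  have h4 := h ⟨(a, b), h1⟩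
  rw [h3] at h4
  unfold Fv
  rw [dif_pos h1.symm, dif_pos h2]
  exact h4

theorem fv_dart {ψ : G.Dart → ZMod 2} {d : G.Dart} {a b : V} (h : d.toProd = (a, b)) : ψ d = Fv ψ a b := by
  obtain ⟨p, hp⟩ := d
  change p = (a, b) at h
  subst h
  unfold Fv
  rw [dif_pos hp]

theorem fv_symm {ψ : G.Dart → ZMod 2} {d : G.Dart} {a b : V} (h : d.toProd = (a, b)) : ψ d.symm = Fv ψ b a := by
  refine fv_dart ?_
  rw [SimpleGraph.Dart.symm_toProd, h]
  rfl

end rot

section emb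

variable {V : Type} {G : SimpleGraph V}

theorem mem5 {α : Type} {e a b c d f : α} (h : e ∈ [a, b, c, d, f]) : e = a ∨ e = b ∨ e = c ∨ e = d ∨ e = f := by
  simpa using h

theorem memC {a b : Bool} (e : Fin 6 × Fin 6) (h : e ∈ ([(0, 1), (1, 2), (0, 3), (1, 4), (2, 5)] : List (Fin 6 × Fin 6))) :
    e ∈ (combC a b).E := h

theorem q01 : ((0 : Fin 6), (1 : Fin 6)) ∈ ([(0, 1), (1, 2), (0, 3), (1, 4), (2, 5)] : List (Fin 6 × Fin 6)) := by decide

theorem q12 : ((1 : Fin 6), (2 : Fin 6)) ∈ ([(0, 1), (1, 2), (0, 3), (1, 4), (2, 5)] : List (Fin 6 × Fin 6)) := by decide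

theorem q03 : ((0 : Fin 6), (3 : Fin 6)) ∈ ([(0, 1), (1, 2), (0, 3), (1, 4), (2, 5)] : List (Fin 6 × Fin 6)) := by decide

theorem q14 : ((1 : Fin 6), (4 : Fin 6)) ∈ ([(0, 1), (1, 2), (0, 3), (1, 4), (2, 5)] : List (Fin 6 × Fin 6)) := by decide

theorem q25 : ((2 : Fin 6), (5 : Fin 6)) ∈ ([(0, 1), (1, 2), (0, 3), (1, 4), (2, 5)] : List (Fin 6 × Fin 6)) := by decide

theorem emb_tri {u v w x z u' w' z' : V} (huv : G.Adj u v) (hvw : G.Adj v w) (hux : G.Adj u x) (hvx : G.Adj v x)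
    (hwz : G.Adj w z) (hu : G.Adj u u') (hw : G.Adj w w') (hz : G.Adj z z') (huw : u ≠ w) (huz : u ≠ z)
    (hvz : v ≠ z) (hwx : w ≠ x) (hxz : x ≠ z) (d1 : u' ≠ v) (d2 : u' ≠ x) (d3 : w' ≠ v) (d4 : w' ≠ z) (d5 : z' ≠ w)
    (nu : ∀ t, G.Adj u t → t = v ∨ t = x ∨ t = u') (nv : ∀ t, G.Adj v t → t = u ∨ t = x ∨ t = w)
    (nw : ∀ t, G.Adj w t → t = v ∨ t = z ∨ t = w') (nx : ∀ t, G.Adj x t → t = u ∨ t = v)
    (nz : ∀ t, G.Adj z t → t = w ∨ t = z') : Emb G triC ![u, v, w, x, z] ![u', w', z'] where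
  inj := by
    have h1 := huv.ne
    have h2 := hvw.ne
    have h3 := hux.ne
    have h4 := hvx.ne
    have h5 := hwz.ne
    change Function.Injective (![u, v, w, x, z] : Fin 5 → V)
    rw [← List.nodup_ofFn]
    simp [List.ofFn_succ, *]
  adjE := by
    intro e he
    have he := mem5 (α := Fin 5 × Fin 5) (a := (0, 1)) (b := (1, 2)) (c := (0, 3)) (d := (1, 3)) (f := (2, 4)) he
    rcases he with rfl | rfl | rfl | rfl | rfl
    · exact huv
    · exact hvw
    · exact hux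
    · exact hvx
    · exact hwz
  adjR := by
    intro t
    fin_cases t
    · exact hu
    · exact hw
    · exact hz
  sep := by
    intro t e he
    have he := mem5 (α := Fin 5 × Fin 5) (a := (0, 1)) (b := (1, 2)) (c := (0, 3)) (d := (1, 3)) (f := (2, 4)) he
    fin_cases t <;> rcases he with rfl | rfl | rfl | rfl | rfl <;>
      refine ⟨fun h => ?_, fun h => ?_⟩ <;>
      first
        | exact absurd h.1 (by decide)
        | exact absurd h.2 d1
        | exact absurd h.2 d2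
        | exact absurd h.2 d3
        | exact absurd h.2 d4
        | exact absurd h.2 d5
  all := by
    intro i t ht
    fin_cases i
    · rcases nu t ht with rfl | rfl | rfl
      · exact Or.inl ⟨((0 : Fin 5), (1 : Fin 5)), by decide, Or.inl ⟨rfl, rfl⟩⟩
      · exact Or.inl ⟨((0 : Fin 5), (3 : Fin 5)), by decide, Or.inl ⟨rfl, rfl⟩⟩
      · exact Or.inr ⟨(0 : Fin 3), rfl, rfl⟩
    · rcases nv t ht with rfl | rfl | rfl
      · exact Or.inl ⟨((0 : Fin 5), (1 : Fin 5)), by decide, Or.inr ⟨rfl, rfl⟩⟩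
      · exact Or.inl ⟨((1 : Fin 5), (3 : Fin 5)), by decide, Or.inl ⟨rfl, rfl⟩⟩
      · exact Or.inl ⟨((1 : Fin 5), (2 : Fin 5)), by decide, Or.inl ⟨rfl, rfl⟩⟩
    · rcases nw t ht with rfl | rfl | rfl
      · exact Or.inl ⟨((1 : Fin 5), (2 : Fin 5)), by decide, Or.inr ⟨rfl, rfl⟩⟩
      · exact Or.inl ⟨((2 : Fin 5), (4 : Fin 5)), by decide, Or.inl ⟨rfl, rfl⟩⟩
      · exact Or.inr ⟨(1 : Fin 3), rfl, rfl⟩
    · rcases nx t ht with rfl | rfl
      · exact Or.inl ⟨((0 : Fin 5), (3 : Fin 5)), by decide, Or.inr ⟨rfl, rfl⟩⟩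
      · exact Or.inl ⟨((1 : Fin 5), (3 : Fin 5)), by decide, Or.inr ⟨rfl, rfl⟩⟩
    · rcases nz t ht with rfl | rfl
      · exact Or.inl ⟨((2 : Fin 5), (4 : Fin 5)), by decide, Or.inr ⟨rfl, rfl⟩⟩
      · exact Or.inr ⟨(2 : Fin 3), rfl, rfl⟩

theorem emb_sq {u v w x y u' w' y' : V} (huv : G.Adj u v) (hvw : G.Adj v w) (hux : G.Adj u x) (hwx : G.Adj w x)
    (hvy : G.Adj v y) (hu : G.Adj u u') (hw : G.Adj w w') (hy : G.Adj y y') (huw : u ≠ w) (huy : u ≠ y)
    (hvx : v ≠ x) (hwy : w ≠ y) (hxy : x ≠ y) (d1 : u' ≠ v) (d2 : u' ≠ x) (d3 : w' ≠ v) (d4 : w' ≠ x) (d5 : y' ≠ v)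
    (nu : ∀ t, G.Adj u t → t = v ∨ t = x ∨ t = u') (nv : ∀ t, G.Adj v t → t = u ∨ t = y ∨ t = w)
    (nw : ∀ t, G.Adj w t → t = v ∨ t = x ∨ t = w') (nx : ∀ t, G.Adj x t → t = u ∨ t = w)
    (ny : ∀ t, G.Adj y t → t = v ∨ t = y') : Emb G sqC ![u, v, w, x, y] ![u', w', y'] where
  inj := by
    have h1 := huv.ne
    have h2 := hvw.ne
    have h3 := hux.ne
    have h4 := hwx.ne
    have h5 := hvy.ne
    change Function.Injective (![u, v, w, x, y] : Fin 5 → V)
    rw [← List.nodup_ofFn]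
    simp [List.ofFn_succ, *]
  adjE := by
    intro e he
    have he := mem5 (α := Fin 5 × Fin 5) (a := (0, 1)) (b := (1, 2)) (c := (0, 3)) (d := (2, 3)) (f := (1, 4)) he
    rcases he with rfl | rfl | rfl | rfl | rfl
    · exact huv
    · exact hvw
    · exact hux
    · exact hwx
    · exact hvy
  adjR := by
    intro t
    fin_cases t
    · exact hu
    · exact hw
    · exact hy
  sep := by
    intro t e he
    have he := mem5 (α := Fin 5 × Fin 5) (a := (0, 1)) (b := (1, 2)) (c := (0, 3)) (d := (2, 3)) (f := (1, 4)) he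
    fin_cases t <;> rcases he with rfl | rfl | rfl | rfl | rfl <;>
      refine ⟨fun h => ?_, fun h => ?_⟩ <;>
      first
        | exact absurd h.1 (by decide)
        | exact absurd h.2 d1
        | exact absurd h.2 d2
        | exact absurd h.2 d3
        | exact absurd h.2 d4
        | exact absurd h.2 d5
  all := by
    intro i t ht
    fin_cases i
    · rcases nu t ht with rfl | rfl | rfl
      · exact Or.inl ⟨((0 : Fin 5), (1 : Fin 5)), by decide, Or.inl ⟨rfl, rfl⟩⟩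
      · exact Or.inl ⟨((0 : Fin 5), (3 : Fin 5)), by decide, Or.inl ⟨rfl, rfl⟩⟩
      · exact Or.inr ⟨(0 : Fin 3), rfl, rfl⟩
    · rcases nv t ht with rfl | rfl | rfl
      · exact Or.inl ⟨((0 : Fin 5), (1 : Fin 5)), by decide, Or.inr ⟨rfl, rfl⟩⟩
      · exact Or.inl ⟨((1 : Fin 5), (4 : Fin 5)), by decide, Or.inl ⟨rfl, rfl⟩⟩
      · exact Or.inl ⟨((1 : Fin 5), (2 : Fin 5)), by decide, Or.inl ⟨rfl, rfl⟩⟩
    · rcases nw t ht with rfl | rfl | rfl
      · exact Or.inl ⟨((1 : Fin 5), (2 : Fin 5)), by decide, Or.inr ⟨rfl, rfl⟩⟩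
      · exact Or.inl ⟨((2 : Fin 5), (3 : Fin 5)), by decide, Or.inl ⟨rfl, rfl⟩⟩
      · exact Or.inr ⟨(1 : Fin 3), rfl, rfl⟩
    · rcases nx t ht with rfl | rfl
      · exact Or.inl ⟨((0 : Fin 5), (3 : Fin 5)), by decide, Or.inr ⟨rfl, rfl⟩⟩
      · exact Or.inl ⟨((2 : Fin 5), (3 : Fin 5)), by decide, Or.inr ⟨rfl, rfl⟩⟩
    · rcases ny t ht with rfl | rfl
      · exact Or.inl ⟨((1 : Fin 5), (4 : Fin 5)), by decide, Or.inr ⟨rfl, rfl⟩⟩
      · exact Or.inr ⟨(2 : Fin 3), rfl, rfl⟩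

theorem emb_comb (a b : Bool) {u v w x y z u' w' x' y' z' : V} (huv : G.Adj u v) (hvw : G.Adj v w) (hux : G.Adj u x)
    (hvy : G.Adj v y) (hwz : G.Adj w z) (hu : G.Adj u u') (hw : G.Adj w w') (hx : G.Adj x x') (hy : G.Adj y y')
    (hz : G.Adj z z') (huw : u ≠ w) (huy : u ≠ y) (huz : u ≠ z) (hvx : v ≠ x) (hvz : v ≠ z) (hwx : w ≠ x)
    (hwy : w ≠ y) (hxy : x ≠ y) (hxz : x ≠ z) (hyz : y ≠ z) (d1 : u' ≠ v) (d2 : u' ≠ x) (d3 : w' ≠ v) (d4 : w' ≠ z)
    (d5 : x' ≠ u) (d6 : y' ≠ v) (d7 : z' ≠ w)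
    (nu : ∀ t, G.Adj u t → t = v ∨ t = x ∨ t = u') (nv : ∀ t, G.Adj v t → t = u ∨ t = y ∨ t = w)
    (nw : ∀ t, G.Adj w t → t = v ∨ t = z ∨ t = w') (nx : ∀ t, G.Adj x t → t = u ∨ t = x')
    (ny : ∀ t, G.Adj y t → t = v ∨ t = y') (nz : ∀ t, G.Adj z t → t = w ∨ t = z') :
    Emb G (combC a b) ![u, v, w, x, y, z]
      ![if a then u' else x', if a then x' else u', y', if b then z' else w', if b then w' else z'] where
  inj := by
    have h1 := huv.ne
    have h2 := hvw.ne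
    have h3 := hux.ne
    have h4 := hvy.ne
    have h5 := hwz.ne
    change Function.Injective (![u, v, w, x, y, z] : Fin 6 → V)
    rw [← List.nodup_ofFn]
    simp [List.ofFn_succ, *]
  adjE := by
    intro e he
    have he := mem5 (α := Fin 6 × Fin 6) (a := (0, 1)) (b := (1, 2)) (c := (0, 3)) (d := (1, 4)) (f := (2, 5)) he
    rcases he with rfl | rfl | rfl | rfl | rfl
    · exact huv
    · exact hvw
    · exact hux
    · exact hvy
    · exact hwz
  adjR := by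
    intro t
    fin_cases t
    · cases a
      · exact hx
      · exact hu
    · cases a
      · exact hu
      · exact hx
    · exact hy
    · cases b
      · exact hw
      · exact hz
    · cases b
      · exact hz
      · exact hw
  sep := by
    intro t e he
    have he := mem5 (α := Fin 6 × Fin 6) (a := (0, 1)) (b := (1, 2)) (c := (0, 3)) (d := (1, 4)) (f := (2, 5)) he
    cases a <;> cases b <;> fin_cases t <;> rcases he with rfl | rfl | rfl | rfl | rfl <;>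
      refine ⟨fun h => ?_, fun h => ?_⟩ <;>
      first
        | exact absurd h.1 (by decide)
        | exact absurd h.2 d1
        | exact absurd h.2 d2
        | exact absurd h.2 d3
        | exact absurd h.2 d4
        | exact absurd h.2 d5
        | exact absurd h.2 d6
        | exact absurd h.2 d7
  all := by
    intro i t ht
    fin_cases i
    · rcases nu t ht with rfl | rfl | rfl
      · exact Or.inl ⟨((0 : Fin 6), (1 : Fin 6)), memC _ q01, Or.inl ⟨rfl, rfl⟩⟩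
      · exact Or.inl ⟨((0 : Fin 6), (3 : Fin 6)), memC _ q03, Or.inl ⟨rfl, rfl⟩⟩
      · right
        cases a
        · exact ⟨(1 : Fin 5), rfl, rfl⟩
        · exact ⟨(0 : Fin 5), rfl, rfl⟩
    · rcases nv t ht with rfl | rfl | rfl
      · exact Or.inl ⟨((0 : Fin 6), (1 : Fin 6)), memC _ q01, Or.inr ⟨rfl, rfl⟩⟩
      · exact Or.inl ⟨((1 : Fin 6), (4 : Fin 6)), memC _ q14, Or.inl ⟨rfl, rfl⟩⟩
      · exact Or.inl ⟨((1 : Fin 6), (2 : Fin 6)), memC _ q12, Or.inl ⟨rfl, rfl⟩⟩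
    · rcases nw t ht with rfl | rfl | rfl
      · exact Or.inl ⟨((1 : Fin 6), (2 : Fin 6)), memC _ q12, Or.inr ⟨rfl, rfl⟩⟩
      · exact Or.inl ⟨((2 : Fin 6), (5 : Fin 6)), memC _ q25, Or.inl ⟨rfl, rfl⟩⟩
      · right
        cases b
        · exact ⟨(3 : Fin 5), rfl, rfl⟩
        · exact ⟨(4 : Fin 5), rfl, rfl⟩
    · rcases nx t ht with rfl | rfl
      · exact Or.inl ⟨((0 : Fin 6), (3 : Fin 6)), memC _ q03, Or.inr ⟨rfl, rfl⟩⟩
      · right
        cases a
        · exact ⟨(0 : Fin 5), rfl, rfl⟩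
        · exact ⟨(1 : Fin 5), rfl, rfl⟩
    · rcases ny t ht with rfl | rfl
      · exact Or.inl ⟨((1 : Fin 6), (4 : Fin 6)), memC _ q14, Or.inr ⟨rfl, rfl⟩⟩
      · exact Or.inr ⟨(2 : Fin 5), rfl, rfl⟩
    · rcases nz t ht with rfl | rfl
      · exact Or.inl ⟨((2 : Fin 6), (5 : Fin 6)), memC _ q25, Or.inr ⟨rfl, rfl⟩⟩
      · right
        cases b
        · exact ⟨(4 : Fin 5), rfl, rfl⟩
        · exact ⟨(3 : Fin 5), rfl, rfl⟩

end emb

section fin

variable {V : Type} [Fintype V] {G : SimpleGraph V}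

theorem fin_false (hC : Crit G) {C : Cfg} {φ : Fin C.n → V} {o : Fin C.r → V} (hE : Emb G C φ o) (hne : C.E ≠ [])
    (hP : Function.Injective C.P) (hk : Kill C False) : False :=
  red hC hE hne (cl_of (rng_of hE hP) False fun h => h.elim) hk

theorem ne_dg {a b : V} (ha : dg G a = 3) (hb : dg G b = 2) : a ≠ b := by
  rintro rfl
  omega

theorem tri_case (hC : Crit G) (hk : Kill triC False) {u v w x z : V} (hvu : G.Adj v u) (hvw : G.Adj v w) (huw : u ≠ w)
    (du : dg G u = 3) (dv : dg G v = 3) (dw : dg G w = 3) (hux : G.Adj u x) (hvx : G.Adj v x) (hwz : G.Adj w z)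
    (dx : dg G x = 2) (dz : dg G z = 2) : False := by
  obtain ⟨u', hu, hu1, hu2⟩ := ex3 v x du
  obtain ⟨w', hw, hw1, hw2⟩ := ex3 v z dw
  obtain ⟨z', hz, hz1⟩ := ex2 w dz
  have hvx' := ne_dg dv dx
  have hwx' := ne_dg dw dx
  have nx := nb2 dx hux.symm hvx.symm hvu.ne'
  have hxz : x ≠ z := by
    rintro rfl
    rcases nx w hwz.symm with h | h
    · exact huw h.symm
    · exact hvw.ne h.symm
  exact fin_false hC (emb_tri hvu.symm hvw hux hvx hwz hu hw hz huw (ne_dg du dz) (ne_dg dv dz) hwx' hxz hu1 hu2 hw1 hw2 hz1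
    (nb3 du hvu.symm hux hu hvx' hu1.symm hu2.symm)
    (nb3 dv hvu hvx hvw (ne_dg du dx) huw hwx'.symm)
    (nb3 dw hvw.symm hwz hw (ne_dg dv dz) hw1.symm hw2.symm) nx
    (nb2 dz hwz.symm hz hz1.symm)) (by simp [triC]) (by decide) hk

theorem sq_case (hC : Crit G) (hk : Kill sqC False) {u v w x y : V} (hvu : G.Adj v u) (hvw : G.Adj v w) (huw : u ≠ w)
    (du : dg G u = 3) (dv : dg G v = 3) (dw : dg G w = 3) (hux : G.Adj u x) (hvy : G.Adj v y) (hwx : G.Adj w x)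
    (dx : dg G x = 2) (dy : dg G y = 2) (hxy : x ≠ y) : False := by
  obtain ⟨u', hu, hu1, hu2⟩ := ex3 v x du
  obtain ⟨w', hw, hw1, hw2⟩ := ex3 v x dw
  obtain ⟨y', hy, hy1⟩ := ex2 v dy
  have hvx' := ne_dg dv dx
  exact fin_false hC (emb_sq hvu.symm hvw hux hwx hvy hu hw hy huw (ne_dg du dy) hvx' (ne_dg dw dy) hxy hu1 hu2 hw1 hw2 hy1
    (nb3 du hvu.symm hux hu hvx' hu1.symm hu2.symm)
    (nb3 dv hvu hvy hvw (ne_dg du dy) huw (ne_dg dw dy).symm)
    (nb3 dw hvw.symm hwx hw hvx' hw1.symm hw2.symm)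
    (nb2 dx hux.symm hwx.symm huw)
    (nb2 dy hvy.symm hy hy1.symm)) (by simp [sqC]) (by decide) hk

end fin

section plane

variable {V : Type} [Fintype V] [DecidableEq V] {G : SimpleGraph V} [DecidableRel G.Adj]

theorem fin_true (R : Rot G) (hG : G.Connected) (hP : R.Planar) (hC : Crit G) {C : Cfg} [NeZero C.r] {φ : Fin C.n → V}
    {o : Fin C.r → V} (hE : Emb G C φ o) (hne : C.E ≠ []) (hPi : Function.Injective C.P)
    (hT : ∀ a b : Fin C.r, (G \ cut G C φ).Reachable (φ (C.P a)) (φ (C.P b)))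
    (hord : ∀ ψ : G.Dart → ZMod 2, FF R ψ → ∀ (t : Fin C.r) (d d' : G.Dart),
      d.toProd = (φ (C.P t), o t) → d'.toProd = (φ (C.P (t + 1)), o (t + 1)) → ψ d.symm = ψ d')
    (hk : Kill C True) : False :=
  red hC hE hne (cl_of (rng_of hE hPi) True fun _ _ hc i a b a' b' h1 h2 h3 h4 h5 =>
    nc_of R hG hP (H := cut G C φ) (fun _ _ h => And.left h) (rng_of hE hPi) hT (hT2_of hE) hord hc i a b a' b' h1 h2 h3 h4 h5) hk

theorem reach_comb {a b : Bool} {φ : Fin 6 → V} {o : Fin 5 → V} (hE : Emb G (combC a b) φ o) (j : Fin 6) :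
    (G \ cut G (combC a b) φ).Reachable (φ 1) (φ j) := by
  have h01 : (G \ cut G (combC a b) φ).Adj (φ 0) (φ 1) := tadj hE _ q01
  have h12 : (G \ cut G (combC a b) φ).Adj (φ 1) (φ 2) := tadj hE _ q12
  have h03 : (G \ cut G (combC a b) φ).Adj (φ 0) (φ 3) := tadj hE _ q03
  have h14 : (G \ cut G (combC a b) φ).Adj (φ 1) (φ 4) := tadj hE _ q14
  have h25 : (G \ cut G (combC a b) φ).Adj (φ 2) (φ 5) := tadj hE _ q25
  fin_cases j
  · exact h01.symm.reachable
  · exact SimpleGraph.Reachable.refl _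
  · exact h12.reachable
  · exact h01.symm.reachable.trans h03.reachable
  · exact h14.reachable
  · exact h12.reachable.trans h25.reachable

theorem ord_comb (R : Rot G) (a b : Bool) {u v w x y z u' w' x' y' z' : V}
    (hu : (a = true ∧ St R u u' x ∧ St R u x v ∧ St R u v u') ∨ (a = false ∧ St R u u' v ∧ St R u v x ∧ St R u x u'))
    (hw : (b = true ∧ St R w v z ∧ St R w z w' ∧ St R w w' v) ∨ (b = false ∧ St R w v w' ∧ St R w w' z ∧ St R w z v))
    (hv : St R v u y ∧ St R v y w ∧ St R v w u) (hx : St R x u x' ∧ St R x x' u) (hy : St R y v y' ∧ St R y y' v)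
    (hz : St R z w z' ∧ St R z z' w) {ψ : G.Dart → ZMod 2} (hψ : FF R ψ) (t : Fin 5) (d d' : G.Dart)
    (hd : d.toProd = ((![u, v, w, x, y, z] : Fin 6 → V) ((combC a b).P t),
      (![if a then u' else x', if a then x' else u', y', if b then z' else w', if b then w' else z'] : Fin 5 → V) t))
    (hd' : d'.toProd = ((![u, v, w, x, y, z] : Fin 6 → V) ((combC a b).P (t + 1 : Fin 5)),
      (![if a then u' else x', if a then x' else u', y', if b then z' else w', if b then w' else z'] : Fin 5 → V) (t + 1))) :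
    ψ d.symm = ψ d' := by
  rw [fv_symm (ψ := ψ) hd, fv_dart (ψ := ψ) hd']
  have eX2 := ff_st hψ hx.1
  have eX1 := ff_st hψ hx.2
  have eY2 := ff_st hψ hy.1
  have eY1 := ff_st hψ hy.2
  have eZ2 := ff_st hψ hz.1
  have eZ1 := ff_st hψ hz.2
  have eV1 := ff_st hψ hv.1
  have eV2 := ff_st hψ hv.2.1
  have eV3 := ff_st hψ hv.2.2
  rcases hu with ⟨rfl, hu1, hu2, hu3⟩ | ⟨rfl, hu1, hu2, hu3⟩ <;>
    rcases hw with ⟨rfl, hw1, hw2, hw3⟩ | ⟨rfl, hw1, hw2, hw3⟩ <;>
    have eU1 := ff_st hψ hu1 <;> have eU2 := ff_st hψ hu2 <;> have eU3 := ff_st hψ hu3 <;>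
    have eW1 := ff_st hψ hw1 <;> have eW2 := ff_st hψ hw2 <;> have eW3 := ff_st hψ hw3
  · fin_cases t
    · exact eU1.trans eX2
    · exact eX1.trans (eU2.trans (eV1.trans eY2))
    · exact eY1.trans (eV2.trans (eW1.trans eZ2))
    · exact eZ1.trans eW2
    · exact eW3.trans (eV3.trans eU3)
  · fin_cases t
    · exact eU1.trans eX2
    · exact eX1.trans (eU2.trans (eV1.trans eY2))
    · exact eY1.trans (eV2.trans eW1)
    · exact eW2.trans eZ2
    · exact eZ1.trans (eW3.trans (eV3.trans eU3))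
  · fin_cases t
    · exact eX1.trans eU3
    · exact eU1.trans (eV1.trans eY2)
    · exact eY1.trans (eV2.trans (eW1.trans eZ2))
    · exact eZ1.trans eW2
    · exact eW3.trans (eV3.trans (eU2.trans eX2))
  · fin_cases t
    · exact eX1.trans eU3
    · exact eU1.trans (eV1.trans eY2)
    · exact eY1.trans (eV2.trans eW1)
    · exact eW2.trans eZ2
    · exact eZ1.trans (eW3.trans (eV3.trans (eU2.trans eX2)))

theorem inj_comb (a b : Bool) : Function.Injective (combC a b).P := by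
  cases a <;> cases b <;> decide

theorem main_case (R : Rot G) (hG : G.Connected) (hP : R.Planar) (hC : Crit G) (hk : ∀ a b, Kill (combC a b) True)
    {u v w x y z : V} (hvu : G.Adj v u) (hvw : G.Adj v w) (huw : u ≠ w) (du : dg G u = 3) (dv : dg G v = 3)
    (dw : dg G w = 3) (hux : G.Adj u x) (hvy : G.Adj v y) (hwz : G.Adj w z) (dx : dg G x = 2) (dy : dg G y = 2)
    (dz : dg G z = 2) (hxy : x ≠ y) (hxz : x ≠ z) (hyz : y ≠ z)
    (hv : St R v u y ∧ St R v y w ∧ St R v w u) : False := by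
  obtain ⟨u', hu, hu1, hu2⟩ := ex3 v x du
  obtain ⟨w', hw, hw1, hw2⟩ := ex3 v z dw
  obtain ⟨x', hx, hx1⟩ := ex2 u dx
  obtain ⟨y', hy, hy1⟩ := ex2 v dy
  obtain ⟨z', hz, hz1⟩ := ex2 w dz
  have hvx' := ne_dg dv dx
  have hvz' := ne_dg dv dz
  have nu := nb3 du hvu.symm hux hu hvx' hu1.symm hu2.symm
  have nv := nb3 dv hvu hvy hvw (ne_dg du dy) huw (ne_dg dw dy).symm
  have nw := nb3 dw hvw.symm hwz hw hvz' hw1.symm hw2.symm
  have nx := nb2 dx hux.symm hx hx1.symm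
  have ny := nb2 dy hvy.symm hy hy1.symm
  have nz := nb2 dz hwz.symm hz hz1.symm
  have rx := rot2 R hux.symm hx hx1.symm nx
  have ry := rot2 R hvy.symm hy hy1.symm ny
  have rz := rot2 R hwz.symm hz hz1.symm nz
  have ru := rot3 R hu hux hvu.symm hu2 hu1 hvx'.symm (fun t ht => by
    rcases nu t ht with h | h | h
    · exact Or.inr (Or.inr h)
    · exact Or.inr (Or.inl h)
    · exact Or.inl h)
  have rw' := rot3 R hvw.symm hwz hw hvz' hw1.symm hw2.symm nw
  obtain ⟨a, ha⟩ : ∃ a : Bool, (a = true ∧ St R u u' x ∧ St R u x v ∧ St R u v u') ∨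
      (a = false ∧ St R u u' v ∧ St R u v x ∧ St R u x u') := by
    rcases ru with h | h
    · exact ⟨true, Or.inl ⟨rfl, h⟩⟩
    · exact ⟨false, Or.inr ⟨rfl, h⟩⟩
  obtain ⟨b, hb⟩ : ∃ b : Bool, (b = true ∧ St R w v z ∧ St R w z w' ∧ St R w w' v) ∨
      (b = false ∧ St R w v w' ∧ St R w w' z ∧ St R w z v) := by
    rcases rw' with h | h
    · exact ⟨true, Or.inl ⟨rfl, h⟩⟩
    · exact ⟨false, Or.inr ⟨rfl, h⟩⟩
  have hE := emb_comb a b hvu.symm hvw hux hvy hwz hu hw hx hy hz huw (ne_dg du dy) (ne_dg du dz) hvx' hvz' (ne_dg dw dx)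
    (ne_dg dw dy) hxy hxz hyz hu1 hu2 hw1 hw2 hx1 hy1 hz1 nu nv nw nx ny nz
  have : NeZero (combC a b).r := ⟨by simp [combC]⟩
  refine fin_true R hG hP hC hE (by simp [combC]) (inj_comb a b) ?_ ?_ (hk a b)
  · intro i j
    exact (reach_comb hE _).symm.trans (reach_comb hE _)
  · intro ψ hψ t d d' hd hd'
    exact ord_comb R a b ha hb hv rx ry rz hψ t d d' hd hd'

end plane

end Cb

open Cb

theorem comb_of {V : Type} [Fintype V] [DecidableEq V] {G : SimpleGraph V} [DecidableRel G.Adj] (R : Rot G)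
    (hG : G.Connected) (hP : R.Planar) (hC : Crit G) (hd : ∀ v, dg G v ≤ 3) (h5 : ∀ u w, G.Adj u w → 5 ≤ dg G u + dg G w)
    (h2 : ∀ v x y, G.Adj v x → G.Adj v y → x ≠ y → dg G x = 2 → dg G y ≠ 2) (hk : ∀ a b, Kill (combC a b) True)
    (hk1 : Kill triC False) (hk2 : Kill sqC False) : ∀ u v w x y z, G.Adj v u → G.Adj v w → u ≠ w → dg G u = 3 →
    dg G v = 3 → dg G w = 3 → G.Adj u x → G.Adj v y → G.Adj w z → dg G x = 2 → dg G y = 2 → dg G z ≠ 2 := by
  intro u v w x y z hvu hvw huw du dv dw hux hvy hwz dx dy dz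
  by_cases hxy : x = y
  · subst hxy
    exact tri_case hC hk1 hvu hvw huw du dv dw hux hvy hwz dx dz
  by_cases hyz : y = z
  · subst hyz
    exact tri_case hC hk1 hvw hvu huw.symm dw dv du hwz hvy hux dy dx
  by_cases hxz : x = z
  · subst hxz
    exact sq_case hC hk2 hvu hvw huw du dv dw hux hvy hwz dx dy hxy
  have huy := ne_dg du dy
  have hwy := ne_dg dw dy
  rcases rot3 R hvu hvy hvw huy huw hwy.symm (nb3 dv hvu hvy hvw huy huw hwy.symm) with h | h
  · exact main_case R hG hP hC hk hvu hvw huw du dv dw hux hvy hwz dx dy dz hxy hxz hyz h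
  · exact main_case R hG hP hC hk hvw hvu huw.symm dw dv du hwz hvy hux dz dy dx (Ne.symm hyz) (Ne.symm hxz) (Ne.symm hxy)
      ⟨h.2.1, h.2.2, h.1⟩

end Pool.Agent.Helper68.AV
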