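import Pool.Agent.Helper68.AV.Defs

/-!
# Project AV (MP_028d9b_co): the count

`N` = the vertices of degree three with a neighbour of degree two, `F` = the other vertices of degree three.
Then `2 n2 ≤ |N| ≤ 2 |F|` and `n3 = |N| + |F|`.
-/

set_option autoImplicit false

namespace Pool.Agent.Helper68.AV

open Pool.Agent.Helper52.AH Pool.Agent.Helper31.AH

open Classical in
theorem count {V : Type} [Fintype V] (G : SimpleGraph V) (hd : ∀ v, dg G v ≤ 3)
    (h5 : ∀ u w, G.Adj u w → 5 ≤ dg G u + dg G w)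
    (h2 : ∀ v x y, G.Adj v x → G.Adj v y → x ≠ y → dg G x = 2 → dg G y ≠ 2)
    (hcomb : ∀ u v w x y z, G.Adj v u → G.Adj v w → u ≠ w → dg G u = 3 → dg G v = 3 → dg G w = 3 →
      G.Adj u x → G.Adj v y → G.Adj w z → dg G x = 2 → dg G y = 2 → dg G z ≠ 2)
    (hclaw : ∀ v u w t x y z, G.Adj v u → G.Adj v w → G.Adj v t → u ≠ w → u ≠ t → w ≠ t →
      dg G v = 3 → dg G u = 3 → dg G w = 3 → dg G t = 3 → G.Adj u x → G.Adj w y → G.Adj t z →
      dg G x = 2 → dg G y = 2 → dg G z ≠ 2) :
    3 * (Finset.univ.filter fun v => dg G v = 2).card ≤ (Finset.univ.filter fun v => dg G v = 3).card := by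
  set T : Finset V := Finset.univ.filter fun v => dg G v = 2 with hT
  set N : Finset V := Finset.univ.filter fun v => dg G v = 3 ∧ ∃ x, G.Adj v x ∧ dg G x = 2 with hN
  set F : Finset V := Finset.univ.filter fun v => dg G v = 3 ∧ ¬ ∃ x, G.Adj v x ∧ dg G x = 2 with hF
  have mT : ∀ v, v ∈ T ↔ dg G v = 2 := fun v => by simp [hT]
  have mN : ∀ v, v ∈ N ↔ dg G v = 3 ∧ ∃ x, G.Adj v x ∧ dg G x = 2 := fun v => by
    rw [hN, Finset.mem_filter]; exact ⟨fun h => h.2, fun h => ⟨Finset.mem_univ _, h⟩⟩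
  have mF : ∀ v, v ∈ F ↔ dg G v = 3 ∧ ¬ ∃ x, G.Adj v x ∧ dg G x = 2 := fun v => by
    rw [hF, Finset.mem_filter]; exact ⟨fun h => h.2, fun h => ⟨Finset.mem_univ _, h⟩⟩
  -- the two counts
  have c1 : T.card * 2 ≤ N.card * 1 := by
    apply Finset.card_mul_le_card_mul G.Adj
    · intro a ha
      have ha2 := (mT a).1 ha
      have hsub : nb G a ⊆ N.bipartiteAbove G.Adj a := by
        intro w hw
        have hw' := mem_nb.1 hw
        rw [Finset.bipartiteAbove, Finset.mem_filter, mN]
        have h := h5 a w hw'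
        have h' := hd w
        exact ⟨⟨by omega, a, hw'.symm, ha2⟩, hw'⟩
      calc 2 = (nb G a).card := ha2.symm
        _ ≤ _ := Finset.card_le_card hsub
    · intro b _
      rw [Finset.card_le_one]
      intro x hx y hy
      rw [Finset.bipartiteBelow, Finset.mem_filter, mT] at hx hy
      by_contra hxy
      exact h2 b x y hx.2.symm hy.2.symm hxy hx.1 hy.1
  have c2 : N.card * 1 ≤ F.card * 2 := by
    apply Finset.card_mul_le_card_mul G.Adj
    · intro v hv
      obtain ⟨hv3, y, hvy, hy2⟩ := (mN v).1 hv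
      have h3 : ((nb G v).erase y).card = 2 := by
        rw [Finset.card_erase_of_mem (mem_nb.2 hvy)]
        have : (nb G v).card = 3 := hv3
        omega
      obtain ⟨u, w, huw, he⟩ := Finset.card_eq_two.1 h3
      have hu : u ∈ (nb G v).erase y := by rw [he]; simp
      have hw : w ∈ (nb G v).erase y := by rw [he]; simp
      rw [Finset.mem_erase, mem_nb] at hu hw
      have hdeg : ∀ t, t ≠ y → G.Adj v t → dg G t = 3 := by
        intro t hty hvt
        have e1 := h5 v t hvt
        have e2 := hd t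
        have e3 : dg G t ≠ 2 := h2 v y t hvy hvt (Ne.symm hty) hy2
        omega
      have hu3 := hdeg u hu.1 hu.2
      have hw3 := hdeg w hw.1 hw.2
      rw [Nat.one_le_iff_ne_zero, Ne, Finset.card_eq_zero, ← Ne, ← Finset.nonempty_iff_ne_empty]
      by_cases hux : ∃ x, G.Adj u x ∧ dg G x = 2
      · obtain ⟨x, hux, hx2⟩ := hux
        refine ⟨w, ?_⟩
        rw [Finset.bipartiteAbove, Finset.mem_filter, mF]
        refine ⟨⟨hw3, ?_⟩, hw.2⟩
        rintro ⟨z, hwz, hz2⟩
        exact hcomb u v w x y z hu.2 hw.2 huw hu3 hv3 hw3 hux hvy hwz hx2 hy2 hz2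
      · refine ⟨u, ?_⟩
        rw [Finset.bipartiteAbove, Finset.mem_filter, mF]
        exact ⟨⟨hu3, hux⟩, hu.2⟩
    · intro f hf
      obtain ⟨hf3, -⟩ := (mF f).1 hf
      by_contra hcon
      rw [not_le] at hcon
      have hsub : N.bipartiteBelow G.Adj f ⊆ nb G f := by
        intro w hw
        rw [Finset.bipartiteBelow, Finset.mem_filter] at hw
        exact mem_nb.2 hw.2.symm
      have heq : N.bipartiteBelow G.Adj f = nb G f := by
        apply Finset.eq_of_subset_of_card_le hsub
        have : (nb G f).card = 3 := hf3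
        omega
      obtain ⟨u, w, t, huw, hut, hwt, he⟩ := Finset.card_eq_three.1 (show (nb G f).card = 3 from hf3)
      have hmem : ∀ a, a ∈ nb G f → G.Adj f a ∧ dg G a = 3 ∧ ∃ x, G.Adj a x ∧ dg G x = 2 := by
        intro a ha
        refine ⟨mem_nb.1 ha, ?_⟩
        rw [← heq, Finset.bipartiteBelow, Finset.mem_filter, mN] at ha
        exact ha.1
      obtain ⟨fu, u3, x, ux, x2⟩ := hmem u (by rw [he]; simp)
      obtain ⟨fw, w3, y, wy, y2⟩ := hmem w (by rw [he]; simp)
      obtain ⟨ft, t3, z, tz, z2⟩ := hmem t (by rw [he]; simp)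
      exact hclaw f u w t x y z fu fw ft huw hut hwt hf3 u3 w3 t3 ux wy tz x2 y2 z2
  have c3 : (Finset.univ.filter fun v => dg G v = 3).card = N.card + F.card := by
    rw [hN, hF, ← Finset.filter_filter, ← Finset.filter_filter]
    exact (Finset.card_filter_add_card_filter_not _).symm
  omega

end Pool.Agent.Helper68.AV
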