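import Pool.Agent.Helper52.AH.Final
import Pool.Agent.Helper31.AH.Pot

/-!
# Project AV (MP_028d9b_co): definitions

Reducible configurations in plane graphs with maximum degree three which are critical for edge colourings with
three colours. A configuration is a set of vertices (the names `0, ..., n - 1`), some edges between them and at
most one more edge (`ring edge`) at every name. `H` is the graph without the edges of the configuration. In `H`
the names have degree at most one; the names with a ring edge are `p 0, ..., p (r - 1)`, their neighbours in `H`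
are `o 0, ..., o (r - 1)`. A state is the sequence of the colours of the ring edges.
-/

set_option autoImplicit false

namespace Pool.Agent.Helper68.AV

open Pool.Agent.Helper52.AH Pool.Agent.Helper31.AH

/-- `c` is a proper edge colouring of `H` with the colours `0, 1, 2` -/
structure PC {V : Type} (H : SimpleGraph V) (c : V → V → Fin 3) : Prop where
  symm : ∀ v w, c v w = c w v
  prop : ∀ v w w', H.Adj v w → H.Adj v w' → w ≠ w' → c v w ≠ c v w'

/-- exchange of the two colours other than `i` -/
def swp (i x : Fin 3) : Fin 3 := i + i - x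

/-- the edges of `H` whose colour is not `i` -/
def kg {V : Type} (H : SimpleGraph V) (c : V → V → Fin 3) (hc : PC H c) (i : Fin 3) : SimpleGraph V where
  Adj v w := H.Adj v w ∧ c v w ≠ i
  symm := ⟨fun v w h => ⟨h.1.symm, by rw [hc.symm w v]; exact h.2⟩⟩
  loopless := ⟨fun v h => H.loopless.irrefl v h.1⟩

/-- the ring: the vertices `p t` are distinct and have exactly one neighbour `o t` in `H` -/
structure Rng {V : Type} (H : SimpleGraph V) {r : ℕ} (p o : Fin r → V) : Prop where
  inj : Function.Injective p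
  adj : ∀ t, H.Adj (p t) (o t)
  one : ∀ t w, H.Adj (p t) w → w = o t

/-- the states -/
def Stt {V : Type} (H : SimpleGraph V) {r : ℕ} (p o : Fin r → V) (s : Fin r → Fin 3) : Prop :=
  ∃ c, PC H c ∧ ∀ t, c (p t) (o t) = s t

/-- the pairs `{t, m t}` do not cross -/
def NCr {r : ℕ} (m : Fin r → Fin r) : Prop := ∀ a b, a < b → b < m a → ¬ m a < m b

/-- a set of states closed under Kempe changes (`pl`: without crossings) and permutations of the colours -/
structure Cl {r : ℕ} (pl : Prop) (S : (Fin r → Fin 3) → Prop) : Prop where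
  kem : ∀ s, S s → ∀ i, ∃ m : Fin r → Fin r, (∀ t, m (m t) = t) ∧ (∀ t, m t ≠ t → s t ≠ i) ∧
    (pl → NCr m) ∧ ∀ X : Fin r → Bool, (∀ t, X (m t) = X t) →
      S (fun t => if X t then swp i (s t) else s t)
  per : ∀ s, S s → ∀ π : Equiv.Perm (Fin 3), S (fun t => π (s t))

/-- a configuration: the names are `0, ..., n - 1`, `E` are its edges, `P t` is the name with the ring edge `t` -/
structure Cfg where
  n : ℕ
  r : ℕ
  E : List (Fin n × Fin n)
  P : Fin r → Fin n

/-- `G` without the edges of the configuration -/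
def cut {V : Type} (G : SimpleGraph V) (C : Cfg) (φ : Fin C.n → V) : SimpleGraph V where
  Adj v w := G.Adj v w ∧ ∀ e ∈ C.E, ¬ ((φ e.1 = v ∧ φ e.2 = w) ∨ (φ e.1 = w ∧ φ e.2 = v))
  symm := ⟨fun _ _ h => ⟨h.1.symm, fun e he h' => h.2 e he h'.symm⟩⟩
  loopless := ⟨fun v h => G.loopless.irrefl v h.1⟩

/-- the configuration `C` appears in `G` -/
structure Emb {V : Type} (G : SimpleGraph V) (C : Cfg) (φ : Fin C.n → V) (o : Fin C.r → V) : Prop where
  inj : Function.Injective φ
  adjE : ∀ e ∈ C.E, G.Adj (φ e.1) (φ e.2)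
  adjR : ∀ t, G.Adj (φ (C.P t)) (o t)
  sep : ∀ t, ∀ e ∈ C.E, ¬ (C.P t = e.1 ∧ o t = φ e.2) ∧ ¬ (C.P t = e.2 ∧ o t = φ e.1)
  all : ∀ i w, G.Adj (φ i) w →
    (∃ e ∈ C.E, (e.1 = i ∧ φ e.2 = w) ∨ (e.2 = i ∧ φ e.1 = w)) ∨ ∃ t, C.P t = i ∧ o t = w

/-- the colouring `e` of the edges of the configuration fits the state `s` -/
def good (C : Cfg) (s : Fin C.r → Fin 3) (e : List (Fin 3)) : Prop :=
  e.length = C.E.length ∧
  ((C.E.zip e).Pairwise fun a b =>
    (a.1.1 = b.1.1 ∨ a.1.1 = b.1.2 ∨ a.1.2 = b.1.1 ∨ a.1.2 = b.1.2) → a.2 ≠ b.2) ∧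
  ∀ a ∈ C.E.zip e, ∀ t, (C.P t = a.1.1 ∨ C.P t = a.1.2) → a.2 ≠ s t

/-- every set of states which is closed under Kempe changes contains a state which fits -/
def Kill (C : Cfg) (pl : Prop) : Prop :=
  ∀ S : (Fin C.r → Fin 3) → Prop, Cl pl S → (∀ s e, S s → ¬ good C s e) → ∀ s, ¬ S s

/-- the path `0, 1, 2`; the vertices `3, 4, 5` of degree two are adjacent to `0, 1, 2` -/
def combC (a b : Bool) : Cfg :=
  { n := 6, r := 5, E := [(0, 1), (1, 2), (0, 3), (1, 4), (2, 5)],
    P := ![if a then 0 else 3, if a then 3 else 0, 4, if b then 5 else 2, if b then 2 else 5] }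

/-- `0` with the neighbours `1, 2, 3`; the vertices `4, 5, 6` of degree two are adjacent to `1, 2, 3` -/
def clawC (a b c : Bool) : Cfg :=
  { n := 7, r := 6, E := [(0, 1), (0, 2), (0, 3), (1, 4), (2, 5), (3, 6)],
    P := ![if a then 4 else 1, if a then 1 else 4, if b then 5 else 2, if b then 2 else 5,
      if c then 6 else 3, if c then 3 else 6] }

/-- `0` with the neighbours `1, 2` of degree two -/
def twoC : Cfg := { n := 3, r := 3, E := [(0, 1), (0, 2)], P := ![0, 1, 2] }

/-- the path `0, 1, 2`; `3` of degree two is adjacent to `0, 1`; `4` of degree two is adjacent to `2` -/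
def triC : Cfg :=
  { n := 5, r := 3, E := [(0, 1), (1, 2), (0, 3), (1, 3), (2, 4)], P := ![0, 2, 4] }

/-- the path `0, 1, 2`; `3` of degree two is adjacent to `0, 2`; `4` of degree two is adjacent to `1` -/
def sqC : Cfg :=
  { n := 5, r := 3, E := [(0, 1), (1, 2), (0, 3), (2, 3), (1, 4)], P := ![0, 2, 4] }

/-- `0` with the neighbours `1, 2, 3`; `4` of degree two is adjacent to `1, 2`; `5` of degree two to `3` -/
def clsqC : Cfg :=
  { n := 6, r := 4, E := [(0, 1), (0, 2), (0, 3), (1, 4), (2, 4), (3, 5)], P := ![1, 2, 3, 5] }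

/-- critical: not 3-edge-colourable, but without any one edge it is -/
structure Crit {V : Type} (G : SimpleGraph V) : Prop where
  no : ¬ Col3 G
  yes : ∀ u v, G.Adj u v → ∃ c, PC (G.deleteEdges {s(u, v)}) c

/-- `ψ` is a function on the faces -/
def FF {V : Type} [Fintype V] [DecidableEq V] {G : SimpleGraph V} [DecidableRel G.Adj] (R : Rot G)
    (ψ : G.Dart → ZMod 2) : Prop := ∀ d, ψ d.symm = ψ (R.σ d)

end Pool.Agent.Helper68.AV
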