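import Pool.Agent.Helper68.AV.Kempe
import Pool.Agent.Helper68.AV.Embed

/-!
# Project AV (MP_028d9b_co): vertices of degree two are far apart

In a critical graph the degrees of the ends of an edge have sum at least five (`h5_of`); with maximum degree three
no vertex has two neighbours of degree two (`h2_of`).
-/

set_option autoImplicit false

namespace Pool.Agent.Helper68.AV

open Pool.Agent.Helper52.AH Pool.Agent.Helper31.AH

/-- a colour which is free at `u` and `w` extends a colouring of `G - uw` to `G` -/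
theorem near_extend {V : Type} {G : SimpleGraph V} {u w : V} {c : V → V → Fin 3}
    (hc : PC (G.deleteEdges {s(u, w)}) c) (k : Fin 3)
    (hu : ∀ z, G.Adj u z → z ≠ w → c u z ≠ k) (hw : ∀ z, G.Adj w z → z ≠ u → c w z ≠ k) :
    Col3 G := by
  classical
  have hkey : ∀ v z z', G.Adj v z → G.Adj v z' → z ≠ z' → s(v, z) = s(u, w) → c v z' ≠ k := by
    intro v z z' _ h2 hne he
    rw [Sym2.eq_iff] at he
    rcases he with ⟨rfl, rfl⟩ | ⟨rfl, rfl⟩
    · exact hu z' h2 hne.symm
    · exact hw z' h2 hne.symm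
  refine ⟨fun v z => if s(v, z) = s(u, w) then k else c v z, ?_, ?_⟩
  · intro v z
    simp only [Sym2.eq_swap (a := z) (b := v), hc.symm z v]
  · intro v z z' h1 h2 hne
    by_cases e1 : s(v, z) = s(u, w)
    · have e2 : s(v, z') ≠ s(u, w) := fun h => hne (Sym2.congr_right.1 (e1.trans h.symm))
      simp only [if_pos e1, if_neg e2]
      exact (hkey v z z' h1 h2 hne e1).symm
    · by_cases e2 : s(v, z') = s(u, w)
      · simp only [if_neg e1, if_pos e2]
        exact hkey v z' z h2 h1 hne.symm e2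
      · simp only [if_neg e1, if_neg e2]
        refine hc.prop v z z' ?_ ?_ hne
        · rw [SimpleGraph.deleteEdges_adj]
          exact ⟨h1, e1⟩
        · rw [SimpleGraph.deleteEdges_adj]
          exact ⟨h2, e2⟩

theorem h5_of {V : Type} [Fintype V] {G : SimpleGraph V} (hC : Crit G) (hd : ∀ v, dg G v ≤ 3) :
    ∀ u w, G.Adj u w → 5 ≤ dg G u + dg G w := by
  classical
  intro u w huw
  by_contra hlt
  obtain ⟨c, hc⟩ := hC.yes u w huw
  have hA : (((nb G u).erase w).image (c u)).card ≤ dg G u - 1 := by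
    refine Finset.card_image_le.trans ?_
    rw [Finset.card_erase_of_mem (mem_nb.2 huw), dg]
  have hB : (((nb G w).erase u).image (c w)).card ≤ dg G w - 1 := by
    refine Finset.card_image_le.trans ?_
    rw [Finset.card_erase_of_mem (mem_nb.2 huw.symm), dg]
  have h1 : 1 ≤ dg G u := Finset.card_pos.2 ⟨w, mem_nb.2 huw⟩
  have h2 : 1 ≤ dg G w := Finset.card_pos.2 ⟨u, mem_nb.2 huw.symm⟩
  have h3 : (((nb G u).erase w).image (c u) ∪ ((nb G w).erase u).image (c w)).card < 3 := by
    refine lt_of_le_of_lt (Finset.card_union_le _ _) ?_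
    omega
  obtain ⟨k, hk⟩ : ∃ k : Fin 3,
      k ∉ (((nb G u).erase w).image (c u) ∪ ((nb G w).erase u).image (c w)) := by
    by_contra hcon
    push Not at hcon
    have h4 : (Finset.univ : Finset (Fin 3)) ⊆
        (((nb G u).erase w).image (c u) ∪ ((nb G w).erase u).image (c w)) := fun k _ => hcon k
    have h5 := Finset.card_le_card h4
    rw [Finset.card_univ, Fintype.card_fin] at h5
    omega
  rw [Finset.mem_union, not_or] at hk
  refine hC.no (near_extend hc k ?_ ?_)
  · intro z hz hne he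
    exact hk.1 (Finset.mem_image.2 ⟨z, Finset.mem_erase.2 ⟨hne, mem_nb.2 hz⟩, he⟩)
  · intro z hz hne he
    exact hk.2 (Finset.mem_image.2 ⟨z, Finset.mem_erase.2 ⟨hne, mem_nb.2 hz⟩, he⟩)

/-- the other neighbour of a vertex of degree two -/
theorem near_other {V : Type} [Fintype V] {G : SimpleGraph V} {x v : V} (hx : dg G x = 2)
    (hv : G.Adj x v) : ∃ x', G.Adj x x' ∧ x' ≠ v ∧ ∀ z, G.Adj x z → z = v ∨ z = x' := by
  classical
  have h1 : ((nb G x).erase v).card = 1 := by
    rw [Finset.card_erase_of_mem (mem_nb.2 hv)]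
    have : (nb G x).card = 2 := hx
    omega
  obtain ⟨x', h2⟩ := Finset.card_eq_one.1 h1
  have h3 : x' ∈ (nb G x).erase v := by
    rw [h2]
    exact Finset.mem_singleton_self _
  rw [Finset.mem_erase, mem_nb] at h3
  refine ⟨x', h3.2, h3.1, fun z hz => ?_⟩
  by_cases hzv : z = v
  · exact Or.inl hzv
  · right
    have h4 : z ∈ (nb G x).erase v := Finset.mem_erase.2 ⟨hzv, mem_nb.2 hz⟩
    rw [h2] at h4
    exact Finset.mem_singleton.1 h4

/-- the third neighbour of a vertex of degree three -/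
theorem near_third {V : Type} [Fintype V] {G : SimpleGraph V} {v x y : V} (hv : dg G v = 3)
    (hx : G.Adj v x) (hy : G.Adj v y) (hxy : x ≠ y) :
    ∃ w, G.Adj v w ∧ w ≠ x ∧ w ≠ y ∧ ∀ z, G.Adj v z → z = x ∨ z = y ∨ z = w := by
  classical
  have h1 : (((nb G v).erase x).erase y).card = 1 := by
    rw [Finset.card_erase_of_mem (Finset.mem_erase.2 ⟨hxy.symm, mem_nb.2 hy⟩),
      Finset.card_erase_of_mem (mem_nb.2 hx)]
    have : (nb G v).card = 3 := hv
    omega
  obtain ⟨w, h2⟩ := Finset.card_eq_one.1 h1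
  have h3 : w ∈ ((nb G v).erase x).erase y := by
    rw [h2]
    exact Finset.mem_singleton_self _
  rw [Finset.mem_erase, Finset.mem_erase, mem_nb] at h3
  refine ⟨w, h3.2.2, h3.2.1, h3.1, fun z hz => ?_⟩
  by_cases hzx : z = x
  · exact Or.inl hzx
  · by_cases hzy : z = y
    · exact Or.inr (Or.inl hzy)
    · right
      right
      have h4 : z ∈ ((nb G v).erase x).erase y :=
        Finset.mem_erase.2 ⟨hzy, Finset.mem_erase.2 ⟨hzx, mem_nb.2 hz⟩⟩
      rw [h2] at h4
      exact Finset.mem_singleton.1 h4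

theorem near_mem (e : Fin 3 × Fin 3) (he : e ∈ twoC.E) :
    e = ((0, 1) : Fin 3 × Fin 3) ∨ e = ((0, 2) : Fin 3 × Fin 3) := by
  have h : e ∈ ([(0, 1), (0, 2)] : List (Fin 3 × Fin 3)) := he
  simpa using h

/-- the configuration `twoC` around `v` -/
theorem near_emb {V : Type} {G : SimpleGraph V} {v x y w x' y' : V} (hx : G.Adj v x)
    (hy : G.Adj v y) (hxy : x ≠ y) (hw : G.Adj v w) (hwx : w ≠ x) (hwy : w ≠ y)
    (hv : ∀ z, G.Adj v z → z = x ∨ z = y ∨ z = w)
    (hx1 : G.Adj x x') (hx2 : x' ≠ v) (hx3 : ∀ z, G.Adj x z → z = v ∨ z = x')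
    (hy1 : G.Adj y y') (hy2 : y' ≠ v) (hy3 : ∀ z, G.Adj y z → z = v ∨ z = y') :
    Emb G twoC (![v, x, y] : Fin 3 → V) (![w, x', y'] : Fin 3 → V) where
  inj := by
    have h1 : v ≠ x := hx.ne
    have h2 : v ≠ y := hy.ne
    intro (i : Fin 3) (j : Fin 3) hij
    fin_cases i <;> fin_cases j <;> first
      | rfl
      | exact absurd hij h1
      | exact absurd hij h2
      | exact absurd hij hxy
      | exact absurd hij h1.symm
      | exact absurd hij h2.symm
      | exact absurd hij hxy.symm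
  adjE := by
    intro e he
    have he' := near_mem e he
    rcases he' with rfl | rfl
    · exact hx
    · exact hy
  adjR := by
    intro (t : Fin 3)
    fin_cases t
    · exact hw
    · exact hx1
    · exact hy1
  sep := by
    intro (t : Fin 3) e he
    have he' := near_mem e he
    rcases he' with rfl | rfl <;> fin_cases t
    · exact ⟨fun h => hwx h.2, fun h => absurd h.1 (by decide)⟩
    · exact ⟨fun h => absurd h.1 (by decide), fun h => hx2 h.2⟩
    · exact ⟨fun h => absurd h.1 (by decide), fun h => absurd h.1 (by decide)⟩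
    · exact ⟨fun h => hwy h.2, fun h => absurd h.1 (by decide)⟩
    · exact ⟨fun h => absurd h.1 (by decide), fun h => absurd h.1 (by decide)⟩
    · exact ⟨fun h => absurd h.1 (by decide), fun h => hy2 h.2⟩
  all := by
    have m1 : ((0, 1) : Fin 3 × Fin 3) ∈ twoC.E := List.mem_cons_self
    have m2 : ((0, 2) : Fin 3 × Fin 3) ∈ twoC.E := List.mem_cons_of_mem _ List.mem_cons_self
    intro (i : Fin 3) z hz
    fin_cases i
    · rcases hv z hz with rfl | rfl | rfl
      · exact Or.inl ⟨_, m1, Or.inl ⟨rfl, rfl⟩⟩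
      · exact Or.inl ⟨_, m2, Or.inl ⟨rfl, rfl⟩⟩
      · exact Or.inr ⟨(0 : Fin 3), rfl, rfl⟩
    · rcases hx3 z hz with rfl | rfl
      · exact Or.inl ⟨_, m1, Or.inr ⟨rfl, rfl⟩⟩
      · exact Or.inr ⟨(1 : Fin 3), rfl, rfl⟩
    · rcases hy3 z hz with rfl | rfl
      · exact Or.inl ⟨_, m2, Or.inr ⟨rfl, rfl⟩⟩
      · exact Or.inr ⟨(2 : Fin 3), rfl, rfl⟩

theorem h2_of {V : Type} [Fintype V] {G : SimpleGraph V} (hC : Crit G) (hd : ∀ v, dg G v ≤ 3)
    (hk : Kill twoC False) :
    ∀ v x y, G.Adj v x → G.Adj v y → x ≠ y → dg G x = 2 → dg G y ≠ 2 := by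
  intro v x y hvx hvy hxy hx hy
  have hv : dg G v = 3 := by
    have h1 := h5_of hC hd v x hvx
    have h2 := hd v
    omega
  obtain ⟨w, hw1, hw2, hw3, hw4⟩ := near_third hv hvx hvy hxy
  obtain ⟨x', hx1, hx2, hx3⟩ := near_other hx hvx.symm
  obtain ⟨y', hy1, hy2, hy3⟩ := near_other hy hvy.symm
  have hE := near_emb hvx hvy hxy hw1 hw2 hw3 hw4 hx1 hx2 hx3 hy1 hy2 hy3
  have hP : Function.Injective (![0, 1, 2] : Fin 3 → Fin 3) := by decide
  exact red hC hE (List.cons_ne_nil _ _) (cl_of (rng_of hE hP) False fun h => h.elim) hk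

end Pool.Agent.Helper68.AV
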