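import Pool.Agent.Helper68.AV.Defs

/-!
# Project AV (MP_028d9b_co): a graph without colouring in the class is critical
-/

set_option autoImplicit false

namespace Pool.Agent.Helper68.AV

open Pool.Agent.Helper52.AH Pool.Agent.Helper31.AH Finset

/-- the graph with a new vertex `none` on the edge `uv` -/
def sub2 {V : Type} (G : SimpleGraph V) (u v : V) : SimpleGraph (Option V) where
  Adj
    | none, none => False
    | none, some a => a = u ∨ a = v
    | some a, none => a = u ∨ a = v
    | some a, some b => G.Adj a b ∧ s(a, b) ≠ s(u, v)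
  symm := ⟨fun x y h => by
    rcases x with _ | a <;> rcases y with _ | b
    · exact h
    · exact h
    · exact h
    · exact ⟨h.1.symm, by rw [Sym2.eq_swap]; exact h.2⟩⟩
  loopless := ⟨fun x h => by
    rcases x with _ | a
    · exact h
    · exact G.loopless.irrefl a h.1⟩

section

variable {V : Type} [Fintype V] {G : SimpleGraph V} {u v : V}

open Classical in
/-- the place of the neighbour `b` of `a` in the new graph -/
noncomputable def plc (u v a b : V) : Option V := if s(a, b) = s(u, v) then none else some b

omit [Fintype V] in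
lemma plc_inj (a : V) : Function.Injective (plc u v a) := by
  intro b b' h
  unfold plc at h
  split_ifs at h with h1 h2 h2
  · have : s(a, b) = s(a, b') := h1.trans h2.symm
    rw [Sym2.eq_iff] at this
    rcases this with ⟨_, h⟩ | ⟨h3, h4⟩
    · exact h
    · rw [h4, ← h3]
  · exact Option.some.inj h

open Classical in
lemma nb_some (huv : G.Adj u v) (a : V) : nb (sub2 G u v) (some a) = (nb G a).image (plc u v a) := by
  ext o
  rw [mem_nb, mem_image]
  constructor
  · intro h
    rcases o with _ | b
    · rcases h with h | h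
      · refine ⟨v, ?_, ?_⟩
        · rw [mem_nb, h]; exact huv
        · rw [plc, if_pos (by rw [h])]
      · refine ⟨u, ?_, ?_⟩
        · rw [mem_nb, h]; exact huv.symm
        · rw [plc, if_pos (by rw [h]; exact Sym2.eq_swap)]
    · exact ⟨b, mem_nb.2 h.1, by rw [plc, if_neg h.2]⟩
  · rintro ⟨b, hb, rfl⟩
    rw [mem_nb] at hb
    unfold plc
    split_ifs with h
    · rw [Sym2.eq_iff] at h
      rcases h with ⟨h, _⟩ | ⟨h, _⟩
      · exact Or.inl h
      · exact Or.inr h
    · exact ⟨hb, h⟩

lemma dg_some (huv : G.Adj u v) (a : V) : dg (sub2 G u v) (some a) = dg G a := by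
  classical
  rw [dg, nb_some huv, dg, Finset.card_image_of_injective _ (plc_inj a)]

lemma dg_none : dg (sub2 G u v) none ≤ 2 := by
  classical
  rw [dg]
  have : nb (sub2 G u v) none ⊆ {some u, some v} := by
    intro o ho
    rw [mem_nb] at ho
    rcases o with _ | b
    · exact ho.elim
    · rcases ho with h | h
      · simp [h]
      · simp [h]
  exact (Finset.card_le_card this).trans Finset.card_le_two

lemma two_le_of {α : Type} {s : Finset α} {a b : α} (ha : a ∈ s) (hb : b ∈ s) (h : a ≠ b) :
    2 ≤ s.card := by
  rw [← Nat.lt_iff_add_one_le, Finset.one_lt_card]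
  exact ⟨a, ha, b, hb, h⟩

lemma twoCon_sub2 (h2 : TwoCon G) (huv : G.Adj u v) : TwoCon (sub2 G u v) := by
  classical
  intro X hX hXu
  have hne : u ≠ v := huv.ne
  set Y : Finset V := univ.filter fun a => some a ∈ X with hY
  have hmY : ∀ a, a ∈ Y ↔ some a ∈ X := fun a => by simp [hY]
  rcases Y.eq_empty_or_nonempty with h0 | h1
  · have hn : none ∈ X := by
      obtain ⟨o, ho⟩ := hX
      rcases o with _ | a
      · exact ho
      · exfalso
        have := (hmY a).2 ho
        rw [h0] at this
        simp at this
    have hs : ∀ a, some a ∉ X := fun a ha => by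
      have := (hmY a).2 ha
      rw [h0] at this
      simp at this
    refine two_le_of (a := (none, some u)) (b := (none, some v)) ?_ ?_ ?_
    · exact mem_lv.2 ⟨hn, hs u, Or.inl rfl⟩
    · exact mem_lv.2 ⟨hn, hs v, Or.inr rfl⟩
    · intro h
      exact hne (Option.some.inj (Prod.ext_iff.1 h).2)
  · by_cases hu : Y = univ
    · have hs : ∀ a, some a ∈ X := fun a => (hmY a).1 (by rw [hu]; exact mem_univ a)
      have hn : none ∉ X := by
        intro hn
        apply hXu
        rw [Finset.eq_univ_iff_forall]
        intro o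
        rcases o with _ | a
        · exact hn
        · exact hs a
      refine two_le_of (a := (some u, none)) (b := (some v, none)) ?_ ?_ ?_
      · exact mem_lv.2 ⟨hs u, hn, Or.inl rfl⟩
      · exact mem_lv.2 ⟨hs v, hn, Or.inr rfl⟩
      · intro h
        exact hne (Option.some.inj (Prod.ext_iff.1 h).1)
    · refine (h2 Y h1 hu).trans ?_
      refine Finset.card_le_card_of_injOn (fun q : V × V =>
        if s(q.1, q.2) = s(u, v) then (if none ∈ X then (none, some q.2) else (some q.1, none))
        else (some q.1, some q.2)) ?_ ?_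
      · rintro ⟨a, b⟩ hq
        have hq' := mem_lv.1 (Finset.mem_coe.1 hq)
        obtain ⟨ha, hb, hab⟩ := hq'
        rw [hmY] at ha hb
        apply Finset.mem_coe.2
        dsimp only
        split_ifs with h3 h4
        · refine mem_lv.2 ⟨h4, hb, ?_⟩
          rw [Sym2.eq_iff] at h3
          rcases h3 with ⟨_, h⟩ | ⟨_, h⟩
          · exact Or.inr h
          · exact Or.inl h
        · refine mem_lv.2 ⟨ha, h4, ?_⟩
          rw [Sym2.eq_iff] at h3
          rcases h3 with ⟨h, _⟩ | ⟨h, _⟩
          · exact Or.inl h
          · exact Or.inr h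
        · exact mem_lv.2 ⟨ha, hb, hab, h3⟩
      · rintro ⟨a, b⟩ hq ⟨a', b'⟩ hq' h
        have hq1 := mem_lv.1 (Finset.mem_coe.1 hq)
        have hq2 := mem_lv.1 (Finset.mem_coe.1 hq')
        dsimp only at h hq1 hq2
        split_ifs at h with h3 h4 h5 h5 h5 h5
        all_goals first
          | (simp only [Prod.mk.injEq, reduceCtorEq, Option.some.injEq, and_false, false_and,
              true_and, and_true] at h; try exact h.elim)
        · rw [Sym2.eq_iff] at h3 h5
          rcases h3 with ⟨x1, x2⟩ | ⟨x1, x2⟩ <;> rcases h5 with ⟨y1, y2⟩ | ⟨y1, y2⟩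
          · rw [x1, x2, y1, y2]
          · exact absurd (x2.symm.trans (h.trans y2)).symm hne
          · exact absurd (x2.symm.trans (h.trans y2)) hne
          · rw [x1, x2, y1, y2]
        · rw [Sym2.eq_iff] at h3 h5
          rcases h3 with ⟨x1, x2⟩ | ⟨x1, x2⟩ <;> rcases h5 with ⟨y1, y2⟩ | ⟨y1, y2⟩
          · rw [x1, x2, y1, y2]
          · exact absurd (x1.symm.trans (h.trans y1)) hne
          · exact absurd (x1.symm.trans (h.trans y1)).symm hne
          · rw [x1, x2, y1, y2]
        · rw [h.1, h.2]

end

/-- A graph of the class without a colouring is critical. -/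
theorem crit_of {V : Type} [Fintype V] (G : SimpleGraph V) [DecidableRel G.Adj]
    (hc : G.Connected) (hd : ∀ v, G.degree v ≤ 3) (hbr : ∀ e, ¬ G.IsBridge e)
    (hb : ∃ b : V → Bool, ∀ v w, G.Adj v w → G.degree v = 3 → G.degree w = 3 → b v ≠ b w)
    (hno : ¬ Col3 G) : Crit G := by
  classical
  refine ⟨hno, fun u v huv => ?_⟩
  have hodd : ¬ Even (Fintype.card V) := by
    intro hev
    apply hno
    obtain ⟨c, hcp⟩ := final G hc hd hbr hb (Or.inl hev)
    exact ⟨fun a b => c s(a, b), fun a b => congrArg c Sym2.eq_swap, fun a b b' h1 h2 hne =>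
      hcp a b b' h1 h2 hne⟩
  have hev : Even (Fintype.card (Option V)) := by
    rw [Fintype.card_option]
    exact (Nat.not_even_iff_odd.1 hodd).add_one
  obtain ⟨b, hb⟩ := hb
  have hdg : ∀ a, dg G a = G.degree a := fun a => dg_eq a
  obtain ⟨c, hcs, hcp⟩ := main_ind (Fintype.card (Option V)) (Option V) (sub2 G u v) le_rfl
    (fun o => by
      rcases o with _ | a
      · exact dg_none.trans (by norm_num)
      · rw [dg_some huv, hdg]; exact hd a)
    (twoCon_sub2 (twoCon_of hc hbr) huv) (fun o => o.elim false b)
    (fun x y hxy hx hy => by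
      rcases x with _ | a
      · have := dg_none (G := G) (u := u) (v := v)
        omega
      · rcases y with _ | a'
        · have := dg_none (G := G) (u := u) (v := v)
          omega
        · rw [dg_some huv, hdg] at hx hy
          exact hb a a' hxy.1 hx hy)
    (nf_even _ hev none)
  refine ⟨fun a a' => c (some a) (some a'), ⟨fun a a' => hcs _ _, ?_⟩⟩
  intro a w w' h1 h2 hne
  rw [SimpleGraph.deleteEdges_adj, Set.mem_singleton_iff] at h1 h2
  exact hcp (some a) (some w) (some w') ⟨h1.1, h1.2⟩ ⟨h2.1, h2.2⟩
    (fun h => hne (Option.some.inj h))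

end Pool.Agent.Helper68.AV
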