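import Pool.Agent.Helper68.AV.CertA
import Pool.Agent.Helper68.AV.CertB
import Pool.Agent.Helper68.AV.Plus
import Pool.Agent.Helper68.AV.Count
import Pool.Agent.Helper68.AV.Near
import Pool.Agent.Helper68.AV.Comb
import Pool.Agent.Helper68.AV.Claw

/-!
# Project AV: the two theorems
-/

set_option autoImplicit false

namespace Pool.Agent.Helper68.AV

open Pool.Agent.Helper52.AH Pool.Agent.Helper31.AH

/-- `Col3` and `Col` are the same -/
theorem col3_iff {V : Type} (G : SimpleGraph V) : Col3 G ↔ Col G := by
  constructor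
  · rintro ⟨c, hcs, hcp⟩
    exact ⟨Sym2.lift ⟨c, hcs⟩, fun u v w h1 h2 hne => hcp u v w h1 h2 hne⟩
  · rintro ⟨c, hc⟩
    exact ⟨fun v w => c s(v, w), fun v w => congrArg c Sym2.eq_swap,
      fun v w w' h1 h2 hne => hc v w w' h1 h2 hne⟩

theorem crit_iff {V : Type} (G : SimpleGraph V) :
    Crit G ↔ ¬ Col G ∧ ∀ e ∈ G.edgeSet, Col (G.deleteEdges {e}) := by
  constructor
  · rintro ⟨h1, h2⟩
    refine ⟨fun h => h1 ((col3_iff G).2 h), ?_⟩
    intro e he
    induction e with
    | h u v =>
      obtain ⟨c, hc⟩ := h2 u v he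
      exact (col3_iff _).1 ⟨c, hc.symm, hc.prop⟩
  · rintro ⟨h1, h2⟩
    refine ⟨fun h => h1 ((col3_iff G).1 h), ?_⟩
    intro u v h
    obtain ⟨c, hcs, hcp⟩ := (col3_iff _).2 (h2 s(u, v) h)
    exact ⟨c, hcs, hcp⟩

/-- plane critical graphs -/
theorem plane_crit {V : Type} [Fintype V] [DecidableEq V] {G : SimpleGraph V} [DecidableRel G.Adj]
    (R : Rot G) (hG : G.Connected) (hP : R.Planar) (hd : ∀ v, G.degree v ≤ 3) (hC : Crit G) :
    3 * (Finset.univ.filter fun v => G.degree v = 2).card ≤
      (Finset.univ.filter fun v => G.degree v = 3).card := by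
  classical
  have hd' : ∀ v, dg G v ≤ 3 := fun v => by rw [dg_eq]; exact hd v
  have h5 := h5_of hC hd'
  have h2 := h2_of hC hd' kill_two
  have h := count G hd' h5 h2 (comb_of R hG hP hC hd' h5 h2 kill_comb kill_tri kill_sq)
    (claw_of R hG hP hC hd' h5 h2 kill_claw kill_clsq)
  have e1 : (Finset.univ.filter fun v => G.degree v = 2) = Finset.univ.filter fun v => dg G v = 2 := by
    ext v
    simp only [Finset.mem_filter, Finset.mem_univ, true_and, dg_eq]
  have e2 : (Finset.univ.filter fun v => G.degree v = 3) = Finset.univ.filter fun v => dg G v = 3 := by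
    ext v
    simp only [Finset.mem_filter, Finset.mem_univ, true_and, dg_eq]
  rw [e1, e2]
  exact h

theorem card_four {V : Type} [Fintype V] [DecidableEq V] {G : SimpleGraph V} [DecidableRel G.Adj]
    (h : 3 * (Finset.univ.filter fun v => G.degree v = 2).card ≤
      (Finset.univ.filter fun v => G.degree v = 3).card) :
    4 * (Finset.univ.filter fun v => G.degree v = 2).card ≤ Fintype.card V := by
  have h1 : Disjoint (Finset.univ.filter fun v => G.degree v = 2)
      (Finset.univ.filter fun v => G.degree v = 3) := by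
    rw [Finset.disjoint_left]
    intro v hv hw
    rw [Finset.mem_filter] at hv hw
    omega
  have h2 := Finset.card_le_univ ((Finset.univ.filter fun v => G.degree v = 2) ∪
    (Finset.univ.filter fun v => G.degree v = 3))
  rw [Finset.card_union_of_disjoint h1] at h2
  omega

end Pool.Agent.Helper68.AV
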