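import Pool.Agent.Helper68.AV.Defs

/-!
# Project AV (MP_028d9b_co): Kempe changes

The states of a ring are closed under Kempe changes.
-/

set_option autoImplicit false

namespace Pool.Agent.Helper68.AV

open Pool.Agent.Helper52.AH Pool.Agent.Helper31.AH

open Finset in
theorem leaf {V : Type} [Fintype V] (K : SimpleGraph V) (hK : ∀ v, dg K v ≤ 2) {x y z : V}
    (hxy : x ≠ y) (hxz : x ≠ z) (hyz : y ≠ z) (h1 : K.Reachable x y) (h2 : K.Reachable x z)
    (dx : dg K x ≤ 1) (dy : dg K y ≤ 1) (dz : dg K z ≤ 1) : False := by
  classical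
  set C := K.connectedComponentMk x with hC
  have hx : x ∈ C := rfl
  have hy : y ∈ C := (SimpleGraph.ConnectedComponent.eq.2 h1.symm)
  have hz : z ∈ C := (SimpleGraph.ConnectedComponent.eq.2 h2.symm)
  have hconn := C.connected_toSimpleGraph
  have hcard := hconn.card_vert_le_card_edgeSet_add_one
  have hsum := C.toSimpleGraph.sum_degrees_eq_twice_card_edges
  rw [Nat.card_eq_fintype_card, Nat.card_eq_fintype_card, ← SimpleGraph.edgeFinset_card] at hcard
  have hdeg : ∀ v : C, C.toSimpleGraph.degree v ≤ dg K v.1 := by
    intro v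
    rw [← SimpleGraph.card_neighborFinset_eq_degree, dg]
    apply Finset.card_le_card_of_injOn (fun w : C => w.1)
    · intro w hw
      rw [Finset.mem_coe, SimpleGraph.mem_neighborFinset] at hw
      rw [Finset.mem_coe, mem_nb]
      exact hw
    · intro a _ b _ hab
      exact Subtype.ext hab
  set x' : C := ⟨x, hx⟩ with hx'
  set y' : C := ⟨y, hy⟩ with hy'
  set z' : C := ⟨z, hz⟩ with hz'
  have hle : ∑ v : C, (C.toSimpleGraph.degree v + ((if v = x' then 1 else 0) +
      ((if v = y' then 1 else 0) + (if v = z' then 1 else 0)))) ≤ ∑ v : C, 2 := by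
    apply Finset.sum_le_sum
    intro v _
    have h := hdeg v
    have hk := hK v.1
    by_cases hvx : v = x'
    · subst hvx
      have e1 : x' ≠ y' := fun h => hxy (congrArg Subtype.val h)
      have e2 : x' ≠ z' := fun h => hxz (congrArg Subtype.val h)
      rw [if_pos rfl, if_neg e1, if_neg e2]
      have : dg K x'.1 ≤ 1 := dx
      omega
    · by_cases hvy : v = y'
      · subst hvy
        have e2 : y' ≠ z' := fun h => hyz (congrArg Subtype.val h)
        rw [if_neg hvx, if_pos rfl, if_neg e2]
        have : dg K y'.1 ≤ 1 := dy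
        omega
      · by_cases hvz : v = z'
        · subst hvz
          rw [if_neg hvx, if_neg hvy, if_pos rfl]
          have : dg K z'.1 ≤ 1 := dz
          omega
        · rw [if_neg hvx, if_neg hvy, if_neg hvz]
          omega
  simp only [Finset.sum_add_distrib, Finset.sum_ite_eq', Finset.mem_univ, if_true,
    Finset.sum_const, Finset.card_univ, smul_eq_mul] at hle
  rw [hsum] at hle
  omega

theorem leaf2 {V : Type} [Fintype V] (K : SimpleGraph V) (hK : ∀ v, dg K v ≤ 2) {x y z : V}
    (hxy : x ≠ y) (h1 : K.Reachable x y) (h2 : K.Reachable x z) (hx : z ≠ x) (hy : z ≠ y)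
    (dx : dg K x ≤ 1) (dy : dg K y ≤ 1) : dg K z = 2 := by
  by_contra h
  have h3 := hK z
  exact leaf K hK hxy hx.symm hy.symm h1 h2 dx dy (by omega)

theorem kg_dg {V : Type} [Fintype V] {H : SimpleGraph V} {c : V → V → Fin 3} (hc : PC H c)
    (i : Fin 3) (v : V) : dg (kg H c hc i) v ≤ 2 := by
  classical
  rw [dg]
  have h : ((nb (kg H c hc i) v).image (c v)) ⊆ Finset.univ.erase i := by
    intro j hj
    rw [Finset.mem_image] at hj
    obtain ⟨w, hw, rfl⟩ := hj
    rw [mem_nb] at hw
    exact Finset.mem_erase.2 ⟨hw.2, Finset.mem_univ _⟩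
  have h2 : ((nb (kg H c hc i) v).image (c v)).card = (nb (kg H c hc i) v).card := by
    apply Finset.card_image_of_injOn
    intro a ha b hb hab
    rw [Finset.mem_coe, mem_nb] at ha hb
    by_contra hne
    exact hc.prop v a b ha.1 hb.1 hne hab
  have h3 := Finset.card_le_card h
  rw [h2, Finset.card_erase_of_mem (Finset.mem_univ i), Finset.card_univ, Fintype.card_fin] at h3
  exact h3

theorem adj_of_reach {V : Type} {K : SimpleGraph V} {a b : V} (h : K.Reachable a b)
    (hne : a ≠ b) : ∃ w, K.Adj a w := by
  obtain ⟨w⟩ := h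
  cases w with
  | nil => exact absurd rfl hne
  | cons h _ => exact ⟨_, h⟩

theorem swp_inj (i : Fin 3) : Function.Injective (swp i) := by
  intro a b h
  revert i a b
  decide

theorem swp_self (i : Fin 3) : swp i i = i := by
  revert i
  decide

theorem cl_of {V : Type} [Fintype V] {H : SimpleGraph V} {r : ℕ} {p o : Fin r → V}
    (hR : Rng H p o) (pl : Prop)
    (hnc : pl → ∀ c (hc : PC H c) (i : Fin 3) (a b a' b' : Fin r), a < b → b < a' → a' < b' →
      (kg H c hc i).Reachable (p a) (p a') → (kg H c hc i).Reachable (p b) (p b') →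
      (kg H c hc i).Reachable (p a) (p b)) : Cl pl (Stt H p o) := by
  classical
  refine ⟨?_, ?_⟩
  · rintro s ⟨c, hc, hs⟩ i
    have hd1 : ∀ t, dg (kg H c hc i) (p t) ≤ 1 := by
      intro t
      rw [dg, Finset.card_le_one]
      intro a ha b hb
      rw [mem_nb] at ha hb
      rw [hR.one t a ha.1, hR.one t b hb.1]
    have hd2 : ∀ v, dg (kg H c hc i) v ≤ 2 := kg_dg hc i
    have huniq : ∀ t u u', u ≠ t → u' ≠ t → (kg H c hc i).Reachable (p t) (p u) →
        (kg H c hc i).Reachable (p t) (p u') → u = u' := by
      intro t u u' hu hu' h h'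
      by_contra hne
      exact leaf (kg H c hc i) hd2 (fun e => hu (hR.inj e).symm) (fun e => hu' (hR.inj e).symm)
        (fun e => hne (hR.inj e)) h h' (hd1 _) (hd1 _) (hd1 _)
    obtain ⟨m, hm1, hm2⟩ : ∃ m : Fin r → Fin r,
        (∀ t u, u ≠ t → (kg H c hc i).Reachable (p t) (p u) → m t = u) ∧
        ∀ t, (kg H c hc i).Reachable (p t) (p (m t)) := by
      refine ⟨fun t => if h : ∃ u, u ≠ t ∧ (kg H c hc i).Reachable (p t) (p u) then h.choose
        else t, ?_, ?_⟩
      · intro t u hu h
        have hex : ∃ u, u ≠ t ∧ (kg H c hc i).Reachable (p t) (p u) := ⟨u, hu, h⟩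
        simp only [dif_pos hex]
        exact huniq t _ _ hex.choose_spec.1 hu hex.choose_spec.2 h
      · intro t
        by_cases hex : ∃ u, u ≠ t ∧ (kg H c hc i).Reachable (p t) (p u)
        · simp only [dif_pos hex]
          exact hex.choose_spec.2
        · simp only [dif_neg hex]
          exact SimpleGraph.Reachable.refl _
    refine ⟨m, ?_, ?_, ?_, ?_⟩
    · intro t
      by_cases h : m t = t
      · rw [h, h]
      · exact hm1 (m t) t (Ne.symm h) (hm2 t).symm
    · intro t ht
      obtain ⟨w, hw⟩ := adj_of_reach (hm2 t) (fun e => ht (hR.inj e).symm)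
      have hwo := hR.one t w hw.1
      rw [← hs t, ← hwo]
      exact hw.2
    · intro hpl a b hab hb hlt
      have h := hnc hpl c hc i a b (m a) (m b) hab hb hlt (hm2 a) (hm2 b)
      have h2 := hm1 a b (ne_of_gt hab) h
      rw [h2] at hb
      exact lt_irrefl _ hb
    · intro X hX
      set Z : V → Prop := fun z => ∃ t, X t = true ∧ (kg H c hc i).Reachable (p t) z with hZ
      have hval : ∀ v w, H.Adj v w → Z v →
          (if Z v ∧ Z w then swp i (c v w) else c v w) = swp i (c v w) := by
        intro v w hvw hv
        by_cases hw : Z w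
        · rw [if_pos ⟨hv, hw⟩]
        · rw [if_neg (fun h => hw h.2)]
          by_cases hci : c v w = i
          · rw [hci, swp_self]
          · exfalso
            apply hw
            obtain ⟨t, ht, hr⟩ := hv
            have hadj : (kg H c hc i).Adj v w := ⟨hvw, hci⟩
            exact ⟨t, ht, hr.trans hadj.reachable⟩
      refine ⟨fun v w => if Z v ∧ Z w then swp i (c v w) else c v w, ⟨?_, ?_⟩, ?_⟩
      · intro v w
        by_cases hvw : Z v ∧ Z w
        · simp only [if_pos hvw, if_pos hvw.symm]
          rw [hc.symm]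
        · have hwv : ¬ (Z w ∧ Z v) := fun h => hvw h.symm
          simp only [if_neg hvw, if_neg hwv]
          rw [hc.symm]
      · intro v w w' hw hw' hne
        by_cases hv : Z v
        · simp only [hval v w hw hv, hval v w' hw' hv]
          intro h
          exact hc.prop v w w' hw hw' hne (swp_inj i h)
        · have h1 : ¬ (Z v ∧ Z w) := fun h => hv h.1
          have h2 : ¬ (Z v ∧ Z w') := fun h => hv h.1
          simp only [if_neg h1, if_neg h2]
          exact hc.prop v w w' hw hw' hne
      · intro t
        cases hXt : X t with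
        | true =>
          have hz : Z (p t) := ⟨t, hXt, SimpleGraph.Reachable.refl _⟩
          show (if Z (p t) ∧ Z (o t) then swp i (c (p t) (o t)) else c (p t) (o t)) =
            if X t = true then swp i (s t) else s t
          rw [hval (p t) (o t) (hR.adj t) hz, hs t, if_pos hXt]
        | false =>
          have hz : ¬ (Z (p t) ∧ Z (o t)) := by
            rintro ⟨⟨u, hu, hr⟩, _⟩
            by_cases hut : t = u
            · rw [hut, hu] at hXt
              exact Bool.noConfusion hXt
            · have h1 := hm1 u t hut hr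
              have h2 := hX u
              rw [h1, hXt, hu] at h2
              exact Bool.noConfusion h2
          show (if Z (p t) ∧ Z (o t) then swp i (c (p t) (o t)) else c (p t) (o t)) =
            if X t = true then swp i (s t) else s t
          rw [if_neg hz, hs t, hXt, if_neg Bool.false_ne_true]
  · rintro s ⟨c, hc, hs⟩ π
    refine ⟨fun v w => π (c v w), ⟨?_, ?_⟩, ?_⟩
    · intro v w
      simp only [hc.symm v w]
    · intro v w w' hw hw' hne h
      exact hc.prop v w w' hw hw' hne (π.injective h)
    · intro t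
      simp only [hs t]

end Pool.Agent.Helper68.AV
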