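import Pool.Agent.Helper68.AV.Check

/-!
# Project AV: the check is sound
-/

set_option autoImplicit false

namespace Pool.Agent.Helper68.AV

theorem cn_map (l : List (Fin 3)) : ∃ π : Equiv.Perm (Fin 3), cn l = l.map π := by
  cases l with
  | nil => exact ⟨1, rfl⟩
  | cons a t =>
    unfold cn
    simp only []
    split
    · refine ⟨(Equiv.subRight a).trans (Equiv.neg (Fin 3)), ?_⟩
      rw [List.map_map]
      rfl
    · exact ⟨Equiv.subRight a, rfl⟩

theorem fl_length (i : Fin 3) (b : List ℕ) (l : List (Fin 3)) : ∀ k, (fl i b k l).length = l.length := by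
  induction l with
  | nil => intro k; rfl
  | cons x t ih => intro k; simp [fl, ih]

theorem fl_get (i : Fin 3) (b : List ℕ) (l : List (Fin 3)) : ∀ (k j : ℕ) (h : j < (fl i b k l).length)
    (h' : j < l.length), (fl i b k l)[j] = if b.contains (k + j) then swp i l[j] else l[j] := by
  induction l with
  | nil => intro k j h h'; simp at h'
  | cons x t ih =>
    intro k j h h'
    cases j with
    | zero => simp [fl]
    | succ j =>
      have h1 := ih (k + 1) j (by simpa [fl] using h) (by simpa using h')
      simp only [fl, List.getElem_cons_succ]
      rw [h1, show k + 1 + j = k + (j + 1) by omega]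

theorem fl_ofFn {r : ℕ} (i : Fin 3) (b : List ℕ) (s : Fin r → Fin 3) :
    fl i b 0 (List.ofFn s) = List.ofFn (fun t => if b.contains t.1 then swp i (s t) else s t) := by
  apply List.ext_getElem
  · rw [fl_length]; simp
  · intro j h1 h2
    have h3 : j < (List.ofFn s).length := by rw [fl_length] at h1; exact h1
    rw [fl_get i b _ 0 j h1 h3]
    simp

theorem mem_act (i : Fin 3) (l : List (Fin 3)) : ∀ (k t : ℕ),
    t ∈ act i k l ↔ ∃ j, ∃ h : j < l.length, t = k + j ∧ l[j] ≠ i := by
  induction l with
  | nil => intro k t; simp [act]
  | cons x l ih =>
    intro k t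
    unfold act
    have key : (∃ j, ∃ h : j < (x :: l).length, t = k + j ∧ (x :: l)[j] ≠ i) ↔
        (t = k ∧ x ≠ i) ∨ ∃ j, ∃ h : j < l.length, t = k + 1 + j ∧ l[j] ≠ i := by
      constructor
      · rintro ⟨j, h, h1, h2⟩
        cases j with
        | zero => exact Or.inl ⟨by omega, by simpa using h2⟩
        | succ j => exact Or.inr ⟨j, by simpa using h, by omega, by simpa using h2⟩
      · rintro (⟨h1, h2⟩ | ⟨j, h, h1, h2⟩)
        · exact ⟨0, by simp, by omega, by simpa using h2⟩
        · exact ⟨j + 1, by simpa using h, by omega, by simpa using h2⟩
    rw [key]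
    by_cases hx : x = i
    · rw [if_pos (by simp [hx]), ih]
      constructor
      · exact Or.inr
      · rintro (⟨_, h⟩ | h)
        · exact absurd hx h
        · exact h
    · rw [if_neg (by simp [hx]), List.mem_cons, ih]
      constructor
      · rintro (h | h)
        · exact Or.inl ⟨h, hx⟩
        · exact Or.inr h
      · rintro (⟨h, _⟩ | h)
        · exact Or.inl h
        · exact Or.inr h

theorem act_nodup (i : Fin 3) (l : List (Fin 3)) : ∀ k, (act i k l).Nodup := by
  induction l with
  | nil => intro k; simp [act]
  | cons x l ih =>
    intro k
    unfold act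
    split
    · exact ih _
    · rw [List.nodup_cons]
      refine ⟨fun h => ?_, ih _⟩
      obtain ⟨j, _, h1, _⟩ := (mem_act i l (k + 1) k).1 h
      omega

/-- the state after the change on `X` -/
def ch {r : ℕ} (i : Fin 3) (s : Fin r → Fin 3) (X : Fin r → Bool) : Fin r → Fin 3 :=
  fun t => if X t then swp i (s t) else s t

theorem go_sound {r : ℕ} {S : (Fin r → Fin 3) → Prop} {pl : Bool} {dead : List (Fin 3) → Bool}
    (hdead : ∀ s, dead (List.ofFn s) = true → ¬ S s) (s : Fin r → Fin 3) (i : Fin 3)
    (m : Fin r → Fin r) (hm : ∀ t, m (m t) = t) (hnc : pl = true → NCr m)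
    (hX : ∀ X : Fin r → Bool, (∀ t, X (m t) = X t) → S (ch i s X)) :
    ∀ (n : ℕ) (pos : List ℕ) (rc : List (List (Fin 3))) (prs : List (ℕ × ℕ)), pos.Nodup →
      (∀ t ∈ pos, ∃ h : t < r, (m ⟨t, h⟩).1 ∈ pos) →
      (∀ x ∈ rc, ∃ X : Fin r → Bool, (∀ t, X (m t) = X t) ∧ (∀ t, t.1 ∈ pos → X t = false) ∧
        x = List.ofFn (ch i s X)) →
      (∀ p ∈ prs, ∃ t u : Fin r, p = (t.1, u.1) ∧ m t = u) →
      go dead i pl n pos rc prs = true → False := by
  intro n
  induction n with
  | zero => intro pos rc prs _ _ _ _ h; simp [go] at h
  | succ n ih =>
    intro pos rc prs hnd hcl hrc hprs h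
    cases pos with
    | nil => simp [go] at h
    | cons t rest =>
      rw [List.nodup_cons] at hnd
      obtain ⟨ht, htm⟩ := hcl t List.mem_cons_self
      -- the states after one more block
      have step : ∀ b : List ℕ, (∀ k ∈ b, k ∈ t :: rest) →
          (∀ v : Fin r, b.contains (m v).1 = b.contains v.1) →
          ∀ x ∈ rc.map (fl i b 0), ∃ X : Fin r → Bool, (∀ v, X (m v) = X v) ∧
            (∀ v : Fin r, v.1 ∈ t :: rest → v.1 ∉ b → X v = false) ∧ x = List.ofFn (ch i s X) := by
        intro b hb hbm x hx
        rw [List.mem_map] at hx
        obtain ⟨y, hy, rfl⟩ := hx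
        obtain ⟨X, hX1, hX2, rfl⟩ := hrc y hy
        refine ⟨fun v => X v || b.contains v.1, fun v => ?_, fun v hv hvb => ?_, ?_⟩
        · show (X (m v) || b.contains (m v).1) = (X v || b.contains v.1)
          rw [hX1, hbm]
        · show (X v || b.contains v.1) = false
          rw [hX2 v hv]
          simpa using hvb
        · rw [fl_ofFn]
          congr 1
          funext v
          unfold ch
          by_cases hv : b.contains v.1 = true
          · have hvX : X v = false := hX2 v (hb _ (by simpa using hv))
            simp only [hv, hvX, Bool.or_true, if_true]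
            simp
          · simp only [Bool.not_eq_true] at hv
            simp only [hv, Bool.or_false]
            simp
      have nodead : ∀ b : List ℕ, (∀ k ∈ b, k ∈ t :: rest) →
          (∀ v : Fin r, b.contains (m v).1 = b.contains v.1) →
          (rc.map (fl i b 0)).any dead = false := by
        intro b hb hbm
        rw [Bool.eq_false_iff]
        intro hc
        rw [List.any_eq_true] at hc
        obtain ⟨x, hx, hdx⟩ := hc
        obtain ⟨X, hX1, _, rfl⟩ := step b hb hbm x hx
        exact hdead _ hdx (hX X hX1)
      unfold go at h
      rw [Bool.and_eq_true] at h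
      obtain ⟨h1, h2⟩ := h
      by_cases hmt : m ⟨t, ht⟩ = ⟨t, ht⟩
      · -- a block with one position
        have hbm : ∀ v : Fin r, [t].contains (m v).1 = [t].contains v.1 := by
          intro v
          rw [Bool.eq_iff_iff]
          simp only [List.contains_iff_mem, List.mem_singleton]
          constructor
          · intro hv
            have : m v = ⟨t, ht⟩ := Fin.ext hv
            have h3 : m (m v) = m ⟨t, ht⟩ := by rw [this]
            rw [hm, hmt] at h3
            exact congrArg Fin.val h3
          · intro hv
            have : v = ⟨t, ht⟩ := Fin.ext hv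
            rw [this, hmt]
        have hb : ∀ k ∈ [t], k ∈ t :: rest := by
          intro k hk
          rw [List.mem_singleton] at hk
          rw [hk]; exact List.mem_cons_self
        rw [nodead [t] hb hbm, Bool.false_or] at h1
        refine ih rest _ prs hnd.2 ?_ ?_ hprs h1
        · intro u hu
          obtain ⟨h3, h4⟩ := hcl u (List.mem_cons_of_mem _ hu)
          refine ⟨h3, ?_⟩
          rw [List.mem_cons] at h4
          rcases h4 with h4 | h4
          · exfalso
            have h5 : m ⟨u, h3⟩ = ⟨t, ht⟩ := Fin.ext h4
            have h6 : m (m ⟨u, h3⟩) = m ⟨t, ht⟩ := by rw [h5]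
            rw [hm, hmt] at h6
            have h7 : u = t := congrArg Fin.val h6
            rw [h7] at hu
            exact hnd.1 hu
          · exact h4
        · intro x hx
          rw [List.mem_append] at hx
          rcases hx with hx | hx
          · obtain ⟨X, hX1, hX2, hX3⟩ := hrc x hx
            exact ⟨X, hX1, fun v hv => hX2 v (List.mem_cons_of_mem _ hv), hX3⟩
          · obtain ⟨X, hX1, hX2, hX3⟩ := step [t] hb hbm x hx
            refine ⟨X, hX1, fun v hv => hX2 v (List.mem_cons_of_mem _ hv) ?_, hX3⟩
            rw [List.mem_singleton]
            intro h5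
            rw [h5] at hv
            exact hnd.1 hv
      · -- a block with two positions
        set u : Fin r := m ⟨t, ht⟩ with hu
        have hmu : m u = ⟨t, ht⟩ := by rw [hu, hm]
        have hut : u.1 ≠ t := fun h3 => hmt (Fin.ext h3)
        have hur : u.1 ∈ rest := by
          rw [List.mem_cons] at htm
          rcases htm with h3 | h3
          · exact absurd h3 hut
          · exact h3
        rw [List.all_eq_true] at h2
        have h3 := h2 u.1 hur
        have hbm : ∀ v : Fin r, [t, u.1].contains (m v).1 = [t, u.1].contains v.1 := by
          intro v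
          rw [Bool.eq_iff_iff]
          simp only [List.contains_iff_mem, List.mem_cons, List.not_mem_nil, or_false]
          constructor
          · rintro (hv | hv)
            · right
              have : m v = ⟨t, ht⟩ := Fin.ext hv
              rw [← hm v, this]
            · left
              have : m v = u := Fin.ext hv
              rw [← hm v, this, hmu]
          · rintro (hv | hv)
            · right
              have : v = ⟨t, ht⟩ := Fin.ext hv
              rw [this]
            · left
              have : v = u := Fin.ext hv
              rw [this, hmu]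
        have hb : ∀ k ∈ [t, u.1], k ∈ t :: rest := by
          intro k hk
          simp only [List.mem_cons, List.not_mem_nil, or_false] at hk
          rcases hk with rfl | rfl
          · exact List.mem_cons_self
          · exact List.mem_cons_of_mem _ hur
        rw [nodead [t, u.1] hb hbm, Bool.or_false, Bool.or_eq_true, Bool.and_eq_true] at h3
        rcases h3 with ⟨hpl, hcr⟩ | h3
        · -- a crossing
          have hN := hnc hpl
          rw [List.any_eq_true] at hcr
          obtain ⟨p, hp, hcr⟩ := hcr
          obtain ⟨a, b, rfl, hab⟩ := hprs p hp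
          have hba : m b = a := by rw [← hab, hm]
          have hat : a ≠ ⟨t, ht⟩ ∨ True := Or.inr trivial
          unfold crs at hcr
          simp only [bne_iff_ne, ne_eq] at hcr
          -- exactly one of t, u is between a and b
          have key : ∀ x y : Fin r, m x = y → a < x → x < b → ¬ (a < y ∧ y < b) → False := by
            intro x y hxy h4 h5 h6
            have hyx : m y = x := by rw [← hxy, hm]
            rcases lt_trichotomy y a with h7 | h7 | h7
            · exact hN y a h7 (by rw [hyx]; exact h4) (by rw [hyx, hab]; exact h5)
            · rw [h7, hab] at hyx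
              exact absurd hyx (ne_of_gt h5)
            · rcases lt_trichotomy y b with h8 | h8 | h8
              · exact h6 ⟨h7, h8⟩
              · rw [h8, hba] at hyx
                exact absurd hyx (ne_of_lt h4)
              · exact hN a x h4 (by rw [hab]; exact h5) (by rw [hab, hxy]; exact h8)
          by_cases hA : a.1 < t ∧ t < b.1
          · apply key ⟨t, ht⟩ u rfl hA.1 hA.2
            intro hB
            have hB' : a.1 < u.1 ∧ u.1 < b.1 := hB
            apply hcr
            simp [hA.1, hA.2, hB'.1, hB'.2]
          · by_cases hB : a.1 < u.1 ∧ u.1 < b.1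
            · exact key u ⟨t, ht⟩ hmu hB.1 hB.2 (fun hC => hA hC)
            · apply hcr
              have e1 : (decide (a.1 < t) && decide (t < b.1)) = false := by
                rw [Bool.eq_false_iff]; intro hc
                rw [Bool.and_eq_true, decide_eq_true_iff, decide_eq_true_iff] at hc
                exact hA hc
              have e2 : (decide (a.1 < u.1) && decide (u.1 < b.1)) = false := by
                rw [Bool.eq_false_iff]; intro hc
                rw [Bool.and_eq_true, decide_eq_true_iff, decide_eq_true_iff] at hc
                exact hB hc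
              rw [e1, e2]
        · refine ih (rest.erase u.1) _ _ (hnd.2.erase _) ?_ ?_ ?_ h3
          · intro v hv
            have hv1 : v ∈ rest := List.mem_of_mem_erase hv
            have hv2 : v ≠ u.1 := by
              intro h5
              rw [h5] at hv
              exact hnd.2.not_mem_erase hv
            obtain ⟨h5, h6⟩ := hcl v (List.mem_cons_of_mem _ hv1)
            refine ⟨h5, ?_⟩
            rw [List.mem_cons] at h6
            rcases h6 with h6 | h6
            · exfalso
              apply hv2
              have h7 : m ⟨v, h5⟩ = ⟨t, ht⟩ := Fin.ext h6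
              have h8 : (⟨v, h5⟩ : Fin r) = u := by rw [hu, ← h7, hm]
              exact congrArg Fin.val h8
            · refine (List.mem_erase_of_ne ?_).2 h6
              intro h7
              have h8 : m ⟨v, h5⟩ = u := Fin.ext h7
              have h9 : (⟨v, h5⟩ : Fin r) = ⟨t, ht⟩ := by rw [← hmu, ← h8, hm]
              have h10 : v = t := congrArg Fin.val h9
              rw [h10] at hv1
              exact hnd.1 hv1
          · intro x hx
            rw [List.mem_append] at hx
            rcases hx with hx | hx
            · obtain ⟨X, hX1, hX2, hX3⟩ := hrc x hx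
              exact ⟨X, hX1, fun v hv => hX2 v (List.mem_cons_of_mem _ (List.mem_of_mem_erase hv)),
                hX3⟩
            · obtain ⟨X, hX1, hX2, hX3⟩ := step [t, u.1] hb hbm x hx
              refine ⟨X, hX1, fun v hv => hX2 v
                (List.mem_cons_of_mem _ (List.mem_of_mem_erase hv)) ?_, hX3⟩
              simp only [List.mem_cons, List.not_mem_nil, or_false, not_or]
              refine ⟨?_, ?_⟩
              · intro h5
                rw [h5] at hv
                exact hnd.1 (List.mem_of_mem_erase hv)
              · intro h5
                rw [h5] at hv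
                exact hnd.2.not_mem_erase hv
          · intro p hp
            rw [List.mem_cons] at hp
            rcases hp with rfl | hp
            · exact ⟨⟨t, ht⟩, u, rfl, rfl⟩
            · exact hprs p hp

theorem pw_pairwise {n : ℕ} (z : List ((Fin n × Fin n) × Fin 3)) (h : pw z = true) :
    z.Pairwise fun a b =>
      (a.1.1 = b.1.1 ∨ a.1.1 = b.1.2 ∨ a.1.2 = b.1.1 ∨ a.1.2 = b.1.2) → a.2 ≠ b.2 := by
  induction z with
  | nil => exact List.Pairwise.nil
  | cons a t ih =>
    unfold pw at h
    rw [Bool.and_eq_true, List.all_eq_true] at h
    refine List.Pairwise.cons ?_ (ih h.2)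
    intro b hb hs
    have h1 := h.1 b hb
    have h2 : share a.1 b.1 = true := by
      unfold share
      simp only [Bool.or_eq_true, beq_iff_eq]
      tauto
    rw [h2] at h1
    simpa using h1

theorem gd_good {C : Cfg} {s : Fin C.r → Fin 3} {e : List (Fin 3)} (h : gd C (List.ofFn s) e = true) :
    good C s e := by
  unfold gd at h
  rw [Bool.and_eq_true, Bool.and_eq_true, beq_iff_eq, List.all_eq_true] at h
  obtain ⟨⟨h1, h2⟩, h3⟩ := h
  refine ⟨h1, pw_pairwise _ h2, ?_⟩
  intro a ha t ht hc
  have h4 := h3 a ha
  rw [List.all_eq_true] at h4
  have h5 := h4 t (List.mem_finRange t)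
  rw [Bool.or_eq_true] at h5
  rcases h5 with h5 | h5
  · simp only [Bool.not_eq_true', Bool.or_eq_false_iff, beq_eq_false_iff_ne, ne_eq] at h5
    rcases ht with ht | ht
    · exact h5.1 ht
    · exact h5.2 ht
  · simp only [Bool.not_eq_true', beq_eq_false_iff_ne, ne_eq] at h5
    apply h5
    rw [List.getElem?_eq_getElem (by simp), List.getElem_ofFn, hc]

theorem mem_allL (l : List (Fin 3)) : l ∈ allL l.length := by
  induction l with
  | nil => simp [allL]
  | cons x l ih =>
    simp only [List.length_cons, allL, List.mem_flatMap]
    refine ⟨l, ih, ?_⟩
    fin_cases x <;> simp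

theorem run_sound {C : Cfg} {pl : Bool} {S : (Fin C.r → Fin 3) → Prop} (hcl : Cl (pl = true) S)
    (hg : ∀ s e, S s → ¬ good C s e) :
    ∀ (cert : List (List (Fin 3) × (List (Fin 3) ⊕ Fin 3))) (D D' : List (List (Fin 3))),
      (∀ s, List.ofFn s ∈ D → ¬ S s) → run C pl cert D = some D' → ∀ s, List.ofFn s ∈ D' → ¬ S s := by
  intro cert
  induction cert with
  | nil =>
    intro D D' hD h
    simp only [run, Option.some.injEq] at h
    rw [← h]
    exact hD
  | cons x t ih =>
    intro D D' hD h
    have hdead : ∀ s, (fun x => D.contains (cn x)) (List.ofFn s) = true → ¬ S s := by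
      intro s hs hS
      simp only [List.contains_iff_mem] at hs
      obtain ⟨π, hπ⟩ := cn_map (List.ofFn s)
      rw [hπ, List.map_ofFn] at hs
      exact hD _ hs (hcl.per s hS π)
    obtain ⟨l, y | i⟩ := x
    · unfold run at h
      split at h
      case isTrue hc =>
        rw [Bool.and_eq_true, beq_iff_eq] at hc
        refine ih (l :: D) D' ?_ h
        intro s hs
        rw [List.mem_cons] at hs
        rcases hs with hs | hs
        · intro hS
          rw [← hs] at hc
          exact hg s y hS (gd_good hc.2)
        · exact hD s hs
      case isFalse => simp at h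
    · unfold run at h
      split at h
      case isTrue hc =>
        rw [Bool.and_eq_true, beq_iff_eq] at hc
        refine ih (l :: D) D' ?_ h
        intro s hs
        rw [List.mem_cons] at hs
        rcases hs with hs | hs
        · intro hS
          obtain ⟨m, hm1, hm2, hm3, hm4⟩ := hcl.kem s hS i
          have hc2 := hc.2
          rw [← hs] at hc2
          refine go_sound hdead s i m hm1 hm3 hm4 _ _ _ _ (act_nodup i _ 0) ?_ ?_ ?_ hc2
          · intro t ht
            obtain ⟨j, hj, h1, h2⟩ := (mem_act i _ 0 t).1 ht
            have hjr : j < C.r := by simpa using hj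
            have htj : t = j := by omega
            subst htj
            refine ⟨hjr, ?_⟩
            rw [mem_act]
            refine ⟨(m ⟨t, hjr⟩).1, by simp, by omega, ?_⟩
            rw [List.getElem_ofFn]
            rw [List.getElem_ofFn] at h2
            by_cases h3 : m ⟨t, hjr⟩ = ⟨t, hjr⟩
            · rw [h3]; exact h2
            · apply hm2
              rw [hm1]
              exact fun h4 => h3 h4.symm
          · intro x hx
            rw [List.mem_singleton] at hx
            refine ⟨fun _ => false, fun _ => rfl, fun _ _ => rfl, ?_⟩
            rw [hx]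
            congr 1
          · intro p hp
            simp at hp
        · exact hD s hs
      case isFalse => simp at h

theorem kill_of {C : Cfg} {pl : Bool} {cert : List (List (Fin 3) × (List (Fin 3) ⊕ Fin 3))}
    (h : chk C pl cert = true) : Kill C (pl = true) := by
  intro S hcl hg s hS
  unfold chk at h
  split at h
  case h_1 D hD =>
    rw [List.all_eq_true] at h
    have h1 := h (List.ofFn s) (by simpa using mem_allL (List.ofFn s))
    rw [List.contains_iff_mem] at h1
    obtain ⟨π, hπ⟩ := cn_map (List.ofFn s)
    rw [hπ, List.map_ofFn] at h1
    exact run_sound hcl hg cert [] D (by intro s hs; simp at hs) hD _ h1 (hcl.per s hS π)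
  case h_2 => simp at h

end Pool.Agent.Helper68.AV
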